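import Pool.Agent.Cremer.Defs

/-!
# Elementary facts on filled Julia sets of quadratic polynomials
-/

open Set Filter Topology Complex Metric

namespace Pool.Agent.Cremer

variable {c : ℂ}

theorem f_neg (z : ℂ) : f c (-z) = f c z := by simp [f]

theorem f_sub (z w : ℂ) : f c z - f c w = (z - w) * (z + w) := by simp [f]; ring

theorem continuous_f : Continuous (f c) := by unfold f; fun_prop

theorem continuous_iter (n : ℕ) : Continuous (f c)^[n] := continuous_f.iterate n

theorem differentiable_f : Differentiable ℂ (f c) := by unfold f; fun_prop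

theorem differentiable_iter (n : ℕ) : Differentiable ℂ (f c)^[n] := by
  induction n with
  | zero => simpa using differentiable_id
  | succ n ih =>
    rw [Function.iterate_succ']
    exact differentiable_f.comp ih

theorem hasDerivAt_f (z : ℂ) : HasDerivAt (f c) (2 * z) z := by
  unfold f
  simpa using (hasDerivAt_pow 2 z).add_const c

/-- Escape radius. -/
noncomputable def R0 (c : ℂ) : ℝ := 2 + ‖c‖

theorem R0_ge : 2 ≤ R0 c := by unfold R0; linarith [norm_nonneg c]

theorem norm_f_ge {z : ℂ} (hz : R0 c ≤ ‖z‖) : 2 * ‖z‖ ≤ ‖f c z‖ := by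
  unfold f
  have h1 : ‖z‖ ^ 2 - ‖c‖ ≤ ‖z ^ 2 + c‖ := by
    have := norm_sub_le (z ^ 2 + c) c
    simp only [add_sub_cancel_right, norm_pow] at this
    linarith
  unfold R0 at hz
  nlinarith [norm_nonneg c, norm_nonneg z]

theorem norm_iter_ge {z : ℂ} (hz : R0 c ≤ ‖z‖) (n : ℕ) : 2 ^ n * ‖z‖ ≤ ‖(f c)^[n] z‖ := by
  induction n with
  | zero => simp
  | succ n ih =>
    rw [Function.iterate_succ_apply']
    have h1 : R0 c ≤ ‖(f c)^[n] z‖ := by
      refine le_trans ?_ ih
      have : (1:ℝ) ≤ 2 ^ n := one_le_pow₀ (by norm_num)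
      have h2 := R0_ge (c := c)
      nlinarith [norm_nonneg z]
    have h2 := norm_f_ge h1
    rw [pow_succ]
    linarith

theorem norm_iter_tendsto {z : ℂ} (hz : R0 c ≤ ‖z‖) : Tendsto (fun n => ‖(f c)^[n] z‖) atTop atTop := by
  apply tendsto_atTop_mono (norm_iter_ge hz)
  apply Tendsto.atTop_mul_const
  · have := R0_ge (c := c); linarith
  · exact tendsto_pow_atTop_atTop_of_one_lt (by norm_num)

theorem notMem_K_of_large {z : ℂ} (hz : R0 c ≤ ‖z‖) : z ∉ K c := by
  rintro ⟨R, hR⟩
  obtain ⟨n, hn⟩ := ((norm_iter_tendsto hz).eventually_gt_atTop R).exists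
  exact absurd (hR n) (not_le.mpr hn)

theorem f_mem_K {z : ℂ} : f c z ∈ K c ↔ z ∈ K c := by
  constructor
  · rintro ⟨R, hR⟩
    refine ⟨max R ‖z‖, fun n => ?_⟩
    cases n with
    | zero => simp
    | succ n => rw [Function.iterate_succ_apply]; exact (hR n).trans (le_max_left _ _)
  · rintro ⟨R, hR⟩
    refine ⟨R, fun n => ?_⟩
    have := hR (n + 1)
    rwa [Function.iterate_succ_apply] at this

theorem iter_mem_K {z : ℂ} (n : ℕ) : (f c)^[n] z ∈ K c ↔ z ∈ K c := by
  induction n with
  | zero => simp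
  | succ n ih => rw [Function.iterate_succ_apply', f_mem_K, ih]

theorem neg_mem_K {z : ℂ} : -z ∈ K c ↔ z ∈ K c := by
  rw [← f_mem_K, f_neg, f_mem_K]

theorem norm_lt_of_mem_K {z : ℂ} (hz : z ∈ K c) : ‖z‖ < R0 c := by
  by_contra h
  exact notMem_K_of_large (not_lt.mp h) hz

theorem K_eq : K c = ⋂ n : ℕ, {z | ‖(f c)^[n] z‖ ≤ R0 c} := by
  ext z
  simp only [mem_iInter, mem_setOf_eq]
  constructor
  · intro hz n
    exact (norm_lt_of_mem_K ((iter_mem_K n).mpr hz)).le
  · intro h
    exact ⟨_, h⟩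

theorem isClosed_K : IsClosed (K c) := by
  rw [K_eq]
  exact isClosed_iInter fun n => isClosed_le (continuous_iter n).norm continuous_const

theorem isCompact_K : IsCompact (K c) := by
  apply Metric.isCompact_of_isClosed_isBounded isClosed_K
  rw [isBounded_iff_forall_norm_le]
  exact ⟨R0 c, fun z hz => (norm_lt_of_mem_K hz).le⟩

/-- Points outside `K` escape. -/
theorem exists_large_of_notMem {z : ℂ} (hz : z ∉ K c) : ∃ n, R0 c < ‖(f c)^[n] z‖ := by
  by_contra h
  push Not at h
  exact hz ⟨_, h⟩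

theorem tendsto_of_notMem {z : ℂ} (hz : z ∉ K c) :
    Tendsto (fun n => ‖(f c)^[n] z‖) atTop atTop := by
  obtain ⟨n, hn⟩ := exists_large_of_notMem hz
  have h1 := norm_iter_tendsto hn.le
  rw [← tendsto_add_atTop_iff_nat n]
  refine h1.congr fun m => ?_
  rw [← Function.iterate_add_apply]

theorem isOpenMap_f : IsOpenMap (f c) := by
  have h1 : IsOpenMap (fun z : ℂ => z ^ 2) := (isOpenQuotientMap_pow 2).isOpenMap
  have h2 : IsOpenMap (fun z : ℂ => z + c) := (Homeomorph.addRight c).isOpenMap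
  exact h2.comp h1

theorem isOpenMap_iter (n : ℕ) : IsOpenMap (f c)^[n] := by
  induction n with
  | zero => simpa using IsOpenMap.id
  | succ n ih => rw [Function.iterate_succ']; exact isOpenMap_f.comp ih

theorem isClosedMap_f : IsClosedMap (f c) := by
  have h := (Polynomial.X ^ 2 + Polynomial.C c : Polynomial ℂ).isClosedMap_eval
  convert h using 1
  ext z
  simp [f]

theorem isClosedMap_iter (n : ℕ) : IsClosedMap (f c)^[n] := by
  induction n with
  | zero => simpa using IsClosedMap.id
  | succ n ih => rw [Function.iterate_succ']; exact isClosedMap_f.comp ih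

theorem f_mem_interior {z : ℂ} : f c z ∈ interior (K c) ↔ z ∈ interior (K c) := by
  constructor
  · intro h
    rw [mem_interior]
    refine ⟨f c ⁻¹' interior (K c), fun w hw => ?_, isOpen_interior.preimage continuous_f, h⟩
    exact f_mem_K.mp (interior_subset hw)
  · intro h
    rw [mem_interior]
    refine ⟨f c '' interior (K c), ?_, isOpenMap_f _ isOpen_interior, ⟨z, h, rfl⟩⟩
    rintro _ ⟨w, hw, rfl⟩
    exact f_mem_K.mpr (interior_subset hw)

theorem J_eq : J c = K c \ interior (K c) := isClosed_K.frontier_eq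

theorem isClosed_J : IsClosed (J c) := isClosed_frontier

theorem J_subset_K : J c ⊆ K c := isClosed_K.frontier_subset

theorem isCompact_J : IsCompact (J c) := isCompact_K.of_isClosed_subset isClosed_J J_subset_K

theorem f_mem_J {z : ℂ} : f c z ∈ J c ↔ z ∈ J c := by
  rw [J_eq, Set.mem_sdiff, Set.mem_sdiff, f_mem_K, f_mem_interior]

theorem iter_mem_J {z : ℂ} (n : ℕ) : (f c)^[n] z ∈ J c ↔ z ∈ J c := by
  induction n with
  | zero => simp
  | succ n ih => rw [Function.iterate_succ_apply', f_mem_J, ih]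

/-- Near a point of `J` there are points outside `K`. -/
theorem exists_notMem_near_J {z : ℂ} (hz : z ∈ J c) {r : ℝ} (hr : 0 < r) :
    ∃ u, dist u z < r ∧ u ∉ K c := by
  rw [J_eq] at hz
  by_contra h
  push Not at h
  apply hz.2
  rw [mem_interior]
  exact ⟨ball z r, fun u hu => h u hu, isOpen_ball, mem_ball_self hr⟩

theorem norm_iter_lt_of {z : ℂ} {n : ℕ} {r : ℝ} (hr : R0 c ≤ r) (h : ‖(f c)^[n] z‖ < r) :
    ‖z‖ < r := by
  by_contra hlt
  push Not at hlt
  have h1 := norm_iter_ge (c := c) (hr.trans hlt) n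
  have h2 : (1:ℝ) ≤ 2 ^ n := one_le_pow₀ (by norm_num)
  nlinarith [norm_nonneg z]

end Pool.Agent.Cremer
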