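import Pool.Agent.Cremer.Defs

/-!
# T-COMB: the combinatorial separation theorem
-/

open Set Filter Topology

namespace Pool.Agent.Cremer

namespace Comb

/-- a sequence with `b (i+1) ≡ 2 b i mod 1` and pairwise distinct terms has diameter `≥ 1/2` -/
lemma diam_ge (b : ℕ → ℝ) (hne : ∀ i j, i ≠ j → b i ≠ b j)
    (hcong : ∀ i, ∃ k : ℤ, b (i + 1) = 2 * b i - k) (η : ℝ) (hη : 0 < η) :
    ∃ i j, 1 / 2 - η < b j - b i := by
  by_contra hcon
  push Not at hcon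
  have hd : ∀ i j, |b i - b j| ≤ 1 / 2 - η := by
    intro i j
    rw [abs_le]
    constructor
    · have := hcon i j
      linarith
    · exact hcon j i
  have half : ∀ i j, |b (i + 1) - b (j + 1)| < 2 * η →
      |b i - b j| = |b (i + 1) - b (j + 1)| / 2 := by
    intro i j hlt
    obtain ⟨k, hk⟩ := hcong i
    obtain ⟨l, hl⟩ := hcong j
    have h1 : b (i + 1) - b (j + 1) = 2 * (b i - b j) - ((k - l : ℤ) : ℝ) := by
      rw [hk, hl]; push_cast; ring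
    have h2 : |((k - l : ℤ) : ℝ)| < 1 := by
      have h3 : ((k - l : ℤ) : ℝ) = 2 * (b i - b j) - (b (i + 1) - b (j + 1)) := by
        rw [h1]; ring
      rw [h3]
      calc |2 * (b i - b j) - (b (i + 1) - b (j + 1))|
          ≤ |2 * (b i - b j)| + |b (i + 1) - b (j + 1)| := abs_sub _ _
        _ = 2 * |b i - b j| + |b (i + 1) - b (j + 1)| := by
            rw [abs_mul, abs_of_pos (by norm_num : (0:ℝ) < 2)]
        _ < 1 := by
            have := hd i j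
            linarith
    have h4 : k - l = 0 := by
      have : |k - l| < 1 := by
        have h5 : ((|k - l| : ℤ) : ℝ) < ((1 : ℤ) : ℝ) := by
          rw [Int.cast_abs]
          simpa using h2
        exact_mod_cast h5
      exact Int.abs_lt_one_iff.mp this
    rw [h1, h4, Int.cast_zero, sub_zero, abs_mul, abs_of_pos (by norm_num : (0:ℝ) < 2)]
    ring
  have desc : ∀ n i j, |b (i + n) - b (j + n)| < 2 * η →
      |b i - b j| = |b (i + n) - b (j + n)| / 2 ^ n := by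
    intro n
    induction n with
    | zero => intro i j _; simp
    | succ n ih =>
      intro i j hlt
      have h1 := half (i + n) (j + n) hlt
      have h2 : |b (i + n) - b (j + n)| < 2 * η := by
        rw [h1]
        have h3 : 0 ≤ |b (i + n + 1) - b (j + n + 1)| := abs_nonneg _
        have h4 : |b (i + n + 1) - b (j + n + 1)| < 2 * η := hlt
        linarith
      rw [ih i j h2, h1, pow_succ, div_div, mul_comm]
      rfl
  obtain ⟨M0, hM0⟩ := exists_nat_ge (1 / (4 * η))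
  set M : ℕ := 2 * M0 + 2 with hM
  have pig : ∀ n, ∃ i ∈ Finset.range M, ∃ j ∈ Finset.range M, i ≠ j ∧
      |b (i + n) - b (j + n)| < 2 * η := by
    intro n
    have hmaps : ∀ i ∈ Finset.range M,
        ⌊(b (i + n) - b 0) / (2 * η)⌋ ∈ Finset.Icc (-(M0 : ℤ)) (M0 : ℤ) := by
      intro i _
      have h1 := abs_le.mp (hd (i + n) 0)
      have h2 : 1 / (4 * η) = (1 / 2) / (2 * η) := by field_simp; norm_num
      rw [Finset.mem_Icc]
      constructor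
      · apply Int.le_floor.mpr
        push_cast
        rw [le_div_iff₀ (by positivity)]
        have h3 : (1 / 2 : ℝ) ≤ M0 * (2 * η) := by
          rw [h2, div_le_iff₀ (by positivity)] at hM0
          exact hM0
        linarith
      · have h3 : (b (i + n) - b 0) / (2 * η) ≤ M0 := by
          refine le_trans ?_ hM0
          rw [h2]
          apply div_le_div_of_nonneg_right _ (by positivity)
          linarith
        have h4 := Int.floor_le_floor h3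
        simpa using h4
    have hcard : (Finset.Icc (-(M0 : ℤ)) (M0 : ℤ)).card < (Finset.range M).card := by
      rw [Int.card_Icc, Finset.card_range]
      omega
    obtain ⟨i, hi, j, hj, hij, heq⟩ :=
      Finset.exists_ne_map_eq_of_card_lt_of_maps_to hcard hmaps
    refine ⟨i, hi, j, hj, hij, ?_⟩
    have h1 := Int.abs_sub_lt_one_of_floor_eq_floor heq
    have h2 : (b (i + n) - b 0) / (2 * η) - (b (j + n) - b 0) / (2 * η) =
        (b (i + n) - b (j + n)) / (2 * η) := by ring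
    rw [h2, abs_div, abs_of_pos (show (0:ℝ) < 2 * η by positivity),
      div_lt_one (by positivity)] at h1
    exact h1
  have hev : ∀ᶠ n : ℕ in atTop, ∀ i ∈ Finset.range M, ∀ j ∈ Finset.range M, i ≠ j →
      2 * η / 2 ^ n < |b i - b j| := by
    rw [Filter.eventually_all_finset]
    intro i _
    rw [Filter.eventually_all_finset]
    intro j _
    by_cases hij : i = j
    · exact Filter.Eventually.of_forall (fun n h => absurd hij h)
    · have hpos : 0 < |b i - b j| := abs_pos.mpr (sub_ne_zero.mpr (hne i j hij))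
      have hlim : Tendsto (fun n : ℕ => 2 * η / 2 ^ n) atTop (𝓝 0) := by
        have h1 := tendsto_pow_atTop_nhds_zero_of_lt_one (show (0:ℝ) ≤ 1 / 2 by norm_num)
          (by norm_num : (1 / 2 : ℝ) < 1)
        have h2 := h1.const_mul (2 * η)
        rw [mul_zero] at h2
        refine h2.congr (fun n => ?_)
        rw [div_pow, one_pow]
        ring
      filter_upwards [hlim.eventually (gt_mem_nhds hpos)] with n hn _
      exact hn
  obtain ⟨n, hn⟩ := hev.exists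
  obtain ⟨i, hi, j, hj, hij, hlt⟩ := pig n
  have h1 := hn i hi j hj hij
  rw [desc n i j hlt] at h1
  have h2 : 2 * η < |b (i + n) - b (j + n)| := by
    have h3 : (0 : ℝ) < 2 ^ n := by positivity
    exact (div_lt_div_iff_of_pos_right h3).mp h1
  linarith

/-- the hypotheses -/
structure Data (Θ : Set ℝ) (μ μ' : ℕ → ℝ → ℝ) : Prop where
  hp : ∀ a ∈ Θ, ∀ m : ℤ, a + m ∈ Θ
  hd : ∀ a ∈ Θ, 2 * a ∈ Θ
  hhalf : ∀ a ∈ Θ, a + 1 / 2 ∉ Θ
  hnp : ∀ a ∈ Θ, ∀ p : ℕ, 0 < p → ∀ m : ℤ, (2 : ℝ) ^ p * a ≠ a + m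
  hint : ∀ j, ∀ a ∈ Θ, ∀ b ∈ Θ, ∃ k : ℤ, μ j b - μ j a = k
  hint' : ∀ j, ∀ a ∈ Θ, ∀ b ∈ Θ, ∃ k : ℤ, μ' j b - μ' j a = k
  hmono : ∀ j, ∀ a ∈ Θ, ∀ b ∈ Θ, a ≤ b → μ j a ≤ μ j b
  hmono' : ∀ j, ∀ a ∈ Θ, ∀ b ∈ Θ, a ≤ b → μ' j a ≤ μ' j b
  hone : ∀ j, ∀ a ∈ Θ, μ j (a + 1) = μ j a + 1
  hone' : ∀ j, ∀ a ∈ Θ, μ' j (a + 1) = μ' j a + 1
  hrel : ∀ j, ∀ a ∈ Θ, μ (j + 1) (2 * a) = μ j a + μ' j a
  h0 : ∀ a ∈ Θ, μ' 0 a = μ 0 a

namespace Data

variable {Θ : Set ℝ} {μ μ' : ℕ → ℝ → ℝ} (D : Data Θ μ μ')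

include D

lemma add_one_mem {a : ℝ} (ha : a ∈ Θ) : a + 1 ∈ Θ := by
  have := D.hp a ha 1
  simpa using this

lemma shift (j : ℕ) {a : ℝ} (ha : a ∈ Θ) (m : ℤ) : μ j (a + m) = μ j a + m := by
  induction m using Int.induction_on with
  | zero => simp
  | succ n ih =>
    have h1 := D.hone j (a + ((n : ℤ) : ℝ)) (D.hp a ha n)
    push_cast at h1 ih ⊢
    rw [← add_assoc, h1, ih]
    ring
  | pred n ih =>
    have h1 := D.hone j (a + ((-(n : ℤ) - 1 : ℤ) : ℝ)) (D.hp a ha _)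
    push_cast at h1 ih ⊢
    have h2 : a + (-(n : ℝ) - 1) + 1 = a + -(n : ℝ) := by ring
    rw [h2, ih] at h1
    linarith

lemma pow_mem {a : ℝ} (ha : a ∈ Θ) (n : ℕ) : (2 : ℝ) ^ n * a ∈ Θ := by
  induction n with
  | zero => simpa using ha
  | succ n ih =>
    have := D.hd _ ih
    rw [pow_succ]
    convert this using 1
    ring

/-- (1) -/
lemma short {a b : ℝ} (ha : a ∈ Θ) (hb : b ∈ Θ) (hab : a ≤ b) (hlt : b < a + 1 / 2) :
    μ 0 b = μ 0 a := by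
  have h1 := D.hrel 0 a ha
  have h2 := D.hrel 0 b hb
  rw [D.h0 a ha] at h1
  rw [D.h0 b hb] at h2
  have h3 : μ 1 (2 * b) ≤ μ 1 (2 * a + 1) :=
    D.hmono 1 _ (D.hd b hb) _ (D.add_one_mem (D.hd a ha)) (by linarith)
  rw [D.hone 1 _ (D.hd a ha)] at h3
  obtain ⟨k, hk⟩ := D.hint 0 a ha b hb
  have h4 := D.hmono 0 a ha b hb hab
  simp only [zero_add] at h1 h2
  have h5 : 2 * (k : ℝ) ≤ 1 := by
    rw [← hk]; linarith
  have h6 : (0 : ℝ) ≤ k := by rw [← hk]; linarith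
  have h7 : 2 * k ≤ 1 := by exact_mod_cast h5
  have h8 : 0 ≤ k := by exact_mod_cast h6
  have h9 : k = 0 := by omega
  rw [h9] at hk
  push_cast at hk
  linarith

/-- (2) elements on the same level differ by less than `1/2` -/
lemma level {a b : ℝ} (ha : a ∈ Θ) (hb : b ∈ Θ) (heq : μ 0 a = μ 0 b) :
    b < a + 1 / 2 := by
  by_contra hcon
  push Not at hcon
  have h1 : b ≠ a + 1 / 2 := fun h => D.hhalf a ha (h ▸ hb)
  have h2 : a + 1 / 2 < b := lt_of_le_of_ne hcon (Ne.symm h1)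
  have h3 : b < a + 1 := by
    by_contra h4
    push Not at h4
    have h5 := D.hmono 0 _ (D.add_one_mem ha) _ hb h4
    rw [D.hone 0 a ha] at h5
    linarith
  have h4 := D.short hb (D.add_one_mem ha) h3.le (by linarith)
  rw [D.hone 0 a ha] at h4
  linarith

/-- (3) the orbit of `a₀` inside one level -/
lemma exists_orbit {a₀ : ℝ} (ha₀ : a₀ ∈ Θ) : ∃ a : ℕ → ℝ, (∀ n, a n ∈ Θ) ∧
    (∀ n, μ 0 (a n) = μ 0 a₀) ∧ (∀ n, ∃ k : ℤ, a (n + 1) = 2 * a n - k) ∧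
    (∀ i j, i ≠ j → a i ≠ a j) := by
  choose κ hκ using fun n : ℕ => D.hint 0 a₀ ha₀ _ (D.pow_mem ha₀ n)
  have key : ∀ i j : ℕ, i < j → (2 : ℝ) ^ i * a₀ - κ i ≠ (2 : ℝ) ^ j * a₀ - κ j := by
    intro i j hij heq
    have h1 := D.hnp _ (D.pow_mem ha₀ i) (j - i) (by omega) (κ j - κ i)
    apply h1
    rw [← mul_assoc, ← pow_add, Nat.sub_add_cancel hij.le]
    push_cast
    linarith
  refine ⟨fun n => (2 : ℝ) ^ n * a₀ - κ n, ?_, ?_, ?_, ?_⟩
  · intro n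
    have := D.hp _ (D.pow_mem ha₀ n) (-κ n)
    push_cast at this
    rw [← sub_eq_add_neg] at this
    exact this
  · intro n
    have h1 := D.shift 0 (D.pow_mem ha₀ n) (-κ n)
    push_cast at h1
    rw [← sub_eq_add_neg] at h1
    show μ 0 ((2 : ℝ) ^ n * a₀ - κ n) = μ 0 a₀
    rw [h1]
    linarith [hκ n]
  · intro n
    refine ⟨κ (n + 1) - 2 * κ n, ?_⟩
    push_cast
    rw [pow_succ]
    ring
  · intro i j hij
    rcases lt_or_gt_of_ne hij with h | h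
    · exact key i j h
    · exact (key j i h).symm

/-- the left endpoint `A` of the level -/
lemma exists_A {a₀ : ℝ} (ha₀ : a₀ ∈ Θ) : ∃ A : ℝ,
    (∀ x ∈ Θ, μ 0 x = μ 0 a₀ → A ≤ x ∧ x ≤ A + 1 / 2) ∧
    (∀ ε : ℝ, 0 < ε → ∃ x ∈ Θ, μ 0 x = μ 0 a₀ ∧ A < x ∧ x < A + ε) ∧
    (∀ ε : ℝ, 0 < ε → ∃ x ∈ Θ, μ 0 x = μ 0 a₀ ∧ A + 1 / 2 - ε < x ∧ x < A + 1 / 2) := by
  obtain ⟨a, ha, hlev, hcong, hne⟩ := D.exists_orbit ha₀
  have hbdd : BddBelow (range a) := by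
    refine ⟨a 0 - 1 / 2, ?_⟩
    rintro _ ⟨n, rfl⟩
    have := D.level (ha n) (ha 0) ((hlev n).trans (hlev 0).symm)
    linarith
  set A := sInf (range a) with hA
  have hAle : ∀ n, A ≤ a n := fun n => csInf_le hbdd ⟨n, rfl⟩
  have hup : ∀ x ∈ Θ, μ 0 x = μ 0 a₀ → x ≤ A + 1 / 2 := by
    intro x hx hxl
    have h1 : x - 1 / 2 ≤ A := by
      apply le_csInf (range_nonempty a)
      rintro _ ⟨n, rfl⟩
      have := D.level (ha n) hx ((hlev n).trans hxl.symm)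
      linarith
    linarith
  have htail : ∀ N : ℕ, ∀ η : ℝ, 0 < η → ∃ i j, N ≤ i ∧ N ≤ j ∧ 1 / 2 - η < a j - a i := by
    intro N η hη
    obtain ⟨i, j, hij⟩ := diam_ge (fun n => a (N + n)) (fun i j h => hne _ _ (by omega))
      (fun i => hcong (N + i)) η hη
    exact ⟨N + i, N + j, by omega, by omega, hij⟩
  have hlow : ∀ N : ℕ, ∀ ε : ℝ, 0 < ε → ∃ i, N ≤ i ∧ a i < A + ε := by
    intro N ε hε
    obtain ⟨i, j, hi, _, hij⟩ := htail N ε hε
    refine ⟨i, hi, ?_⟩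
    have := hup (a j) (ha j) (hlev j)
    linarith
  have hhigh : ∀ N : ℕ, ∀ ε : ℝ, 0 < ε → ∃ j, N ≤ j ∧ A + 1 / 2 - ε < a j := by
    intro N ε hε
    obtain ⟨i, j, _, hj, hij⟩ := htail N ε hε
    refine ⟨j, hj, ?_⟩
    have := hAle i
    linarith
  refine ⟨A, ?_, ?_, ?_⟩
  · intro x hx hxl
    refine ⟨?_, hup x hx hxl⟩
    by_contra hcon
    push Not at hcon
    obtain ⟨j, _, hj⟩ := hhigh 0 (A - x) (by linarith)
    have := D.level hx (ha j) (hxl.trans (hlev j).symm)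
    linarith
  · intro ε hε
    obtain ⟨i, _, hi⟩ := hlow 0 ε hε
    obtain ⟨i', hi', hi'2⟩ := hlow (i + 1) ε hε
    by_cases h : a i = A
    · have h2 : a i' ≠ A := by
        rw [← h]
        exact hne _ _ (by omega)
      exact ⟨a i', ha i', hlev i', lt_of_le_of_ne (hAle i') (Ne.symm h2), hi'2⟩
    · exact ⟨a i, ha i, hlev i, lt_of_le_of_ne (hAle i) (Ne.symm h), hi⟩
  · intro ε hε
    obtain ⟨i, _, hi⟩ := hhigh 0 ε hε
    obtain ⟨i', hi', hi'2⟩ := hhigh (i + 1) ε hε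
    by_cases h : a i = A + 1 / 2
    · have h2 : a i' ≠ A + 1 / 2 := by
        rw [← h]
        exact hne _ _ (by omega)
      exact ⟨a i', ha i', hlev i', hi'2, lt_of_le_of_ne (hup _ (ha i') (hlev i')) h2⟩
    · exact ⟨a i, ha i, hlev i, hi, lt_of_le_of_ne (hup _ (ha i) (hlev i)) h⟩

/-- the integer part on `Θ` -/
lemma floor_spec {a₀ : ℝ} (ha₀ : a₀ ∈ Θ) {A : ℝ}
    (hA : ∀ x ∈ Θ, μ 0 x = μ 0 a₀ → A ≤ x ∧ x ≤ A + 1 / 2) {x : ℝ} (hx : x ∈ Θ) :
    A + ⌊x - A⌋ ≤ x ∧ x ≤ A + ⌊x - A⌋ + 1 / 2 := by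
  obtain ⟨m, hm⟩ := D.hint 0 a₀ ha₀ x hx
  have h1 := D.shift 0 hx (-m)
  have h2 : x + ((-m : ℤ) : ℝ) ∈ Θ := D.hp x hx (-m)
  have h3 := hA _ h2 (by rw [h1]; push_cast; linarith)
  push_cast at h3
  have h4 : ⌊x - A⌋ = m := by
    rw [Int.floor_eq_iff]
    constructor <;> linarith [h3.1, h3.2]
  rw [h4]
  constructor <;> linarith [h3.1, h3.2]

/-- (4) two-sided limits -/
lemma limit_right {a₀ A : ℝ}
    (hR : ∀ ε : ℝ, 0 < ε → ∃ x ∈ Θ, μ 0 x = μ 0 a₀ ∧ A < x ∧ x < A + ε) (j : ℕ) (ε : ℝ)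
    (hε : 0 < ε) : ∃ x ∈ Θ, (2 : ℝ) ^ j * A < x ∧ x < (2 : ℝ) ^ j * A + ε := by
  have h2 : (0 : ℝ) < 2 ^ j := by positivity
  obtain ⟨x, hx, _, h3, h4⟩ := hR (ε / 2 ^ j) (by positivity)
  refine ⟨2 ^ j * x, D.pow_mem hx j, mul_lt_mul_of_pos_left h3 h2, ?_⟩
  have h5 := mul_lt_mul_of_pos_left h4 h2
  have h6 : (2 : ℝ) ^ j * (A + ε / 2 ^ j) = 2 ^ j * A + ε := by
    field_simp
  linarith

lemma limit_left {a₀ A : ℝ}
    (hL : ∀ ε : ℝ, 0 < ε → ∃ x ∈ Θ, μ 0 x = μ 0 a₀ ∧ A + 1 / 2 - ε < x ∧ x < A + 1 / 2)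
    (j : ℕ) (ε : ℝ) (hε : 0 < ε) :
    ∃ x ∈ Θ, (2 : ℝ) ^ (j + 1) * A - ε < x ∧ x < (2 : ℝ) ^ (j + 1) * A := by
  have h2 : (0 : ℝ) < 2 ^ (j + 1) := by positivity
  obtain ⟨x, hx, _, h3, h4⟩ := hL (ε / 2 ^ (j + 1)) (by positivity)
  have h7 := D.hp _ (D.pow_mem hx (j + 1)) (-(2 ^ j))
  push_cast at h7
  refine ⟨_, h7, ?_, ?_⟩
  · have h5 := mul_lt_mul_of_pos_left h3 h2
    have h6 : (2 : ℝ) ^ (j + 1) * (A + 1 / 2 - ε / 2 ^ (j + 1)) = 2 ^ (j + 1) * A + 2 ^ j - ε := by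
      field_simp
      ring
    linarith
  · have h5 := mul_lt_mul_of_pos_left h4 h2
    have h6 : (2 : ℝ) ^ (j + 1) * (A + 1 / 2) = 2 ^ (j + 1) * A + 2 ^ j := by
      rw [pow_succ]; ring
    linarith

/-- (5) -/
lemma flat {a₀ A : ℝ}
    (hR : ∀ ε : ℝ, 0 < ε → ∃ x ∈ Θ, μ 0 x = μ 0 a₀ ∧ A < x ∧ x < A + ε)
    (hL : ∀ ε : ℝ, 0 < ε → ∃ x ∈ Θ, μ 0 x = μ 0 a₀ ∧ A + 1 / 2 - ε < x ∧ x < A + 1 / 2)
    (j : ℕ) : ∀ x ∈ Θ, ∀ y ∈ Θ, x ≤ y → (2 : ℝ) ^ (j + 1) * A < x → y < (2 : ℝ) ^ (j + 1) * A + 1 →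
      μ (j + 1) y = μ (j + 1) x := by
  induction j with
  | zero =>
    intro x hx y hy hxy h1 h2
    simp only [zero_add, pow_one] at h1 h2 ⊢
    obtain ⟨a, ha, hal, ha1, ha2⟩ := hR (x / 2 - A) (by linarith)
    obtain ⟨b, hb, hbl, hb1, hb2⟩ := hL (A + 1 / 2 - y / 2) (by linarith)
    have h3 := D.hrel 0 a ha
    have h4 := D.hrel 0 b hb
    rw [D.h0 a ha, hal] at h3
    rw [D.h0 b hb, hbl] at h4
    simp only [zero_add] at h3 h4
    have h5 := D.hmono 1 _ (D.hd a ha) x hx (by linarith)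
    have h6 := D.hmono 1 y hy _ (D.hd b hb) (by linarith)
    have h7 := D.hmono 1 x hx y hy hxy
    linarith
  | succ j ih =>
    intro x hx y hy hxy h1 h2
    set t := (2 : ℝ) ^ (j + 1) * A with ht
    have ht2 : (2 : ℝ) ^ (j + 1 + 1) * A = 2 * t := by rw [ht, pow_succ]; ring
    rw [ht2] at h1 h2
    -- y' slightly above t, x' slightly below t
    obtain ⟨y', hy', hy1, hy2⟩ := D.limit_right hR (j + 1) (min (x / 2 - t) (1 / 2))
      (lt_min (by linarith) (by norm_num))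
    rw [← ht] at hy1 hy2
    have hy3 : y' < x / 2 := by
      have := min_le_left (x / 2 - t) (1 / 2)
      linarith
    obtain ⟨x', hx', hx1, hx2⟩ := D.limit_left hL j (min (t + 1 / 2 - y / 2) (t + 1 / 2 - y'))
      (lt_min (by linarith) (by
        have := min_le_right (x / 2 - t) (1 / 2)
        linarith))
    rw [← ht] at hx1 hx2
    have hx3 : y / 2 - 1 / 2 < x' := by
      have := min_le_left (t + 1 / 2 - y / 2) (t + 1 / 2 - y')
      linarith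
    have hx4 : y' - 1 / 2 < x' := by
      have := min_le_right (t + 1 / 2 - y / 2) (t + 1 / 2 - y')
      linarith
    -- n_{j+1}(y', x'+1) = 0
    have h3 := ih y' hy' (x' + 1) (D.add_one_mem hx') (by linarith) hy1 (by linarith)
    rw [D.hone _ x' hx'] at h3
    have h4 := D.hrel (j + 1) x' hx'
    have h5 := D.hrel (j + 1) y' hy'
    have h6 := D.hmono' (j + 1) x' hx' y' hy' (by linarith)
    have h7 : μ (j + 1 + 1) (2 * x') + 1 ≤ μ (j + 1 + 1) (2 * y') := by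
      rw [h4, h5]; linarith
    have h8 := D.hone (j + 1 + 1) _ (D.hd x' hx')
    have h9 := D.hmono (j + 1 + 1) _ (D.hd y' hy') x hx (by linarith)
    have h10 := D.hmono (j + 1 + 1) y hy _ (D.add_one_mem (D.hd x' hx')) (by linarith)
    have h11 := D.hmono (j + 1 + 1) x hx y hy hxy
    linarith

end Data

/-- the circle map `x ↦ 2x - ⌊x - A⌋` -/
noncomputable def F (A x : ℝ) : ℝ := 2 * x - ⌊x - A⌋

lemma F_add_int (A x : ℝ) (m : ℤ) : F A (x + m) = F A x + m := by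
  unfold F
  have : x + m - A = x - A + m := by ring
  rw [this, Int.floor_add_intCast]
  push_cast
  ring

lemma F_iter_add_int (A : ℝ) (n : ℕ) (x : ℝ) (m : ℤ) :
    (F A)^[n] (x + m) = (F A)^[n] x + m := by
  induction n generalizing x with
  | zero => simp
  | succ n ih => rw [Function.iterate_succ_apply, F_add_int, ih, Function.iterate_succ_apply]

lemma F_iter_cong (A : ℝ) (n : ℕ) (x : ℝ) : ∃ k : ℤ, (F A)^[n] x = (2 : ℝ) ^ n * x - k := by
  induction n generalizing x with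
  | zero => exact ⟨0, by simp⟩
  | succ n ih =>
    obtain ⟨k, hk⟩ := ih (F A x)
    refine ⟨k + 2 ^ n * ⌊x - A⌋, ?_⟩
    rw [Function.iterate_succ_apply, hk]
    unfold F
    push_cast
    rw [pow_succ]
    ring

lemma F_right (A v : ℝ) : ∃ δ : ℝ, 0 < δ ∧ ∀ x, v ≤ x → x < v + δ → F A x = F A v + 2 * (x - v) := by
  refine ⟨⌊v - A⌋ + 1 - (v - A), ?_, ?_⟩
  · have := Int.lt_floor_add_one (v - A)
    linarith
  · intro x h1 h2
    have h3 : ⌊x - A⌋ = ⌊v - A⌋ := by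
      rw [Int.floor_eq_iff]
      have := Int.floor_le (v - A)
      constructor <;> linarith
    unfold F
    rw [h3]
    ring

lemma F_iter_right (A : ℝ) (n : ℕ) : ∀ v : ℝ, ∃ δ : ℝ, 0 < δ ∧ ∀ x, v ≤ x → x < v + δ →
    (F A)^[n] x = (F A)^[n] v + 2 ^ n * (x - v) := by
  induction n with
  | zero => intro v; exact ⟨1, one_pos, fun x _ _ => by simp⟩
  | succ n ih =>
    intro v
    obtain ⟨δ₁, hδ₁, h1⟩ := F_right A v
    obtain ⟨δ₂, hδ₂, h2⟩ := ih (F A v)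
    refine ⟨min δ₁ (δ₂ / 2), lt_min hδ₁ (by linarith), ?_⟩
    intro x hx1 hx2
    have h3 : x < v + δ₁ := lt_of_lt_of_le hx2 (by linarith [min_le_left δ₁ (δ₂ / 2)])
    have h4 : x < v + δ₂ / 2 := lt_of_lt_of_le hx2 (by linarith [min_le_right δ₁ (δ₂ / 2)])
    have h5 := h1 x hx1 h3
    rw [Function.iterate_succ_apply, Function.iterate_succ_apply]
    rw [h2 (F A x) (by linarith) (by linarith), h5, pow_succ]
    ring

/-- bounded monotone sequences in `Θ` cannot satisfy `x (n+1) ≡ 2^p x n` -/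
lemma no_bounded_mono (p : ℕ) (hp : 0 < p) (x : ℕ → ℝ)
    (hcong : ∀ n, ∃ k : ℤ, x (n + 1) = (2 : ℝ) ^ p * x n - k)
    (hnp : ∀ n, ∀ m : ℤ, (2 : ℝ) ^ p * x n ≠ x n + m)
    (l : ℝ) (hl : Tendsto x atTop (𝓝 l)) : False := by
  choose N hN using hcong
  have h1 : Tendsto (fun n => x (n + 1)) atTop (𝓝 l) := hl.comp (tendsto_add_atTop_nat 1)
  have h2 : Tendsto (fun n => x (n + 1 + 1)) atTop (𝓝 l) := h1.comp (tendsto_add_atTop_nat 1)
  have hd : Tendsto (fun n => x (n + 1) - x n) atTop (𝓝 0) := by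
    have := h1.sub hl
    simpa using this
  have hd2 : Tendsto (fun n => x (n + 1 + 1) - x (n + 1)) atTop (𝓝 0) := by
    have := h2.sub h1
    simpa using this
  have hN2 : Tendsto (fun n => ((N (n + 1) - N n : ℤ) : ℝ)) atTop (𝓝 0) := by
    have h3 := (hd.const_mul ((2 : ℝ) ^ p)).sub hd2
    rw [mul_zero, sub_zero] at h3
    refine h3.congr (fun n => ?_)
    rw [hN (n + 1), hN n]
    push_cast
    ring
  have hev : ∀ᶠ n in atTop, N (n + 1) - N n = 0 := by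
    have h4 : ∀ᶠ n in atTop, |((N (n + 1) - N n : ℤ) : ℝ)| < 1 := by
      have := (hN2.abs).eventually (gt_mem_nhds (show |(0:ℝ)| < 1 by simp))
      exact this
    filter_upwards [h4] with n hn
    have h5 : ((|N (n + 1) - N n| : ℤ) : ℝ) < ((1 : ℤ) : ℝ) := by
      rw [Int.cast_abs]
      simpa using hn
    exact Int.abs_lt_one_iff.mp (by exact_mod_cast h5)
  obtain ⟨n₀, hn₀⟩ := hev.exists_forall_of_atTop
  have hstep : ∀ n, n₀ ≤ n → x (n + 1 + 1) - x (n + 1) = 2 ^ p * (x (n + 1) - x n) := by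
    intro n hn
    have h5 := hn₀ n hn
    have h6 : ((N (n + 1) : ℤ) : ℝ) = N n := by
      have : N (n + 1) = N n := by omega
      exact_mod_cast this
    rw [hN (n + 1), hN n, h6]
    ring
  have hgrow : ∀ i, |x (n₀ + 1) - x n₀| ≤ |x (n₀ + i + 1) - x (n₀ + i)| := by
    intro i
    induction i with
    | zero => simp
    | succ i ih =>
      have h6 := hstep (n₀ + i) (by omega)
      have h7 : |x (n₀ + (i + 1) + 1) - x (n₀ + (i + 1))| = 2 ^ p * |x (n₀ + i + 1) - x (n₀ + i)| := by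
        show |x (n₀ + i + 1 + 1) - x (n₀ + i + 1)| = _
        rw [h6, abs_mul, abs_of_pos (by positivity)]
      rw [h7]
      have h8 : (1 : ℝ) ≤ 2 ^ p := one_le_pow₀ (by norm_num)
      have h9 : 0 ≤ |x (n₀ + i + 1) - x (n₀ + i)| := abs_nonneg _
      nlinarith
  have hzero : |x (n₀ + 1) - x n₀| ≤ 0 := by
    have h6 : Tendsto (fun i => |x (n₀ + i + 1) - x (n₀ + i)|) atTop (𝓝 0) := by
      have h7 := hd.abs
      rw [abs_zero] at h7
      have h8 : Tendsto (fun i : ℕ => n₀ + i) atTop atTop :=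
        Filter.tendsto_atTop_mono (fun i => Nat.le_add_left i n₀) tendsto_id
      exact h7.comp h8
    exact ge_of_tendsto' h6 hgrow
  have h10 : x (n₀ + 1) = x n₀ := by
    have := abs_nonpos_iff.mp hzero
    linarith
  rw [hN n₀] at h10
  exact hnp n₀ (N n₀) (by linarith)

namespace Data

variable {Θ : Set ℝ} {μ μ' : ℕ → ℝ → ℝ} (D : Data Θ μ μ')

include D

lemma F_mem (A : ℝ) {x : ℝ} (hx : x ∈ Θ) : F A x ∈ Θ := by
  have := D.hp _ (D.hd x hx) (-⌊x - A⌋)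
  unfold F
  push_cast at this
  rw [← sub_eq_add_neg] at this
  exact this

lemma F_iter_mem (A : ℝ) (n : ℕ) {x : ℝ} (hx : x ∈ Θ) : (F A)^[n] x ∈ Θ := by
  induction n generalizing x with
  | zero => exact hx
  | succ n ih => rw [Function.iterate_succ_apply]; exact ih (D.F_mem A hx)

lemma F_mono {a₀ : ℝ} (ha₀ : a₀ ∈ Θ) {A : ℝ}
    (hA : ∀ x ∈ Θ, μ 0 x = μ 0 a₀ → A ≤ x ∧ x ≤ A + 1 / 2) {x y : ℝ} (hx : x ∈ Θ) (hy : y ∈ Θ)
    (hxy : x ≤ y) : F A x ≤ F A y := by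
  have h1 := D.floor_spec ha₀ hA hx
  have h2 := D.floor_spec ha₀ hA hy
  unfold F
  have h3 : ⌊x - A⌋ ≤ ⌊y - A⌋ := Int.floor_le_floor (by linarith)
  rcases eq_or_lt_of_le h3 with h | h
  · rw [h]; linarith
  · have h4 : ((⌊x - A⌋ : ℤ) : ℝ) + 1 ≤ ⌊y - A⌋ := by exact_mod_cast h
    linarith

lemma F_iter_mono {a₀ : ℝ} (ha₀ : a₀ ∈ Θ) {A : ℝ}
    (hA : ∀ x ∈ Θ, μ 0 x = μ 0 a₀ → A ≤ x ∧ x ≤ A + 1 / 2) (n : ℕ) {x y : ℝ} (hx : x ∈ Θ)
    (hy : y ∈ Θ) (hxy : x ≤ y) : (F A)^[n] x ≤ (F A)^[n] y := by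
  induction n generalizing x y with
  | zero => exact hxy
  | succ n ih =>
    rw [Function.iterate_succ_apply, Function.iterate_succ_apply]
    exact ih (D.F_mem A hx) (D.F_mem A hy) (D.F_mono ha₀ hA hx hy hxy)

/-- (6) -/
lemma not_cong {a₀ A : ℝ} (ha₀ : a₀ ∈ Θ)
    (hA : ∀ x ∈ Θ, μ 0 x = μ 0 a₀ → A ≤ x ∧ x ≤ A + 1 / 2)
    (hR : ∀ ε : ℝ, 0 < ε → ∃ x ∈ Θ, μ 0 x = μ 0 a₀ ∧ A < x ∧ x < A + ε)
    (i j : ℕ) (hij : i < j) (m : ℤ) : (2 : ℝ) ^ j * A ≠ 2 ^ i * A + m := by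
  intro heq
  obtain ⟨Ki, hKi⟩ := F_iter_cong A i A
  obtain ⟨Kj, hKj⟩ := F_iter_cong A j A
  set p := j - i with hpdef
  have hp : 0 < p := by omega
  set y := (F A)^[i] A with hy
  have hpy : (F A)^[p] y = y + ((Ki + m - Kj : ℤ) : ℝ) := by
    have h1 : (F A)^[p] y = (F A)^[j] A := by
      rw [hy, ← Function.iterate_add_apply]
      congr 1
      omega
    rw [h1, hKj, heq]
    push_cast
    linarith
  set M : ℤ := Ki + m - Kj with hM
  -- Θ accumulates at y from the right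
  have hacc : ∀ ε : ℝ, 0 < ε → ∃ u ∈ Θ, y < u ∧ u < y + ε ∧ y < (F A)^[p] u - M ∧
      (F A)^[p] u - M < y + ε := by
    intro ε hε
    obtain ⟨δ₁, hδ₁, h1⟩ := F_iter_right A i A
    obtain ⟨δ₂, hδ₂, h2⟩ := F_iter_right A p y
    have h2i : (0 : ℝ) < 2 ^ i := by positivity
    have h2p : (0 : ℝ) < 2 ^ p := by positivity
    have h1p : (1 : ℝ) ≤ 2 ^ p := one_le_pow₀ (by norm_num)
    obtain ⟨x, hx, _, hx1, hx2⟩ := hR (min δ₁ (min (δ₂ / 2 ^ i) (ε / 2 ^ i / 2 ^ p)))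
      (lt_min hδ₁ (lt_min (by positivity) (by positivity)))
    have hx3 : x < A + δ₁ := lt_of_lt_of_le hx2 (by
      have := min_le_left δ₁ (min (δ₂ / 2 ^ i) (ε / 2 ^ i / 2 ^ p)); linarith)
    have hx4 : x < A + δ₂ / 2 ^ i := lt_of_lt_of_le hx2 (by
      have h3 := min_le_right δ₁ (min (δ₂ / 2 ^ i) (ε / 2 ^ i / 2 ^ p))
      have h4 := min_le_left (δ₂ / 2 ^ i) (ε / 2 ^ i / 2 ^ p)
      linarith)
    have hx5 : x < A + ε / 2 ^ i / 2 ^ p := lt_of_lt_of_le hx2 (by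
      have h3 := min_le_right δ₁ (min (δ₂ / 2 ^ i) (ε / 2 ^ i / 2 ^ p))
      have h4 := min_le_right (δ₂ / 2 ^ i) (ε / 2 ^ i / 2 ^ p)
      linarith)
    have h5 := h1 x hx1.le hx3
    rw [← hy] at h5
    have h6 : 0 < 2 ^ i * (x - A) := mul_pos h2i (by linarith)
    have h7 : 2 ^ i * (x - A) < δ₂ := by
      have h8 : x - A < δ₂ / 2 ^ i := by linarith
      rw [lt_div_iff₀ h2i] at h8
      linarith
    have h9 : 2 ^ p * (2 ^ i * (x - A)) < ε := by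
      have h8 : x - A < ε / 2 ^ i / 2 ^ p := by linarith
      rw [lt_div_iff₀ h2p, lt_div_iff₀ h2i] at h8
      linarith
    have h10 := h2 _ (show y ≤ (F A)^[i] x by rw [h5]; linarith) (by rw [h5]; linarith)
    have h12 : (F A)^[p] ((F A)^[i] x) - M = y + 2 ^ p * (2 ^ i * (x - A)) := by
      rw [h10, hpy, h5]; ring
    refine ⟨(F A)^[i] x, D.F_iter_mem A i hx, by rw [h5]; linarith, ?_, ?_, ?_⟩
    · rw [h5]
      have : 2 ^ i * (x - A) ≤ 2 ^ p * (2 ^ i * (x - A)) := by nlinarith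
      linarith
    · rw [h12]
      have : 0 < 2 ^ p * (2 ^ i * (x - A)) := by positivity
      linarith
    · rw [h12]; linarith
  have hα : ∀ x ∈ Θ, x ≤ y → (F A)^[p] x - M ≤ y := by
    intro x hx hxy
    by_contra hcon
    push Not at hcon
    obtain ⟨u, hu, hu1, _, _, hu4⟩ := hacc ((F A)^[p] x - M - y) (by linarith)
    have := D.F_iter_mono ha₀ hA p hx hu (by linarith)
    linarith
  have hβ : ∀ x ∈ Θ, y < x → y < (F A)^[p] x - M := by
    intro x hx hxy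
    obtain ⟨u, hu, _, hu2, hu3, _⟩ := hacc (x - y) (by linarith)
    have := D.F_iter_mono ha₀ hA p hu hx (by linarith)
    linarith
  -- normalise the starting point
  set k : ℤ := ⌈a₀ - y⌉ - 1 with hk
  set x₀ : ℝ := a₀ + ((-k : ℤ) : ℝ) with hx₀
  have hx₀mem : x₀ ∈ Θ := D.hp a₀ ha₀ (-k)
  have hx₀1 : y < x₀ := by
    have := Int.ceil_lt_add_one (a₀ - y)
    rw [hx₀, hk]
    push_cast
    linarith
  have hx₀2 : x₀ ≤ y + 1 := by
    have := Int.le_ceil (a₀ - y)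
    rw [hx₀, hk]
    push_cast
    linarith
  let G : ℝ → ℝ := fun x => (F A)^[p] x - M
  have hGmem : ∀ x ∈ Θ, G x ∈ Θ := by
    intro x hx
    have := D.hp _ (D.F_iter_mem A p hx) (-M)
    push_cast at this
    rw [← sub_eq_add_neg] at this
    exact this
  have hGmono : ∀ x ∈ Θ, ∀ z ∈ Θ, x ≤ z → G x ≤ G z := by
    intro x hx z hz hxz
    have := D.F_iter_mono ha₀ hA p hx hz hxz
    show (F A)^[p] x - M ≤ (F A)^[p] z - M
    linarith
  have hGinv : ∀ x ∈ Θ, y < x → x ≤ y + 1 → y < G x ∧ G x ≤ y + 1 := by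
    intro x hx h1 h2
    refine ⟨hβ x hx h1, ?_⟩
    have h3 := hα _ (D.hp x hx (-1)) (by push_cast; linarith)
    rw [F_iter_add_int] at h3
    push_cast at h3
    show (F A)^[p] x - M ≤ y + 1
    linarith
  have hxmem : ∀ n, G^[n] x₀ ∈ Θ := by
    intro n
    induction n with
    | zero => exact hx₀mem
    | succ n ih => rw [Function.iterate_succ_apply']; exact hGmem _ ih
  have hxbd : ∀ n, y < G^[n] x₀ ∧ G^[n] x₀ ≤ y + 1 := by
    intro n
    induction n with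
    | zero => exact ⟨hx₀1, hx₀2⟩
    | succ n ih => rw [Function.iterate_succ_apply']; exact hGinv _ (hxmem n) ih.1 ih.2
  have hcong : ∀ n, ∃ k : ℤ, G^[n + 1] x₀ = (2 : ℝ) ^ p * G^[n] x₀ - k := by
    intro n
    obtain ⟨k, hk⟩ := F_iter_cong A p (G^[n] x₀)
    refine ⟨k + M, ?_⟩
    rw [Function.iterate_succ_apply']
    show (F A)^[p] (G^[n] x₀) - M = _
    rw [hk]
    push_cast
    ring
  have hconv : ∃ l, Tendsto (fun n => G^[n] x₀) atTop (𝓝 l) := by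
    rcases le_total x₀ (G x₀) with h | h
    · have hm : Monotone (fun n => G^[n] x₀) := by
        apply monotone_nat_of_le_succ
        intro n
        induction n with
        | zero => exact h
        | succ n ih =>
          show G^[n + 1] x₀ ≤ G^[n + 1 + 1] x₀
          rw [Function.iterate_succ_apply', Function.iterate_succ_apply' G (n + 1)]
          exact hGmono _ (hxmem n) _ (hxmem (n + 1)) ih
      exact ⟨_, tendsto_atTop_ciSup hm ⟨y + 1, by rintro _ ⟨n, rfl⟩; exact (hxbd n).2⟩⟩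
    · have hm : Antitone (fun n => G^[n] x₀) := by
        apply antitone_nat_of_succ_le
        intro n
        induction n with
        | zero => exact h
        | succ n ih =>
          calc G^[n + 1 + 1] x₀ = G (G^[n + 1] x₀) := Function.iterate_succ_apply' G (n + 1) x₀
            _ ≤ G (G^[n] x₀) := hGmono _ (hxmem (n + 1)) _ (hxmem n) ih
            _ = G^[n + 1] x₀ := (Function.iterate_succ_apply' G n x₀).symm
      exact ⟨_, tendsto_atTop_ciInf hm ⟨y, by rintro _ ⟨n, rfl⟩; exact (hxbd n).1.le⟩⟩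
  obtain ⟨l, hl⟩ := hconv
  exact no_bounded_mono p hp (fun n => G^[n] x₀) hcong
    (fun n m => D.hnp _ (hxmem n) p hp m) l hl

end Data

end Comb

open Comb in
theorem separation (Θ : Set ℝ) (hne : Θ.Nonempty)
    (hp : ∀ a ∈ Θ, ∀ m : ℤ, a + m ∈ Θ) (hd : ∀ a ∈ Θ, 2 * a ∈ Θ)
    (hhalf : ∀ a ∈ Θ, a + 1 / 2 ∉ Θ)
    (hnp : ∀ a ∈ Θ, ∀ p : ℕ, 0 < p → ∀ m : ℤ, (2 : ℝ) ^ p * a ≠ a + m)
    (μ μ' : ℕ → ℝ → ℝ)
    (hint : ∀ j, ∀ a ∈ Θ, ∀ b ∈ Θ, ∃ k : ℤ, μ j b - μ j a = k)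
    (hint' : ∀ j, ∀ a ∈ Θ, ∀ b ∈ Θ, ∃ k : ℤ, μ' j b - μ' j a = k)
    (hmono : ∀ j, ∀ a ∈ Θ, ∀ b ∈ Θ, a ≤ b → μ j a ≤ μ j b)
    (hmono' : ∀ j, ∀ a ∈ Θ, ∀ b ∈ Θ, a ≤ b → μ' j a ≤ μ' j b)
    (hone : ∀ j, ∀ a ∈ Θ, μ j (a + 1) = μ j a + 1)
    (hone' : ∀ j, ∀ a ∈ Θ, μ' j (a + 1) = μ' j a + 1)
    (hrel : ∀ j, ∀ a ∈ Θ, μ (j + 1) (2 * a) = μ j a + μ' j a)
    (h0 : ∀ a ∈ Θ, μ' 0 a = μ 0 a) :
    ∀ i j, i < j → ∃ a ∈ Θ, ∃ b ∈ Θ, μ i b - μ i a ≠ μ j b - μ j a := by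
  have D : Data Θ μ μ' := ⟨hp, hd, hhalf, hnp, hint, hint', hmono, hmono', hone, hone', hrel, h0⟩
  obtain ⟨a₀, ha₀⟩ := hne
  obtain ⟨A, hA, hR, hL⟩ := D.exists_A ha₀
  -- `n_j(a,b) = 1` when `a < t_j < b < a + 1`
  have jump : ∀ j : ℕ, ∀ a ∈ Θ, ∀ b ∈ Θ, a < (2 : ℝ) ^ (j + 1) * A → (2 : ℝ) ^ (j + 1) * A < b →
      b < a + 1 → μ (j + 1) b - μ (j + 1) a = 1 := by
    intro j a ha b hb h1 h2 h3
    have h4 := D.flat hR hL j b hb (a + 1) (D.add_one_mem ha) h3.le h2 (by linarith)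
    rw [D.hone _ a ha] at h4
    linarith
  intro i j hij
  obtain ⟨j, rfl⟩ : ∃ j', j = j' + 1 := ⟨j - 1, by omega⟩
  rcases Nat.eq_zero_or_pos i with rfl | hi
  · -- i = 0
    obtain ⟨b, hb, hb1, hb2⟩ := D.limit_right hR (j + 1) (1 / 4) (by norm_num)
    obtain ⟨a, ha, ha1, ha2⟩ := D.limit_left hL j (1 / 4) (by norm_num)
    refine ⟨a, ha, b, hb, ?_⟩
    rw [jump j a ha b hb ha2 hb1 (by linarith), D.short ha hb (by linarith) (by linarith)]
    norm_num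
  · obtain ⟨i, rfl⟩ : ∃ i', i = i' + 1 := ⟨i - 1, by omega⟩
    set ti := (2 : ℝ) ^ (i + 1) * A with hti
    set tj := (2 : ℝ) ^ (j + 1) * A with htj
    set k : ℤ := ⌊ti - tj⌋ with hk
    have hk1 : tj + k < ti := by
      have h1 := Int.floor_le (ti - tj)
      rw [← hk] at h1
      rcases eq_or_lt_of_le h1 with h2 | h2
      · exfalso
        apply D.not_cong ha₀ hA hR (i + 1) (j + 1) hij (-k)
        push_cast
        linarith
      · linarith
    have hk2 : ti < tj + k + 1 := by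
      have h1 := Int.lt_floor_add_one (ti - tj)
      rw [← hk] at h1
      linarith
    obtain ⟨b, hb, hb1, hb2⟩ := D.limit_right hR (i + 1) (min (1 / 4) (tj + k + 1 - ti))
      (lt_min (by norm_num) (by linarith))
    obtain ⟨a, ha, ha1, ha2⟩ := D.limit_left hL i (min (1 / 4) (ti - (tj + k)))
      (lt_min (by norm_num) (by linarith))
    rw [← hti] at hb1 hb2 ha1 ha2
    have m1 := min_le_left (1 / 4) (tj + k + 1 - ti)
    have m2 := min_le_right (1 / 4) (tj + k + 1 - ti)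
    have m3 := min_le_left (1 / 4) (ti - (tj + k))
    have m4 := min_le_right (1 / 4) (ti - (tj + k))
    refine ⟨a, ha, b, hb, ?_⟩
    rw [jump i a ha b hb ha2 hb1 (by linarith)]
    have h5 := D.flat hR hL j _ (D.hp a ha (-k)) _ (D.hp b hb (-k)) (by linarith)
      (by push_cast; linarith) (by push_cast; linarith)
    rw [D.shift _ hb, D.shift _ ha] at h5
    intro h6
    linarith

end Pool.Agent.Cremer
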