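import Mathlib

/-!
# Cremer fixed points of quadratic polynomials: shared definitions (MP_44ec17_an)
-/

open Set Filter Topology Complex

namespace Pool.Agent.Cremer

/-- The quadratic map `z ↦ z² + c`. -/
def f (c z : ℂ) : ℂ := z ^ 2 + c

/-- The filled Julia set: points with bounded forward orbit. -/
def K (c : ℂ) : Set ℂ := {z | ∃ R : ℝ, ∀ n : ℕ, ‖(f c)^[n] z‖ ≤ R}

/-- The Julia set. -/
def J (c : ℂ) : Set ℂ := frontier (K c)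

/-- `x` is accessible from the complement of `K c`: an injective path in `ℂ` lying in the
complement of `K c` except for its endpoint `x`. -/
def Accessible (c x : ℂ) : Prop :=
  ∃ e : ℝ → ℂ, ContinuousOn e (Icc 0 1) ∧ (∀ t ∈ Ico (0 : ℝ) 1, e t ∉ K c) ∧ e 1 = x

/-- Exterior (Boettcher) parametrisation in logarithmic coordinates: `Ψ (log w) = ψ (w)`. -/
structure IsPsi (c : ℂ) (Ψ : ℂ → ℂ) : Prop where
  diff : DifferentiableOn ℂ Ψ {ζ | 0 < ζ.re}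
  notMem : ∀ ζ : ℂ, 0 < ζ.re → Ψ ζ ∉ K c
  per : ∀ ζ : ℂ, 0 < ζ.re → Ψ (ζ + 2 * Real.pi * I) = Ψ ζ
  dbl : ∀ ζ : ℂ, 0 < ζ.re → Ψ (2 * ζ) = Ψ ζ ^ 2 + c
  inj : ∀ ζ ξ : ℂ, 0 < ζ.re → 0 < ξ.re → Ψ ζ = Ψ ξ → ∃ k : ℤ, ξ = ζ + k * (2 * Real.pi * I)
  surj : ∀ u : ℂ, u ∉ K c → ∃ ζ : ℂ, 0 < ζ.re ∧ Ψ ζ = u
  asymp : ∃ C : ℝ, ∀ ζ : ℂ, 0 < ζ.re → ‖Ψ ζ - exp ζ‖ ≤ C

/-- The ray of angle `θ` (in turns) lands at `z`. -/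
def Lands (Ψ : ℂ → ℂ) (θ : ℝ) (z : ℂ) : Prop :=
  Tendsto (fun s : ℝ => Ψ (s + 2 * Real.pi * θ * I)) (𝓝[>] 0) (𝓝 z)

end Pool.Agent.Cremer
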