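import Pool.Agent.Cremer.Separate

/-!
# Uncountably many components
-/

open Set Filter Topology Complex Metric

namespace Pool.Agent.Cremer

variable {c z₁ : ℂ}

theorem accessible_mem_J (hfix : f c z₁ = z₁) (hacc : Accessible c z₁) : z₁ ∈ J c := by
  obtain ⟨e, he, hK, h1⟩ := hacc
  rw [J_eq]
  refine ⟨fixed_mem_K hfix, fun hint => ?_⟩
  have hcont : ContinuousWithinAt e (Icc 0 1) 1 := he 1 (by simp)
  have hev : ∀ᶠ t in 𝓝[Icc 0 1] (1:ℝ), e t ∈ interior (K c) := by
    apply hcont.eventually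
    rw [h1]
    exact isOpen_interior.mem_nhds hint
  have hle : 𝓝[Ico (0:ℝ) 1] 1 ≤ 𝓝[Icc 0 1] 1 := nhdsWithin_mono _ Ico_subset_Icc_self
  have hne : (𝓝[Ico (0:ℝ) 1] 1).NeBot := by
    rw [← mem_closure_iff_nhdsWithin_neBot, closure_Ico (by norm_num)]
    simp
  obtain ⟨t, ht1, ht2⟩ := ((hev.filter_mono hle).and self_mem_nhdsWithin).exists
  exact hK t ht2 (interior_subset ht1)

/-- The components of the Julia set minus the point `z₁`. -/
def comps (c z₁ : ℂ) : Set (Set ℂ) :=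
  {C | ∃ x ∈ J c \ {z₁}, C = connectedComponentIn (J c \ {z₁}) x}

theorem oneCrit_of_separate (hJ : z₁ ∈ J c)
    (hsep : ∀ {S : Set ℂ}, IsPreconnected S → S ⊆ K c \ {z₁} → ∀ {i j : ℕ},
      (f c)^[i] 0 ∈ S → (f c)^[j] 0 ∈ S → i = j) (h0 : (0:ℂ) ∈ K c) :
    ∀ (v : ℂ) (r : ℝ), Disjoint (ball v r) (J c) → ∀ i j : ℕ,
    (f c)^[i] 0 ∈ ball v r → (f c)^[j] 0 ∈ ball v r → i = j := by
  intro v r hdisj i j hi hj
  have hpre : IsPreconnected (ball v r) := (convex_ball v r).isPreconnected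
  have hsub : ball v r ⊆ K c := by
    have hne : (ball v r ∩ interior (K c)).Nonempty := by
      refine ⟨_, hi, ?_⟩
      by_contra hcon
      apply (Set.disjoint_left.mp hdisj) hi
      rw [J_eq]
      exact ⟨(iter_mem_K i).mpr h0, hcon⟩
    have h1 : ball v r ⊆ interior (K c) := by
      apply hpre.subset_of_closure_inter_subset isOpen_interior hne
      rintro w ⟨hw, hwb⟩
      by_contra hcon
      apply (Set.disjoint_left.mp hdisj) hwb
      rw [J_eq]
      exact ⟨(closure_minimal interior_subset isClosed_K) hw, hcon⟩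
    exact h1.trans interior_subset
  refine hsep hpre (fun w hw => ⟨hsub hw, ?_⟩) hi hj
  rintro rfl
  exact (Set.disjoint_left.mp hdisj) hw hJ

theorem uncountable_of_landing {α : ℝ} (hα : Irrational α) (hfix : f c z₁ = z₁)
    (hmul : 2 * z₁ = exp (2 * Real.pi * α * I)) (hJ : z₁ ∈ J c)
    (hland : ∀ Ψ, IsPsi c Ψ → ∃ θ, Lands Ψ θ z₁) : ¬ (comps c z₁).Countable := by
  intro hcount
  have hn := norm_mul_eq hmul
  have hz0 := z₁_ne_zero hmul
  have h0 : (0:ℂ) ∈ K c := zero_mem_K hfix hn hJ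
  have hsep : ∀ {S : Set ℂ}, IsPreconnected S → S ⊆ K c \ {z₁} → ∀ {i j : ℕ},
      (f c)^[i] 0 ∈ S → (f c)^[j] 0 ∈ S → i = j :=
    fun hS hSK _ _ hi hj => separate hα hfix hmul hJ hland hS hSK hi hj
  have hone' := oneCrit_of_separate hJ hsep h0
  have hone : OneCrit c := fun v r hd i j _ _ hi hj => hone' v r hd i j hi hj
  have hrec := recurrent hone hfix hn hJ
  -- the critical point is in the Julia set
  have h0J : (0:ℂ) ∈ J c := by
    by_contra hcon
    obtain ⟨r, hr, hball⟩ := Metric.isOpen_iff.mp isClosed_J.isOpen_compl 0 hcon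
    obtain ⟨j, hj, hjr⟩ := hrec r hr
    have h1 := hone' 0 r (Set.disjoint_left.mpr fun w hw hwJ => hball hw hwJ) 0 j
      (by simpa using hr) (by rw [mem_ball_zero_iff]; exact hjr)
    omega
  set orb : Set ℂ := range (fun j : ℕ => (f c)^[j] 0) with horb
  set P : Set ℂ := closure orb with hP
  have horbJ : orb ⊆ J c := by
    rintro _ ⟨j, rfl⟩
    exact (iter_mem_J j).mpr h0J
  have hPJ : P ⊆ J c := closure_minimal horbJ isClosed_J
  set X : Set ℂ := P ∩ {z₁}ᶜ with hX
  have hXJ : X ⊆ J c \ {z₁} := fun w hw => ⟨hPJ hw.1, hw.2⟩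
  have hlc : IsLocallyClosed X :=
    isClosed_closure.isLocallyClosed.inter isOpen_compl_singleton.isLocallyClosed
  haveI : LocallyCompactSpace X := hlc.locallyCompactSpace
  haveI : BaireSpace X := inferInstance
  haveI : Nonempty X := ⟨⟨0, subset_closure ⟨0, by simp⟩, fun h => hz0 (by
    have : (0:ℂ) = z₁ := h
    exact this.symm)⟩⟩
  haveI : Countable (comps c z₁) := hcount.to_subtype
  -- closed pieces
  have hclosed : ∀ C : comps c z₁, IsClosed ((Subtype.val : X → ℂ) ⁻¹' (C : Set ℂ)) := by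
    rintro ⟨C, x, hx, rfl⟩
    have h1 : (Subtype.val : X → ℂ) ⁻¹' (connectedComponentIn (J c \ {z₁}) x) =
        (Subtype.val : X → ℂ) ⁻¹' closure (connectedComponentIn (J c \ {z₁}) x) := by
      apply subset_antisymm (preimage_mono subset_closure)
      rintro ⟨w, hw⟩ hwc
      simp only [mem_preimage] at hwc ⊢
      have hpre : IsPreconnected (insert w (connectedComponentIn (J c \ {z₁}) x)) :=
        isPreconnected_connectedComponentIn.subset_closure (subset_insert _ _)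
          (insert_subset hwc subset_closure)
      have hsub := hpre.subset_connectedComponentIn
        (mem_insert_of_mem _ (mem_connectedComponentIn hx))
        (insert_subset (hXJ hw) (connectedComponentIn_subset _ _))
      exact hsub (mem_insert _ _)
    show IsClosed ((Subtype.val : X → ℂ) ⁻¹' (connectedComponentIn (J c \ {z₁}) x))
    rw [h1]
    exact isClosed_closure.preimage continuous_subtype_val
  have hcover : (⋃ C : comps c z₁, (Subtype.val : X → ℂ) ⁻¹' (C : Set ℂ)) = univ := by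
    rw [eq_univ_iff_forall]
    rintro ⟨w, hw⟩
    rw [mem_iUnion]
    exact ⟨⟨connectedComponentIn (J c \ {z₁}) w, w, hXJ hw, rfl⟩,
      mem_connectedComponentIn (hXJ hw)⟩
  obtain ⟨⟨C, x, hx, hCx⟩, hint⟩ := nonempty_interior_of_iUnion_of_closed hclosed hcover
  obtain ⟨⟨w, hw⟩, hwint⟩ := hint
  rw [mem_interior] at hwint
  obtain ⟨O', hO'sub, hO'open, hwO'⟩ := hwint
  obtain ⟨O, hO, rfl⟩ := isOpen_induced_iff.mp hO'open
  have hOX : ∀ u ∈ X, u ∈ O → u ∈ C := by
    intro u huX huO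
    exact hO'sub (show (⟨u, huX⟩ : X) ∈ Subtype.val ⁻¹' O from huO)
  -- an orbit point in the open set
  have hO2 : IsOpen (O ∩ {z₁}ᶜ) := hO.inter isOpen_compl_singleton
  obtain ⟨_, ⟨hmO, hmz⟩, m, rfl⟩ := mem_closure_iff.mp hw.1 _ hO2 ⟨hwO', hw.2⟩
  simp only at hmO hmz
  have hmC : (f c)^[m] 0 ∈ C := hOX _ ⟨subset_closure ⟨m, rfl⟩, hmz⟩ hmO
  -- recurrence at this point
  have hcont : ContinuousAt (f c)^[m] 0 := (continuous_iter m).continuousAt
  obtain ⟨e, he, hball⟩ := Metric.mem_nhds_iff.mp (hcont.preimage_mem_nhds (hO2.mem_nhds ⟨hmO, hmz⟩))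
  obtain ⟨j, hj, hje⟩ := hrec e he
  have hjmem : (f c)^[m] ((f c)^[j] 0) ∈ O ∩ {z₁}ᶜ := hball (by rw [mem_ball_zero_iff]; exact hje)
  rw [← Function.iterate_add_apply] at hjmem
  have hjC : (f c)^[m + j] 0 ∈ C := hOX _ ⟨subset_closure ⟨m + j, rfl⟩, hjmem.2⟩ hjmem.1
  have hCpre : IsPreconnected C := by rw [hCx]; exact isPreconnected_connectedComponentIn
  have hCK : C ⊆ K c \ {z₁} := by
    rw [hCx]
    exact (connectedComponentIn_subset _ _).trans (sdiff_subset_sdiff_left J_subset_K)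
  have := hsep hCpre hCK hmC hjC
  omega

end Pool.Agent.Cremer
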