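import Pool.Agent.Cremer.Defs

/-!
# A weak form of the Koebe one-quarter theorem
-/

open Set Filter Topology Complex Metric

namespace Pool.Agent.Cremer

/-- A convex nonempty set is simply connected. -/
theorem isSimplyConnected_of_convex {U : Set ℂ} (hc : Convex ℝ U) (hne : U.Nonempty) :
    IsSimplyConnected U := by
  have := hc.contractibleSpace hne
  exact SimplyConnectedSpace.ofContractible U

/-- Analytic logarithm on a convex open set. -/
theorem exists_analytic_log {U : Set ℂ} (hU : IsOpen U) (hc : Convex ℝ U) (hne : U.Nonempty)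
    {g : ℂ → ℂ} (hg : DifferentiableOn ℂ g U) (h0 : ∀ z ∈ U, g z ≠ 0) :
    ∃ L : ℂ → ℂ, DifferentiableOn ℂ L U ∧ ∀ z ∈ U, exp (L z) = g z := by
  obtain ⟨L, hLc, hL⟩ := exists_continuousOn_eqOn_exp_comp (isSimplyConnected_of_convex hc hne) hU
    hg.continuousOn (by rintro ⟨z, hz, h⟩; exact h0 z hz h)
  refine ⟨L, ?_, fun z hz => hL hz⟩
  intro z hz
  have hLz : exp (L z) = g z := hL hz
  have hLc' : ContinuousAt L z := hLc.continuousAt (hU.mem_nhds hz)
  -- write `L = log-like local inverse`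
  have hgz : DifferentiableAt ℂ g z := hg.differentiableAt (hU.mem_nhds hz)
  -- near z, L w = L z + log (g w / g z)
  have h1 : ∀ᶠ w in 𝓝 z, L w = L z + Complex.log (g w / g z) := by
    have hmem : ∀ᶠ w in 𝓝 z, w ∈ U := hU.mem_nhds hz
    have him : ∀ᶠ w in 𝓝 z, |(L w - L z).im| < Real.pi := by
      have : Tendsto (fun w => |(L w - L z).im|) (𝓝 z) (𝓝 |(L z - L z).im|) :=
        ((Complex.continuous_im.continuousAt.comp (hLc'.sub continuousAt_const)).abs)
      exact this.eventually (Iio_mem_nhds (by simp [Real.pi_pos]))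
    filter_upwards [hmem, him] with w hw hi
    have h2 : g w / g z = exp (L w - L z) := by
      rw [Complex.exp_sub, hLz, show exp (L w) = g w from hL hw]
    rw [h2, Complex.log_exp]
    · ring
    · exact (abs_lt.mp hi).1
    · exact (abs_lt.mp hi).2.le
  have h3 : DifferentiableAt ℂ (fun w => L z + Complex.log (g w / g z)) z := by
    apply DifferentiableAt.add (differentiableAt_const _)
    apply DifferentiableAt.clog (hgz.div_const _)
    rw [div_self (h0 z hz)]
    simp
  exact (h3.congr_of_eventuallyEq h1).differentiableWithinAt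

/-- Analytic square root with prescribed value. -/
theorem exists_analytic_sqrt {U : Set ℂ} (hU : IsOpen U) (hc : Convex ℝ U)
    {g : ℂ → ℂ} (hg : DifferentiableOn ℂ g U) (h0 : ∀ z ∈ U, g z ≠ 0) {a b : ℂ} (ha : a ∈ U)
    (hb : b ^ 2 = g a) :
    ∃ q : ℂ → ℂ, DifferentiableOn ℂ q U ∧ (∀ z ∈ U, q z ^ 2 = g z) ∧ q a = b := by
  obtain ⟨L, hL, hLe⟩ := exists_analytic_log hU hc ⟨a, ha⟩ hg h0
  have hq : ∀ z ∈ U, exp (L z / 2) ^ 2 = g z := by
    intro z hz
    rw [← Complex.exp_nat_mul, ← hLe z hz]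
    congr 1; push_cast; ring
  have hd : DifferentiableOn ℂ (fun z => exp (L z / 2)) U := (hL.div_const 2).cexp
  have h2 : exp (L a / 2) = b ∨ exp (L a / 2) = -b := by
    apply sq_eq_sq_iff_eq_or_eq_neg.mp
    rw [hq a ha, hb]
  rcases h2 with h2 | h2
  · exact ⟨_, hd, hq, h2⟩
  · refine ⟨fun z => - exp (L z / 2), hd.neg, fun z hz => ?_, ?_⟩
    · simp only [neg_sq]; exact hq z hz
    · simp [h2]

/-- An injective analytic function on an open convex set is open. -/
theorem isOpen_image_of_injOn {U V : Set ℂ} (hU : IsOpen U) (hc : IsPreconnected U)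
    {h : ℂ → ℂ} (hd : DifferentiableOn ℂ h U) (hi : InjOn h U) (hV : IsOpen V) (hVU : V ⊆ U) :
    IsOpen (h '' V) := by
  rcases (hd.analyticOnNhd hU).is_constant_or_isOpen hc with ⟨w, hw⟩ | ho
  · -- constant and injective: U is subsingleton, hence V is empty
    rcases V.eq_empty_or_nonempty with rfl | ⟨v, hv⟩
    · simp
    · exfalso
      obtain ⟨ε, hε, hb⟩ := Metric.isOpen_iff.mp hV v hv
      have h1 : v + (ε / 2 : ℝ) ∈ ball v ε := by
        rw [Metric.mem_ball, Complex.dist_eq]
        simp only [add_sub_cancel_left, Complex.norm_real, Real.norm_eq_abs]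
        rw [abs_of_pos (by positivity)]; linarith
      have h2 := hi (hVU hv) (hVU (hb h1)) (by rw [hw _ (hVU hv), hw _ (hVU (hb h1))])
      have h3 : ((ε / 2 : ℝ) : ℂ) = 0 := by
        have := congrArg (fun x => x - v) h2
        simpa using this.symm
      have h4 : ε / 2 = 0 := by exact_mod_cast h3
      linarith
  · exact ho V hVU hV

/-- The constant in the weak Koebe theorem. -/
noncomputable def kap : ℝ := 1 / 24

theorem kap_pos : 0 < kap := by unfold kap; norm_num

/-- Weak Koebe theorem when `w` is a nearest omitted point. -/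
theorem koebe_aux {h : ℂ → ℂ} {a w : ℂ} {r D : ℝ} (hr : 0 < r)
    (hd : DifferentiableOn ℂ h (ball a r)) (hi : InjOn h (ball a r))
    (hw : w ∉ h '' ball a r) (hD : ‖h a - w‖ = D) (hnear : ball (h a) D ⊆ h '' ball a r) :
    kap * r * ‖deriv h a‖ ≤ D := by
  have ha : a ∈ ball a r := mem_ball_self hr
  have hne : ∀ z ∈ ball a r, h z - w ≠ 0 := by
    intro z hz h0
    exact hw ⟨z, hz, sub_eq_zero.mp h0⟩
  have hDpos : 0 < D := by rw [← hD]; exact norm_pos_iff.mpr (hne a ha)
  have hc : Convex ℝ (ball a r) := convex_ball a r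
  obtain ⟨q, hq, hq2, hqa⟩ := exists_analytic_sqrt (g := fun z => (h z - w) / (h a - w))
    isOpen_ball hc ((hd.sub_const w).div_const _)
    (fun z hz => div_ne_zero (hne z hz) (hne a ha)) (a := a) (b := 1) ha
    (by rw [one_pow, div_self (hne a ha)])
  have hq0 : ∀ z ∈ ball a r, q z ≠ 0 := by
    intro z hz h0
    have := hq2 z hz
    rw [h0] at this
    exact (div_ne_zero (hne z hz) (hne a ha)) (by simpa using this.symm)
  have hinj2 : ∀ z ∈ ball a r, ∀ z' ∈ ball a r, q z ^ 2 = q z' ^ 2 → z = z' := by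
    intro z hz z' hz' he
    rw [hq2 z hz, hq2 z' hz'] at he
    apply hi hz hz'
    have := (div_left_inj' (hne a ha)).mp he
    simpa using this
  have hqi : InjOn q (ball a r) := fun z hz z' hz' he => hinj2 z hz z' hz' (by rw [he])
  have hqneg : ∀ z ∈ ball a r, ∀ z' ∈ ball a r, q z ≠ - q z' := by
    intro z hz z' hz' he
    have := hinj2 z hz z' hz' (by rw [he, neg_sq])
    subst this
    have : q z = 0 := by
      have h2 : (2:ℂ) * q z = 0 := by linear_combination he
      simpa using h2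
    exact hq0 z hz this
  have hqo : IsOpen (q '' ball a r) :=
    isOpen_image_of_injOn isOpen_ball hc.isPreconnected hq hqi isOpen_ball Subset.rfl
  -- the ball of radius 2/5 around 1 is contained in the image
  have hball : ball (1:ℂ) (2/5) ⊆ q '' ball a r := by
    have hcov : ball (1:ℂ) (2/5) ⊆ (q '' ball a r) ∪ (fun z => -z) '' (q '' ball a r) := by
      intro v hv
      rw [mem_ball, Complex.dist_eq] at hv
      have h1 : ‖v ^ 2 - 1‖ < 1 := by
        have h2 : v ^ 2 - 1 = (v - 1) * (v - 1 + 2) := by ring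
        rw [h2, norm_mul]
        have h3 : ‖v - 1 + 2‖ ≤ ‖v - 1‖ + 2 := by
          refine (norm_add_le _ _).trans ?_
          simp
        nlinarith [norm_nonneg (v - 1), norm_nonneg (v - 1 + 2)]
      have h4 : w + v ^ 2 * (h a - w) ∈ ball (h a) D := by
        rw [mem_ball, Complex.dist_eq]
        have : w + v ^ 2 * (h a - w) - h a = (v ^ 2 - 1) * (h a - w) := by ring
        rw [this, norm_mul, hD]
        nlinarith
      obtain ⟨z, hz, hze⟩ := hnear h4
      have h5 : q z ^ 2 = v ^ 2 := by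
        rw [hq2 z hz, hze]
        field_simp [hne a ha]
        ring
      rcases sq_eq_sq_iff_eq_or_eq_neg.mp h5 with h6 | h6
      · left; exact ⟨z, hz, h6⟩
      · right; exact ⟨q z, ⟨z, hz, rfl⟩, by simp [h6]⟩
    have hdisj : ball (1:ℂ) (2/5) ∩ ((q '' ball a r) ∩ ((fun z => -z) '' (q '' ball a r))) = ∅ := by
      ext v
      simp only [mem_inter_iff, mem_empty_iff_false, iff_false, not_and]
      rintro - ⟨z, hz, hze⟩ ⟨_, ⟨z', hz', rfl⟩, hze'⟩
      exact hqneg z hz z' hz' (by rw [hze]; exact hze'.symm)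
    have hpre : IsPreconnected (ball (1:ℂ) (2/5)) := (convex_ball _ _).isPreconnected
    have hopen2 : IsOpen ((fun z : ℂ => -z) '' (q '' ball a r)) :=
      (Homeomorph.neg ℂ).isOpenMap _ hqo
    rcases (isPreconnected_iff_subset_of_disjoint.mp hpre) _ _ hqo hopen2 hcov hdisj with h1 | h1
    · exact h1
    · exfalso
      have h2 := h1 (mem_ball_self (by norm_num))
      obtain ⟨_, ⟨z, hz, rfl⟩, hze⟩ := h2
      refine hqneg z hz a ha ?_
      rw [hqa, ← hze]; simp
  -- hence q + 1 is bounded below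
  have hlow : ∀ z ∈ ball a r, (2/5 : ℝ) ≤ ‖q z + 1‖ := by
    intro z hz
    by_contra hlt
    push Not at hlt
    have h1 : - q z ∈ ball (1:ℂ) (2/5) := by
      rw [mem_ball, Complex.dist_eq]
      have : -q z - 1 = -(q z + 1) := by ring
      rw [this, norm_neg]; exact hlt
    obtain ⟨z', hz', hze'⟩ := hball h1
    exact hqneg z' hz' z hz hze'
  have hq1 : ∀ z ∈ ball a r, q z + 1 ≠ 0 := by
    intro z hz h0
    have := hlow z hz
    rw [h0, norm_zero] at this
    linarith
  -- Schwarz lemma for 1/(q+1)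
  set k : ℂ → ℂ := fun z => (q z + 1)⁻¹ with hk
  have hkd : DifferentiableOn ℂ k (ball a r) := (hq.add_const 1).inv hq1
  have hka : k a = 1 / 2 := by simp [hk, hqa]; norm_num
  have hkm : MapsTo k (ball a r) (closedBall (k a) 3) := by
    intro z hz
    rw [mem_closedBall, Complex.dist_eq, hka]
    have h1 : ‖k z‖ ≤ 5 / 2 := by
      simp only [hk, norm_inv]
      have := hlow z hz
      rw [inv_le_comm₀ (by linarith) (by norm_num)]
      linarith
    calc ‖k z - 1/2‖ ≤ ‖k z‖ + ‖(1/2 : ℂ)‖ := norm_sub_le _ _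
      _ ≤ 5/2 + 1/2 := by
        gcongr
        simp
      _ = 3 := by norm_num
  have hS := norm_deriv_le_div_of_mapsTo_ball hkd hkm hr
  -- derivative of k and q at a
  have hqd : DifferentiableAt ℂ q a := hq.differentiableAt (ball_mem_nhds a hr)
  have hhd : DifferentiableAt ℂ h a := hd.differentiableAt (ball_mem_nhds a hr)
  have hkda : HasDerivAt k (-(deriv q a) / (q a + 1) ^ 2) a := by
    exact (hqd.hasDerivAt.add_const (1:ℂ)).fun_inv (hq1 a ha)
  have hq2d : deriv h a = 2 * deriv q a * (h a - w) := by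
    have h1 : HasDerivAt (fun z => q z ^ 2) (2 * q a * deriv q a) a := by
      have := hqd.hasDerivAt.fun_pow 2
      simpa using this
    have h2 : HasDerivAt (fun z => (h z - w) / (h a - w)) (deriv h a / (h a - w)) a :=
      (hhd.hasDerivAt.sub_const w).div_const _
    have h3 : (fun z => q z ^ 2) =ᶠ[𝓝 a] (fun z => (h z - w) / (h a - w)) := by
      filter_upwards [ball_mem_nhds a hr] with z hz using hq2 z hz
    have h4 := (h1.congr_of_eventuallyEq h3.symm).unique h2
    rw [hqa] at h4
    have h5 := hne a ha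
    field_simp at h4
    linear_combination -h4
  rw [hkda.deriv, hqa] at hS
  have h6 : ‖-(deriv q a) / (1 + 1) ^ 2‖ = ‖deriv q a‖ / 4 := by
    rw [norm_div, norm_neg]; norm_num
  rw [h6] at hS
  rw [hq2d, norm_mul, norm_mul, hD]
  have h7 : ‖deriv q a‖ * r ≤ 12 := by
    rw [div_le_div_iff₀ (by norm_num) hr] at hS
    linarith
  unfold kap
  have h8 : ‖(2:ℂ)‖ = 2 := by simp
  rw [h8]
  nlinarith [norm_nonneg (deriv q a)]

/-- **Weak Koebe theorem.** -/
theorem koebe {h : ℂ → ℂ} {a w : ℂ} {r : ℝ} (hr : 0 < r)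
    (hd : DifferentiableOn ℂ h (ball a r)) (hi : InjOn h (ball a r))
    (hw : w ∉ h '' ball a r) : kap * r * ‖deriv h a‖ ≤ ‖h a - w‖ := by
  have ho : IsOpen (h '' ball a r) :=
    isOpen_image_of_injOn isOpen_ball (convex_ball a r).isPreconnected hd hi isOpen_ball Subset.rfl
  have hcl : IsClosed (h '' ball a r)ᶜ := ho.isClosed_compl
  obtain ⟨w₀, hw₀, hmin⟩ := hcl.exists_infDist_eq_dist ⟨w, hw⟩ (h a)
  have h1 := koebe_aux (D := dist (h a) w₀) hr hd hi (w := w₀) hw₀ (by rw [Complex.dist_eq]) (by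
    intro v hv
    by_contra hv'
    have h2 := infDist_le_dist_of_mem (x := h a) (show v ∈ (h '' ball a r)ᶜ from hv')
    rw [mem_ball, dist_comm] at hv
    linarith)
  have h2 := infDist_le_dist_of_mem (x := h a) (show w ∈ (h '' ball a r)ᶜ from hw)
  rw [Complex.dist_eq] at h2
  linarith

/-- The constant in the growth theorem. -/
noncomputable def CK : ℝ := 1 + Real.exp (1 / kap)

theorem CK_pos : 0 < CK := by unfold CK; positivity

/-- **Weak growth theorem.** -/
theorem koebe_growth {h : ℂ → ℂ} {a w : ℂ} {r : ℝ} (hr : 0 < r)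
    (hd : DifferentiableOn ℂ h (ball a (2 * r))) (hi : InjOn h (ball a (2 * r)))
    (hw : w ∉ h '' ball a (2 * r)) {v : ℂ} (hv : v ∈ closedBall a r) :
    ‖h v - h a‖ ≤ CK * ‖h a - w‖ := by
  have hne : ∀ z ∈ ball a (2 * r), h z - w ≠ 0 := by
    intro z hz h0
    exact hw ⟨z, hz, sub_eq_zero.mp h0⟩
  obtain ⟨L, hL, hLe⟩ := exists_analytic_log isOpen_ball (convex_ball a (2 * r))
    ⟨a, mem_ball_self (by linarith)⟩ (hd.sub_const w) hne
  have hsub : closedBall a r ⊆ ball a (2 * r) := closedBall_subset_ball (by linarith)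
  have hLd : ∀ z ∈ closedBall a r, DifferentiableAt ℂ L z := fun z hz =>
    hL.differentiableAt (isOpen_ball.mem_nhds (hsub hz))
  have hbound : ∀ z ∈ closedBall a r, ‖deriv L z‖ ≤ 1 / (kap * r) := by
    intro z hz
    have hz2 : ball z r ⊆ ball a (2 * r) := by
      apply ball_subset_ball'
      rw [mem_closedBall] at hz
      linarith
    have h1 := koebe hr (hd.mono hz2) (hi.mono hz2) (w := w) (fun ⟨u, hu, hue⟩ => hw ⟨u, hz2 hu, hue⟩)
    have hzb := hsub hz
    have h2 : deriv h z = deriv L z * (h z - w) := by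
      have h3 : HasDerivAt (fun z => exp (L z)) (exp (L z) * deriv L z) z :=
        (hLd z hz).hasDerivAt.cexp
      have h4 : HasDerivAt (fun z => h z - w) (deriv h z) z :=
        (hd.differentiableAt (isOpen_ball.mem_nhds hzb)).hasDerivAt.sub_const w
      have h5 : (fun z => exp (L z)) =ᶠ[𝓝 z] (fun z => h z - w) := by
        filter_upwards [isOpen_ball.mem_nhds hzb] with u hu using hLe u hu
      have h6 := (h3.congr_of_eventuallyEq h5.symm).unique h4
      rw [← h6, hLe z hzb]; ring
    rw [h2, norm_mul] at h1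
    have h7 : 0 < ‖h z - w‖ := norm_pos_iff.mpr (hne z hzb)
    have h8 : kap * r * ‖deriv L z‖ ≤ 1 := by
      by_contra hlt
      push Not at hlt
      nlinarith
    have hkr : 0 < kap * r := mul_pos kap_pos hr
    rw [le_div_iff₀ hkr]
    linarith
  have h1 : ‖L v - L a‖ ≤ 1 / (kap * r) * ‖v - a‖ :=
    (convex_closedBall a r).norm_image_sub_le_of_norm_deriv_le hLd hbound
      (mem_closedBall_self hr.le) hv
  have h2 : ‖L v - L a‖ ≤ 1 / kap := by
    have hva : ‖v - a‖ ≤ r := by rw [mem_closedBall, Complex.dist_eq] at hv; exact hv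
    calc ‖L v - L a‖ ≤ 1 / (kap * r) * ‖v - a‖ := h1
      _ ≤ 1 / (kap * r) * r := by
        have := kap_pos
        gcongr
      _ = 1 / kap := by
        have := kap_pos
        field_simp
  have h3 : h v - w = (h a - w) * exp (L v - L a) := by
    rw [Complex.exp_sub, hLe v (hsub hv), hLe a (mem_ball_self (by linarith))]
    have := hne a (mem_ball_self (by linarith))
    field_simp
  have h4 : ‖exp (L v - L a)‖ ≤ Real.exp (1 / kap) := by
    rw [Complex.norm_exp]
    apply Real.exp_le_exp.mpr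
    exact (Complex.re_le_norm _).trans h2
  calc ‖h v - h a‖ = ‖(h v - w) - (h a - w)‖ := by congr 1; ring
    _ ≤ ‖h v - w‖ + ‖h a - w‖ := norm_sub_le _ _
    _ ≤ ‖h a - w‖ * Real.exp (1 / kap) + ‖h a - w‖ := by
      rw [h3, norm_mul]
      gcongr
    _ = CK * ‖h a - w‖ := by unfold CK; ring

end Pool.Agent.Cremer
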