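import Pool.Agent.Cremer.Defs

open Set Filter Topology Complex MeasureTheory Metric
open scoped ENNReal

namespace Pool.Agent.Cremer.Land

/-- Area formula for injective holomorphic functions. -/
lemma lintegral_sq_deriv {F : ℂ → ℂ} {s U : Set ℂ} (hU : IsOpen U)
    (hd : DifferentiableOn ℂ F U) (hsU : s ⊆ U) (hs : MeasurableSet s) (hinj : InjOn F s) :
    ∫⁻ ζ in s, ENNReal.ofReal (‖deriv F ζ‖ ^ 2) = volume (F '' s) := by
  have h1 : ∀ x ∈ s, HasFDerivWithinAt F
      (((ContinuousLinearMap.toSpanSingleton ℂ (deriv F x))).restrictScalars ℝ) s x := by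
    intro x hx
    have := ((hd x (hsU hx)).differentiableAt (hU.mem_nhds (hsU hx))).hasDerivAt
    exact (this.hasFDerivAt.restrictScalars ℝ).hasFDerivWithinAt
  have h2 := lintegral_abs_det_fderiv_eq_addHaar_image volume hs h1 hinj
  rw [← h2]
  refine lintegral_congr fun x => ?_
  congr 1
  simp [ContinuousLinearMap.det, LinearMap.det_restrictScalars, Algebra.norm_complex_eq,
    Complex.normSq_eq_norm_sq]


lemma lintegral_rect (G : ℂ → ℝ≥0∞) (hG : Measurable G) (a b c d : ℝ) :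
    ∫⁻ ζ in {ζ : ℂ | ζ.re ∈ Ioo a b ∧ ζ.im ∈ Ioo c d}, G ζ
      = ∫⁻ y in Ioo c d, ∫⁻ x in Ioo a b, G (x + y * I) := by
  have h1 := (volume_preserving_equiv_real_prod.symm).setLIntegral_comp_preimage_emb
    measurableEquivRealProd.symm.measurableEmbedding G
      {ζ : ℂ | ζ.re ∈ Ioo a b ∧ ζ.im ∈ Ioo c d}
  rw [← h1]
  have h2 : (measurableEquivRealProd.symm ⁻¹' {ζ : ℂ | ζ.re ∈ Ioo a b ∧ ζ.im ∈ Ioo c d})
      = Ioo a b ×ˢ Ioo c d := by
    ext p
    simp [measurableEquivRealProd_symm_apply]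
  rw [h2, Measure.volume_eq_prod, ← Measure.prod_restrict, lintegral_prod_symm]
  · refine lintegral_congr fun y => lintegral_congr fun x => ?_
    congr 1
    apply Complex.ext <;> simp [measurableEquivRealProd_symm_apply]
  · exact (hG.comp measurableEquivRealProd.symm.measurable).aemeasurable

/-- Lengths of horizontal segments are controlled by the area. -/
lemma length_le {F : ℂ → ℂ} (hd : DifferentiableOn ℂ F {ζ | 0 < ζ.re}) {y R ε B : ℝ}
    (hR : 0 < R) (hε : 0 < ε) (hB : 0 ≤ B)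
    (hA : ∫⁻ x in Ioo 0 R, ENNReal.ofReal (‖deriv F (x + y * I)‖ ^ 2) ≤ ENNReal.ofReal B)
    {x r : ℝ} (hx : 0 < x) (hxr : x ≤ r) (hr : r < R) :
    ‖F (x + y * I) - F (r + y * I)‖ ≤ R / ε * B + ε / 4 := by
  have hcont : ContinuousOn (deriv F) {ζ : ℂ | 0 < ζ.re} :=
    (hd.deriv (isOpen_lt continuous_const continuous_re)).continuousOn
  have hc1 : ContinuousOn (fun t : ℝ => deriv F (t + y * I)) (Icc x r) := by
    refine hcont.comp (by fun_prop) ?_
    intro t ht
    simpa using lt_of_lt_of_le hx ht.1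
  have hder : ∀ t ∈ uIcc x r, HasDerivAt (fun t : ℝ => F (t + y * I)) (deriv F (t + y * I)) t := by
    intro t ht
    rw [uIcc_of_le hxr] at ht
    have ht0 : (0:ℝ) < ((t:ℂ) + y * I).re := by simpa using lt_of_lt_of_le hx ht.1
    have h1 : HasDerivAt F (deriv F (t + y * I)) (t + y * I) :=
      ((hd _ ht0).differentiableAt
        ((isOpen_lt continuous_const continuous_re).mem_nhds ht0)).hasDerivAt
    exact (HasDerivAt.comp_add_const (t : ℂ) (y * I) h1).comp_ofReal
  have hint : IntervalIntegrable (fun t : ℝ => deriv F (t + y * I)) volume x r := by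
    apply ContinuousOn.intervalIntegrable
    rwa [uIcc_of_le hxr]
  have hftc := intervalIntegral.integral_eq_sub_of_hasDerivAt hder hint
  rw [norm_sub_rev, ← hftc]
  refine (intervalIntegral.norm_integral_le_integral_norm hxr).trans ?_
  have hc2 : ContinuousOn (fun t : ℝ => ‖deriv F (t + y * I)‖) (Icc x r) := hc1.norm
  have hpt : ∀ t ∈ Icc x r, ‖deriv F (t + y * I)‖
      ≤ R / ε * ‖deriv F (t + y * I)‖ ^ 2 + ε / (4 * R) := by
    intro t _
    have key : 0 ≤ (R * ‖deriv F (t + y * I)‖ - ε / 2) ^ 2 / (R * ε) := by positivity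
    have : (R * ‖deriv F (t + y * I)‖ - ε / 2) ^ 2 / (R * ε)
        = R / ε * ‖deriv F (t + y * I)‖ ^ 2 - ‖deriv F (t + y * I)‖ + ε / (4 * R) := by
      field_simp
      ring
    linarith
  have hi1 : IntervalIntegrable (fun t : ℝ => ‖deriv F (t + y * I)‖) volume x r := by
    apply ContinuousOn.intervalIntegrable
    rwa [uIcc_of_le hxr]
  have hi2 : IntervalIntegrable (fun t : ℝ => ‖deriv F (t + y * I)‖ ^ 2) volume x r := by
    apply ContinuousOn.intervalIntegrable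
    rw [uIcc_of_le hxr]
    exact hc2.pow 2
  refine (intervalIntegral.integral_mono_on hxr hi1
    ((hi2.const_mul (R / ε)).add intervalIntegrable_const) hpt).trans ?_
  rw [intervalIntegral.integral_add (hi2.const_mul (R / ε)) intervalIntegrable_const,
    intervalIntegral.integral_const_mul, intervalIntegral.integral_const, smul_eq_mul]
  have hI : ∫ t in x..r, ‖deriv F (t + y * I)‖ ^ 2 ≤ B := by
    rw [intervalIntegral.integral_of_le hxr]
    rw [integral_eq_lintegral_of_nonneg_ae (Eventually.of_forall fun t => by positivity)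
      (hi2.1.aestronglyMeasurable)]
    have h3 : ∫⁻ t in Ioc x r, ENNReal.ofReal (‖deriv F (t + y * I)‖ ^ 2)
        ≤ ENNReal.ofReal B := by
      refine le_trans (lintegral_mono_set ?_) hA
      intro t ht
      exact ⟨hx.trans ht.1, lt_of_le_of_lt ht.2 hr⟩
    exact ENNReal.toReal_le_of_le_ofReal hB h3
  have h4 : (r - x) * (ε / (4 * R)) ≤ ε / 4 := by
    have : (r - x) ≤ R := by linarith
    calc (r - x) * (ε / (4 * R)) ≤ R * (ε / (4 * R)) := by gcongr
      _ = ε / 4 := by field_simp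
  have h5 : R / ε * ∫ t in x..r, ‖deriv F (t + y * I)‖ ^ 2 ≤ R / ε * B := by gcongr
  linarith


/-- Length-area principle: near a boundary point there are short horizontal crosscuts. -/
lemma lengthArea {F : ℂ → ℂ} {y₀ : ℝ} (hd : DifferentiableOn ℂ F {ζ | 0 < ζ.re})
    (hinj : InjOn F {ζ : ℂ | ζ.re ∈ Ioo (0 : ℝ) 1 ∧ ζ.im ∈ Ioo (y₀ - 1) (y₀ + 1)})
    {M : ℝ} (hb : ∀ ζ : ℂ, ζ.re ∈ Ioo (0 : ℝ) 1 → ‖F ζ‖ ≤ M) {ε : ℝ} (hε : 0 < ε) :
    ∃ R₀ > 0, ∀ R, 0 < R → R < R₀ → ∃ r ∈ Ioo (R / 2) R,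
      ∀ x ∈ Ioc 0 r, ‖F (x + (y₀ + r : ℝ) * I) - F (r + (y₀ + r : ℝ) * I)‖ ≤ ε ∧
        ‖F (x + (y₀ - r : ℝ) * I) - F (r + (y₀ - r : ℝ) * I)‖ ≤ ε := by
  set G : ℂ → ℝ≥0∞ := fun ζ => ENNReal.ofReal (‖deriv F ζ‖ ^ 2) with hGdef
  have hG : Measurable G := ((measurable_deriv F).norm.pow_const 2).ennreal_ofReal
  set Q : Set ℂ := {ζ : ℂ | ζ.re ∈ Ioo (0 : ℝ) 1 ∧ ζ.im ∈ Ioo (y₀ - 1) (y₀ + 1)} with hQ
  have hQm : MeasurableSet Q :=
    (Complex.measurable_re measurableSet_Ioo).inter (Complex.measurable_im measurableSet_Ioo)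
  have hQfin : ∫⁻ ζ in Q, G ζ ≠ ∞ := by
    rw [hGdef, lintegral_sq_deriv (isOpen_lt continuous_const continuous_re) hd
      (fun ζ hζ => hζ.1.1) hQm hinj]
    refine ne_of_lt (lt_of_le_of_lt (measure_mono (t := closedBall (0 : ℂ) M) ?_) ?_)
    · rintro _ ⟨ζ, hζ, rfl⟩
      simpa using hb ζ hζ.1
    · exact measure_closedBall_lt_top
  have hη : ENNReal.ofReal (ε ^ 2 / 8) ≠ 0 := by
    simp only [ne_eq, ENNReal.ofReal_eq_zero, not_le]; positivity
  obtain ⟨δ, hδ, hδ'⟩ := exists_pos_setLIntegral_lt_of_measure_lt hQfin hη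
  have hev : ∀ᶠ R : ℝ in 𝓝 0, ENNReal.ofReal (2 * R ^ 2) < δ := by
    have : Tendsto (fun R : ℝ => ENNReal.ofReal (2 * R ^ 2)) (𝓝 0) (𝓝 0) :=
      (ENNReal.continuous_ofReal.comp (by fun_prop)).tendsto' 0 0 (by simp)
    exact this.eventually (gt_mem_nhds hδ)
  obtain ⟨R₁, hR₁, hR₁'⟩ := Metric.eventually_nhds_iff.1 hev
  refine ⟨min R₁ 1, lt_min hR₁ one_pos, fun R hR hRlt => ?_⟩
  have hRR₁ : R < R₁ := hRlt.trans_le (min_le_left _ _)
  have hR1 : R < 1 := hRlt.trans_le (min_le_right _ _)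
  set QR : Set ℂ := {ζ : ℂ | ζ.re ∈ Ioo (0 : ℝ) R ∧ ζ.im ∈ Ioo (y₀ - R) (y₀ + R)} with hQR
  have hQRm : MeasurableSet QR :=
    (Complex.measurable_re measurableSet_Ioo).inter (Complex.measurable_im measurableSet_Ioo)
  have hsub : QR ⊆ Q := by
    rintro ζ ⟨h1, h2⟩
    exact ⟨⟨h1.1, h1.2.trans hR1⟩, ⟨by linarith [h2.1], by linarith [h2.2]⟩⟩
  have hvol : volume QR = ENNReal.ofReal (2 * R ^ 2) := by
    have := lintegral_rect (fun _ => 1) measurable_const 0 R (y₀ - R) (y₀ + R)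
    simp only [lintegral_const, MeasurableSet.univ, Measure.restrict_apply, univ_inter, one_mul,
      Real.volume_Ioo] at this
    rw [hQR, this, ← ENNReal.ofReal_mul (by linarith)]
    congr 1; ring
  have hA : ∫⁻ ζ in QR, G ζ < ENNReal.ofReal (ε ^ 2 / 8) := by
    have h1 : (volume.restrict Q) QR < δ := by
      rw [Measure.restrict_eq_self _ hsub, hvol]
      exact hR₁' (by simpa [abs_of_pos hR] using hRR₁)
    have h2 := hδ' QR h1
    rwa [Measure.restrict_restrict_of_subset hsub] at h2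
  rw [hQR, lintegral_rect G hG] at hA
  set H : ℝ → ℝ≥0∞ := fun y => ∫⁻ x in Ioo 0 R, G (x + y * I) with hH
  have hHm : Measurable H := by
    have : Measurable (fun p : ℝ × ℝ => G (p.1 + p.2 * I)) :=
      hG.comp (by fun_prop)
    exact this.lintegral_prod_left'
  have hplus : ∫⁻ r in Ioo (R / 2) R, H (y₀ + r) ≤ ENNReal.ofReal (ε ^ 2 / 8) := by
    have h1 := (measurePreserving_add_left volume y₀).setLIntegral_comp_preimage_emb
      (measurableEmbedding_addLeft y₀) H (Ioo (y₀ + R / 2) (y₀ + R))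
    rw [show (fun x => y₀ + x) ⁻¹' Ioo (y₀ + R / 2) (y₀ + R) = Ioo (R / 2) R by
      ext x; simp] at h1
    rw [h1]
    refine (lintegral_mono_set ?_).trans hA.le
    intro y hy
    exact ⟨by linarith [hy.1], hy.2⟩
  have hminus : ∫⁻ r in Ioo (R / 2) R, H (y₀ - r) ≤ ENNReal.ofReal (ε ^ 2 / 8) := by
    have h1 := (Measure.measurePreserving_sub_left volume y₀).setLIntegral_comp_preimage_emb
      (MeasurableEquiv.subLeft y₀).measurableEmbedding H (Ioo (y₀ - R) (y₀ - R / 2))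
    rw [show (fun x => y₀ - x) ⁻¹' Ioo (y₀ - R) (y₀ - R / 2) = Ioo (R / 2) R by
      ext x; simp [and_comm]] at h1
    rw [h1]
    refine (lintegral_mono_set ?_).trans hA.le
    intro y hy
    exact ⟨hy.1, by linarith [hy.2]⟩
  have hm1 : Measurable fun r => H (y₀ + r) := hHm.comp (by fun_prop)
  have hm2 : Measurable fun r => H (y₀ - r) := hHm.comp (by fun_prop)
  have hIoo : volume (Ioo (R / 2) R) ≠ 0 := by
    rw [Real.volume_Ioo]; simp only [ne_eq, ENNReal.ofReal_eq_zero, not_le]; linarith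
  have hIoo' : volume (Ioo (R / 2) R) ≠ ∞ := by
    rw [Real.volume_Ioo]; exact ENNReal.ofReal_ne_top
  obtain ⟨r, hr, hrle⟩ := exists_le_setLAverage (f := fun r => H (y₀ + r) + H (y₀ - r))
    hIoo hIoo' ((hm1.add hm2).aemeasurable)
  have hsum : H (y₀ + r) + H (y₀ - r) ≤ ENNReal.ofReal (ε ^ 2 / (2 * R)) := by
    refine hrle.trans ?_
    rw [setLAverage_eq, lintegral_add_left hm1, Real.volume_Ioo]
    rw [ENNReal.div_le_iff (by simp only [ne_eq, ENNReal.ofReal_eq_zero, not_le]; linarith)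
      ENNReal.ofReal_ne_top]
    rw [← ENNReal.ofReal_mul (by positivity)]
    refine (add_le_add hplus hminus).trans ?_
    rw [← ENNReal.ofReal_add (by positivity) (by positivity)]
    apply ENNReal.ofReal_le_ofReal
    apply le_of_eq
    field_simp
    ring
  refine ⟨r, hr, fun x hx => ?_⟩
  have hB : (0 : ℝ) ≤ ε ^ 2 / (2 * R) := by positivity
  have hfinal : R / ε * (ε ^ 2 / (2 * R)) + ε / 4 ≤ ε := by
    have : R / ε * (ε ^ 2 / (2 * R)) = ε / 2 := by field_simp
    linarith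
  constructor
  · exact (length_le hd hR hε hB (le_trans (le_add_right le_rfl) hsum) hx.1 hx.2 hr.2).trans hfinal
  · exact (length_le hd hR hε hB (le_trans (le_add_left le_rfl) hsum) hx.1 hx.2 hr.2).trans hfinal

end Pool.Agent.Cremer.Land
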