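import Pool.Agent.Cremer.Koebe
import Pool.Agent.Cremer.Basic

/-!
# No ray of periodic angle lands at an irrationally indifferent fixed point (snail lemma)
-/

open Set Filter Topology Complex Metric

namespace Pool.Agent.Cremer

namespace NP

/-- If `M` is continuous on `(0,∞)` and `exp (M x) → l ≠ 0` as `x → 0+`, then `M x` converges to a
logarithm of `l`. -/
theorem tendsto_log_branch {M : ℝ → ℂ} {l : ℂ} (hl : l ≠ 0) (hM : ContinuousOn M (Ioi 0))
    (h : Tendsto (fun x => exp (M x)) (𝓝[>] 0) (𝓝 l)) :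
    ∃ μ : ℂ, exp μ = l ∧ Tendsto M (𝓝[>] 0) (𝓝 μ) := by
  have hg : Tendsto (fun x => exp (M x) / l) (𝓝[>] 0) (𝓝 1) := by
    have := h.div_const l
    rwa [div_self hl] at this
  have hsl : ∀ᶠ x in 𝓝[>] (0:ℝ), exp (M x) / l ∈ slitPlane :=
    hg.eventually (isOpen_slitPlane.mem_nhds (by simp))
  rw [eventually_nhdsWithin_iff, Metric.eventually_nhds_iff] at hsl
  obtain ⟨δ, hδ, hsl⟩ := hsl
  have hsl' : ∀ x ∈ Ioo (0:ℝ) δ, exp (M x) / l ∈ slitPlane := by
    intro x hx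
    apply hsl _ hx.1
    rw [Real.dist_eq, sub_zero, abs_of_pos hx.1]
    exact hx.2
  have hMc : ContinuousOn M (Ioo 0 δ) := hM.mono (fun x hx => hx.1)
  have hG : ContinuousOn (fun x => Complex.log (exp (M x) / l)) (Ioo 0 δ) :=
    ContinuousOn.clog (hMc.cexp.div_const l) hsl'
  have hint : ∀ x ∈ Ioo (0:ℝ) δ, ∃ n : ℤ,
      M x - Complex.log l = Complex.log (exp (M x) / l) + n * (2 * Real.pi * I) := by
    intro x hx
    rw [← Complex.exp_eq_exp_iff_exists_int, Complex.exp_sub, Complex.exp_log hl,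
      Complex.exp_log (div_ne_zero (Complex.exp_ne_zero _) hl)]
  have hpi : (Real.pi : ℝ) ≠ 0 := Real.pi_ne_zero
  obtain ⟨y, ⟨n, hn⟩, hy⟩ := (isPreconnected_Ioo (a := (0:ℝ)) (b := δ)).eqOn_const_of_mapsTo
    (T := Set.range ((↑) : ℤ → ℝ))
    (f := fun x => (M x - Complex.log l - Complex.log (exp (M x) / l)).im / (2 * Real.pi))
    (by
      rw [isDiscrete_iff_discreteTopology]
      exact (Int.isClosedEmbedding_coe_real.isEmbedding.toHomeomorph).symm.isEmbedding.discreteTopology)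
    (by
      apply ContinuousOn.div_const
      exact Complex.continuous_im.comp_continuousOn ((hMc.sub continuousOn_const).sub hG))
    (by
      intro x hx
      obtain ⟨n, hn⟩ := hint x hx
      refine ⟨n, ?_⟩
      simp only
      rw [hn]
      simp) ⟨0, 0, by simp⟩
  refine ⟨Complex.log l + n * (2 * Real.pi * I), ?_, ?_⟩
  · rw [Complex.exp_add, Complex.exp_log hl, Complex.exp_int_mul_two_pi_mul_I, mul_one]
  · have h1 : Tendsto (fun x => Complex.log l + Complex.log (exp (M x) / l) +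
        n * (2 * Real.pi * I)) (𝓝[>] 0) (𝓝 (Complex.log l + 0 + n * (2 * Real.pi * I))) := by
      apply Tendsto.add_const
      apply Tendsto.const_add
      have := (continuousAt_clog (x := 1) (by simp)).tendsto.comp hg
      rw [Complex.log_one] at this
      exact this
    rw [add_zero] at h1
    apply h1.congr'
    have hmem : Ioo (0:ℝ) δ ∈ 𝓝[>] (0:ℝ) := Ioo_mem_nhdsGT hδ
    filter_upwards [hmem] with x hx
    obtain ⟨k, hk⟩ := hint x hx
    have h2 := hy hx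
    simp only [Function.const] at h2
    rw [← hn] at h2
    have h3 : (k : ℝ) = n := by
      rw [← h2, hk]
      simp
    have h4 : k = n := by exact_mod_cast h3
    subst h4
    linear_combination -hk

theorem psi_dbl_iter {c : ℂ} {Ψ : ℂ → ℂ} (hΨ : IsPsi c Ψ) (n : ℕ) :
    ∀ ζ : ℂ, 0 < ζ.re → Ψ (2 ^ n * ζ) = (f c)^[n] (Ψ ζ) := by
  induction n with
  | zero => intro ζ _; simp
  | succ n ih =>
    intro ζ hζ
    rw [Function.iterate_succ_apply', ← ih ζ hζ, f, ← hΨ.dbl, pow_succ]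
    · congr 1; ring
    · have h1 : (2 ^ n * ζ : ℂ) = ((2 ^ n : ℝ) : ℂ) * ζ := by push_cast; ring
      rw [h1, Complex.re_ofReal_mul]
      positivity

theorem psi_per_nat {c : ℂ} {Ψ : ℂ → ℂ} (hΨ : IsPsi c Ψ) (n : ℕ) :
    ∀ ζ : ℂ, 0 < ζ.re → Ψ (ζ + n * (2 * Real.pi * I)) = Ψ ζ := by
  induction n with
  | zero => intro ζ _; simp
  | succ n ih =>
    intro ζ hζ
    have h1 : ζ + ((n + 1 : ℕ) : ℂ) * (2 * Real.pi * I) =
      (ζ + n * (2 * Real.pi * I)) + 2 * Real.pi * I := by push_cast; ring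
    rw [h1, hΨ.per, ih ζ hζ]
    simpa using hζ

theorem psi_per_int {c : ℂ} {Ψ : ℂ → ℂ} (hΨ : IsPsi c Ψ) (n : ℤ)
    (ζ : ℂ) (hζ : 0 < ζ.re) : Ψ (ζ + n * (2 * Real.pi * I)) = Ψ ζ := by
  obtain ⟨k, rfl | rfl⟩ := n.eq_nat_or_neg
  · exact_mod_cast psi_per_nat hΨ k ζ hζ
  · have h := psi_per_nat hΨ k (ζ + ((-(k:ℤ) : ℤ) : ℂ) * (2 * Real.pi * I)) (by simpa using hζ)
    rw [← h]
    congr 1
    push_cast
    ring

theorem hasDerivAt_iter {c z₁ : ℂ} (hfix : f c z₁ = z₁) (p : ℕ) :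
    HasDerivAt (f c)^[p] ((2 * z₁) ^ p) z₁ :=
  HasDerivAt.iterate z₁ (hasDerivAt_f (c := c) z₁) hfix p

end NP

open NP in
theorem no_periodic {c z₁ : ℂ} {α : ℝ} (h0 : (0 : ℂ) ∈ K c) {Ψ : ℂ → ℂ} (hΨ : IsPsi c Ψ)
    (hα : Irrational α) (hfix : f c z₁ = z₁) (hmul : 2 * z₁ = exp (2 * Real.pi * α * I))
    {θ : ℝ} (hθ : Lands Ψ θ z₁) {p : ℕ} (hp : 0 < p) (m : ℤ) : (2 : ℝ) ^ p * θ ≠ θ + m := by
  intro hper
  -- the fixed point is in `K`
  have hzK : z₁ ∈ K c := ⟨‖z₁‖, fun n => by rw [Function.iterate_fixed hfix]⟩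
  set H : Set ℂ := {ζ | 0 < ζ.re} with hH
  have hHo : IsOpen H := isOpen_lt continuous_const Complex.continuous_re
  have hHc : Convex ℝ H := convex_halfSpace_re_gt 0
  have hHne : H.Nonempty := ⟨1, by simp [hH]⟩
  set Φ : ℂ → ℂ := fun ζ => Ψ (ζ + 2 * Real.pi * θ * I) with hΦ
  have hsh : ∀ ζ ∈ H, ζ + 2 * Real.pi * θ * I ∈ H := by
    intro ζ hζ
    simp only [hH, mem_ofPred_eq] at hζ ⊢
    simpa using hζ
  have hΦd : DifferentiableOn ℂ Φ H := by
    apply DifferentiableOn.comp hΨ.diff _ hsh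
    exact (differentiable_id.add_const _).differentiableOn
  have hΦne : ∀ ζ ∈ H, Φ ζ - z₁ ≠ 0 := by
    intro ζ hζ h
    apply hΨ.notMem (ζ + 2 * Real.pi * θ * I) (hsh ζ hζ)
    rw [show Ψ (ζ + 2 * Real.pi * θ * I) = z₁ from sub_eq_zero.mp h]
    exact hzK
  set P : ℝ := 2 ^ p with hP
  have hP2 : 2 ≤ P := by
    rw [hP]
    calc (2:ℝ) = 2 ^ 1 := by norm_num
      _ ≤ 2 ^ p := pow_le_pow_right₀ (by norm_num) hp
  have hPpos : 0 < P := by linarith
  have hΦP : ∀ ζ ∈ H, Φ ((P : ℂ) * ζ) = (f c)^[p] (Φ ζ) := by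
    intro ζ hζ
    rw [hΦ]
    simp only
    rw [← psi_dbl_iter hΨ p _ (hsh ζ hζ)]
    have h1 : (2:ℂ) ^ p * (ζ + 2 * Real.pi * θ * I) =
        ((P : ℂ) * ζ + 2 * Real.pi * θ * I) + m * (2 * Real.pi * I) := by
      have h2 : (P : ℂ) * θ = θ + m := by
        have := congrArg (fun x : ℝ => (x : ℂ)) hper
        push_cast at this
        exact this
      have h3 : (P : ℂ) = 2 ^ p := by rw [hP]; push_cast; ring
      rw [← h3]
      linear_combination (2 * Real.pi * I) * h2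
    rw [h1, psi_per_int hΨ]
    simp only [hH, mem_ofPred_eq] at hζ
    have : 0 < ((P : ℂ) * ζ).re := by
      rw [Complex.re_ofReal_mul]; positivity
    simpa using this
  have hΦinj : ∀ ζ ∈ H, ∀ ξ ∈ H, |ζ.im| < Real.pi → |ξ.im| < Real.pi → Φ ζ = Φ ξ → ζ = ξ := by
    intro ζ hζ ξ hξ h1 h2 he
    obtain ⟨k, hk⟩ := hΨ.inj _ _ (hsh ζ hζ) (hsh ξ hξ) he
    have h3 : ξ = ζ + k * (2 * Real.pi * I) := by linear_combination hk
    have h4 : ξ.im = ζ.im + k * (2 * Real.pi) := by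
      rw [h3]; simp
    have hpi := Real.pi_pos
    rw [abs_lt] at h1 h2
    have h5 : |(k : ℝ)| < 1 := by
      rw [abs_lt]
      constructor
      · by_contra hlt
        push Not at hlt
        nlinarith
      · by_contra hlt
        push Not at hlt
        nlinarith
    have h6 : k = 0 := by
      have : |k| < 1 := by exact_mod_cast h5
      exact Int.abs_lt_one_iff.mp this
    rw [h3, h6]; simp
  obtain ⟨L, hLd, hLe⟩ := exists_analytic_log (g := fun ζ => Φ ζ - z₁) hHo hHc hHne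
    (hΦd.sub_const z₁) hΦne
  -- the function `M`
  set M : ℝ → ℂ := fun x => L ((P * x : ℝ) : ℂ) - L (x : ℂ) with hM
  have hxH : ∀ x : ℝ, 0 < x → (x : ℂ) ∈ H := by
    intro x hx; simpa [hH] using hx
  have hLc : ContinuousOn (fun x : ℝ => L (x : ℂ)) (Ioi 0) :=
    hLd.continuousOn.comp Complex.continuous_ofReal.continuousOn (fun x hx => hxH x hx)
  have hMc : ContinuousOn M (Ioi 0) := by
    apply ContinuousOn.sub _ hLc
    exact hLc.comp (continuous_const.mul continuous_id).continuousOn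
      (fun x hx => mul_pos hPpos hx)
  have hΦlim : Tendsto (fun x : ℝ => Φ (x : ℂ)) (𝓝[>] 0) (𝓝 z₁) := hθ
  have hlam : ‖exp (2 * Real.pi * α * I)‖ = 1 := by
    have : (2 * Real.pi * α * I : ℂ) = ((2 * Real.pi * α : ℝ) : ℂ) * I := by push_cast; ring
    rw [this, Complex.norm_exp_ofReal_mul_I]
  have hl : ((2 * z₁) ^ p : ℂ) ≠ 0 := by
    rw [hmul]; exact pow_ne_zero _ (Complex.exp_ne_zero _)
  have hMlim : Tendsto (fun x => exp (M x)) (𝓝[>] 0) (𝓝 ((2 * z₁) ^ p)) := by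
    have h1 := (hasDerivAt_iff_tendsto_slope.mp (hasDerivAt_iter hfix p))
    have h2 : Tendsto (fun x : ℝ => Φ (x : ℂ)) (𝓝[>] 0) (𝓝[≠] z₁) := by
      rw [tendsto_nhdsWithin_iff]
      refine ⟨hΦlim, ?_⟩
      filter_upwards [self_mem_nhdsWithin] with x hx
      exact sub_ne_zero.mp (hΦne x (hxH x hx))
    apply (h1.comp h2).congr'
    filter_upwards [self_mem_nhdsWithin] with x hx
    have hx0 : 0 < x := hx
    simp only [Function.comp, hM, slope_def_field]
    rw [Complex.exp_sub, hLe _ (hxH _ (mul_pos hPpos hx0)), hLe _ (hxH x hx0),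
      Function.iterate_fixed hfix]
    have : Φ ((P * x : ℝ) : ℂ) = (f c)^[p] (Φ x) := by
      rw [← hΦP x (hxH x hx0)]; push_cast; ring_nf
    rw [this]
  obtain ⟨μ, hμe, hμ⟩ := tendsto_log_branch hl hMc hMlim
  -- `μ = i y` with `y ≠ 0`
  have hμre : μ.re = 0 := by
    have h1 : ‖exp μ‖ = 1 := by rw [hμe, hmul, norm_pow, hlam, one_pow]
    rw [Complex.norm_exp, Real.exp_eq_one_iff] at h1
    exact h1
  have hμ0 : μ ≠ 0 := by
    rintro rfl
    rw [hmul, Complex.exp_zero, ← Complex.exp_nat_mul] at hμe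
    have h1 := hμe.symm
    rw [Complex.exp_eq_one_iff] at h1
    obtain ⟨n, hn⟩ := h1
    have hI : (2 * Real.pi * I : ℂ) ≠ 0 := Complex.two_pi_I_ne_zero
    have h2 : (p * α : ℂ) = n := by
      apply mul_right_cancel₀ hI
      linear_combination hn
    have h3 : (p * α : ℝ) = n := by exact_mod_cast h2
    exact (hα.natCast_mul hp.ne').ne_int n h3
  have hμn : 0 < ‖μ‖ := norm_pos_iff.mpr hμ0
  -- constants
  set c0 : ℝ := ‖μ‖ / (4 * P) with hc0
  have hc0pos : 0 < c0 := by positivity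
  set η : ℝ := kap * c0 / 4 with hη
  have hηpos : 0 < η := by
    have := kap_pos
    positivity
  -- Dirichlet
  obtain ⟨N, mm, hN, hmm⟩ : ∃ (N : ℕ) (mm : ℤ), 0 < N ∧
      ‖(N : ℂ) * μ - mm * (2 * Real.pi * I)‖ < η / 2 := by
    obtain ⟨n, hn⟩ := exists_nat_gt (4 * Real.pi / η)
    have hnpos : 0 < n := by
      have : (0:ℝ) < n := lt_trans (by positivity) hn
      exact_mod_cast this
    obtain ⟨k, hk0, -, hk⟩ := Real.exists_nat_abs_mul_sub_round_le (μ.im / (2 * Real.pi)) hnpos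
    refine ⟨k, round (k * (μ.im / (2 * Real.pi))), hk0, ?_⟩
    have hμi : μ = ((μ.im : ℝ) : ℂ) * I := by
      apply Complex.ext <;> simp [hμre]
    set j : ℤ := round (k * (μ.im / (2 * Real.pi)))
    have h1 : (k : ℂ) * μ - j * (2 * Real.pi * I) =
        (((2 * Real.pi) * (k * (μ.im / (2 * Real.pi)) - j) : ℝ) : ℂ) * I := by
      rw [hμi]
      have := Real.pi_ne_zero
      push_cast
      simp only [Complex.mul_im, Complex.ofReal_re, Complex.I_im, mul_one, Complex.ofReal_im,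
        Complex.I_re, mul_zero, add_zero]
      have hpiC : (Real.pi : ℂ) ≠ 0 := by exact_mod_cast this
      field_simp
    rw [h1, norm_mul, Complex.norm_I, mul_one, Complex.norm_real, Real.norm_eq_abs, abs_mul,
      abs_of_pos (by positivity)]
    have h2 : (1:ℝ) / (n + 1) < η / (4 * Real.pi) := by
      rw [div_lt_iff₀ (by positivity)] at hn
      rw [div_lt_div_iff₀ (by positivity) (by positivity)]
      nlinarith
    calc 2 * Real.pi * |k * (μ.im / (2 * Real.pi)) - j| ≤ 2 * Real.pi * (1 / (n + 1)) := by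
          gcongr
      _ < 2 * Real.pi * (η / (4 * Real.pi)) := by gcongr
      _ = η / 2 := by
        field_simp
        ring
  -- a scale at which `M` is close to `μ`
  have hNpos : (0:ℝ) < N := by exact_mod_cast hN
  set ε : ℝ := min (η / (2 * N)) (‖μ‖ / 2) with hε
  have hεpos : 0 < ε := by positivity
  obtain ⟨δ, hδ, hMδ⟩ : ∃ δ > 0, ∀ x : ℝ, 0 < x → x < δ → ‖M x - μ‖ < ε := by
    have h1 := hμ.eventually (Metric.ball_mem_nhds μ hεpos)
    rw [eventually_nhdsWithin_iff, Metric.eventually_nhds_iff] at h1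
    obtain ⟨δ, hδ, h1⟩ := h1
    refine ⟨δ, hδ, fun x hx hxδ => ?_⟩
    have := h1 (y := x) (by rw [Real.dist_eq, sub_zero, abs_of_pos hx]; exact hxδ) hx
    rwa [Complex.dist_eq] at this
  -- telescoping
  have htel : ∀ (n : ℕ) (x : ℝ), 0 < x → x < δ →
      ‖L ((x / P ^ n : ℝ) : ℂ) + n * μ - L (x : ℂ)‖ ≤ n * ε := by
    intro n x hx hxδ
    induction n with
    | zero => simp
    | succ n ih =>
      have hy : 0 < x / P ^ (n + 1) := by positivity
      have hyδ : x / P ^ (n + 1) < δ := by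
        refine lt_of_le_of_lt ?_ hxδ
        apply div_le_self hx.le
        exact one_le_pow₀ (by linarith)
      have h1 := hMδ _ hy hyδ
      have h2 : P * (x / P ^ (n + 1)) = x / P ^ n := by
        rw [pow_succ, div_mul_eq_div_div, mul_div_cancel₀ _ hPpos.ne']
      simp only [hM] at h1
      rw [h2] at h1
      have h3 : L ((x / P ^ (n + 1) : ℝ) : ℂ) + ((n + 1 : ℕ) : ℂ) * μ - L (x : ℂ) =
          (L ((x / P ^ n : ℝ) : ℂ) + n * μ - L (x : ℂ)) -
          (L ((x / P ^ n : ℝ) : ℂ) - L ((x / P ^ (n + 1) : ℝ) : ℂ) - μ) := by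
        push_cast; ring
      rw [h3]
      refine (norm_sub_le _ _).trans ?_
      rw [Nat.cast_succ (R := ℝ), add_mul, one_mul]
      exact add_le_add ih h1.le
  -- choose `x0`
  set x0 : ℝ := min δ Real.pi / (2 * P) with hx0
  have hx0pos : 0 < x0 := by
    have := Real.pi_pos
    positivity
  have hPx0 : P * x0 = min δ Real.pi / 2 := by
    rw [hx0]; field_simp
  have hmpos : 0 < min δ Real.pi := lt_min hδ Real.pi_pos
  have hPx0δ : P * x0 < δ := by
    rw [hPx0]; have := min_le_left δ Real.pi; linarith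
  have hPx0pi : P * x0 < Real.pi := by
    rw [hPx0]; have := min_le_right δ Real.pi; linarith
  have hx0δ : x0 < δ := by nlinarith
  -- the point `x*`
  obtain ⟨xs, hxs1, hxs2, hxs3⟩ : ∃ xs : ℝ, x0 ≤ xs ∧ xs ≤ P * x0 ∧ c0 ≤ ‖deriv L (xs : ℂ)‖ * xs := by
    by_contra hno
    push Not at hno
    have hconv : Convex ℝ ((fun t : ℝ => (t : ℂ)) '' Icc x0 (P * x0)) :=
      (convex_Icc x0 (P * x0)).linear_image Complex.ofRealCLM.toLinearMap
    have h1 := hconv.norm_image_sub_le_of_norm_deriv_le (f := L) (C := c0 / x0)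
      (x := (x0 : ℂ)) (y := ((P * x0 : ℝ) : ℂ))
      (by
        rintro _ ⟨t, ht, rfl⟩
        exact hLd.differentiableAt (hHo.mem_nhds (hxH t (lt_of_lt_of_le hx0pos ht.1))))
      (by
        rintro _ ⟨t, ht, rfl⟩
        have h2 := hno t ht.1 ht.2
        have ht0 : 0 < t := lt_of_lt_of_le hx0pos ht.1
        rw [le_div_iff₀ hx0pos]
        have h3 : ‖deriv L (t : ℂ)‖ * x0 ≤ ‖deriv L (t : ℂ)‖ * t := by
          apply mul_le_mul_of_nonneg_left ht.1 (norm_nonneg _)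
        simp only
        linarith)
      ⟨x0, ⟨le_rfl, by nlinarith⟩, rfl⟩ ⟨P * x0, ⟨by nlinarith, le_rfl⟩, rfl⟩
    have h2 := hMδ x0 hx0pos hx0δ
    have h3 : ‖μ‖ / 2 < ‖M x0‖ := by
      have h4 : ‖μ‖ ≤ ‖M x0‖ + ‖M x0 - μ‖ := by
        have : μ = M x0 - (M x0 - μ) := by ring
        calc ‖μ‖ = ‖M x0 - (M x0 - μ)‖ := by rw [← this]
          _ ≤ _ := norm_sub_le _ _
      have h5 : ε ≤ ‖μ‖ / 2 := min_le_right _ _
      linarith
    have h6 : ‖((P * x0 : ℝ) : ℂ) - (x0 : ℂ)‖ ≤ P * x0 := by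
      rw [← Complex.ofReal_sub, Complex.norm_real, Real.norm_eq_abs, abs_of_nonneg (by nlinarith)]
      linarith
    have h7 : ‖M x0‖ ≤ c0 / x0 * (P * x0) := by
      refine h1.trans ?_
      have : 0 ≤ c0 / x0 := by positivity
      gcongr
    have h8 : c0 / x0 * (P * x0) = ‖μ‖ / 4 := by
      rw [hc0]; field_simp
    rw [h8] at h7
    linarith
  have hxspos : 0 < xs := lt_of_lt_of_le hx0pos hxs1
  have hxsδ : xs < δ := by linarith
  have hxspi : xs < Real.pi := by linarith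
  -- ball around `xs`
  have hball : ∀ ζ ∈ ball (xs : ℂ) (xs / 2), ζ ∈ H ∧ |ζ.im| < Real.pi ∧ xs / 2 < ζ.re := by
    intro ζ hζ
    rw [mem_ball, Complex.dist_eq] at hζ
    have h1 : |ζ.re - xs| < xs / 2 := by
      refine lt_of_le_of_lt ?_ hζ
      simpa using Complex.abs_re_le_norm (ζ - xs)
    have h2 : |ζ.im| < xs / 2 := by
      refine lt_of_le_of_lt ?_ hζ
      simpa using Complex.abs_im_le_norm (ζ - xs)
    rw [abs_lt] at h1
    refine ⟨?_, by linarith, by linarith⟩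
    simp only [hH, mem_ofPred_eq]
    linarith
  have hLinj : InjOn L (ball (xs : ℂ) (xs / 2)) := by
    intro ζ hζ ξ hξ he
    obtain ⟨h1, h2, -⟩ := hball ζ hζ
    obtain ⟨h3, h4, -⟩ := hball ξ hξ
    apply hΦinj ζ h1 ξ h3 h2 h4
    have h5 := hLe ζ h1
    have h6 := hLe ξ h3
    rw [he, h6] at h5
    exact (sub_left_inj.mp h5).symm
  -- target point
  set w : ℂ := L ((xs / P ^ N : ℝ) : ℂ) + mm * (2 * Real.pi * I) with hw
  have hyH : ((xs / P ^ N : ℝ) : ℂ) ∈ H := hxH _ (by positivity)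
  have hwin : w ∈ L '' ball (xs : ℂ) (xs / 2) := by
    by_contra hnot
    have h1 := koebe (h := L) (a := (xs : ℂ)) (w := w) (r := xs / 2) (by positivity)
      (hLd.mono (fun ζ hζ => (hball ζ hζ).1)) hLinj hnot
    have h2 := htel N xs hxspos hxsδ
    have h3 : ‖L (xs : ℂ) - w‖ < η := by
      have h4 : L (xs : ℂ) - w = -(L ((xs / P ^ N : ℝ) : ℂ) + N * μ - L (xs : ℂ)) +
          (N * μ - mm * (2 * Real.pi * I)) := by rw [hw]; ring
      have h5 : N * ε ≤ η / 2 := by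
        have h6 : ε ≤ η / (2 * N) := min_le_left _ _
        calc N * ε ≤ N * (η / (2 * N)) := by gcongr
          _ = η / 2 := by field_simp
      rw [h4]
      refine lt_of_le_of_lt (norm_add_le _ _) ?_
      rw [norm_neg]
      linarith
    have h7 : kap * (xs / 2) * ‖deriv L (xs : ℂ)‖ < η := lt_of_le_of_lt h1 h3
    have hk := kap_pos
    have h8 : kap * (xs / 2) * ‖deriv L (xs : ℂ)‖ = kap / 2 * (‖deriv L (xs : ℂ)‖ * xs) := by ring
    rw [h8, hη] at h7
    nlinarith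
  obtain ⟨ζ, hζ, hζe⟩ := hwin
  obtain ⟨h1, h2, h3⟩ := hball ζ hζ
  have h4 : Φ ζ - z₁ = Φ ((xs / P ^ N : ℝ) : ℂ) - z₁ := by
    rw [← hLe ζ h1, ← hLe _ hyH, hζe, hw, Complex.exp_add, Complex.exp_int_mul_two_pi_mul_I,
      mul_one]
  have h5 := hΦinj ζ h1 _ hyH h2 (by rw [Complex.ofReal_im, abs_zero]; exact Real.pi_pos)
    (sub_left_inj.mp h4)
  rw [h5, Complex.ofReal_re] at h3
  have h6 : xs / P ^ N ≤ xs / 2 := by
    apply div_le_div_of_nonneg_left hxspos.le (by norm_num)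
    calc (2:ℝ) ≤ P := hP2
      _ = P ^ 1 := (pow_one P).symm
      _ ≤ P ^ N := pow_le_pow_right₀ (by linarith) hN
  linarith

end Pool.Agent.Cremer
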