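import Pool.Agent.Cremer.Land1
import Pool.Agent.Cremer.Koebe
import Pool.Agent.Cremer.NoPeriodic

open Set Filter Topology Complex MeasureTheory Metric
open scoped ENNReal

namespace Pool.Agent.Cremer.Land

variable {c : ℂ} {Ψ : ℂ → ℂ}

lemma isOpen_H : IsOpen {ζ : ℂ | 0 < ζ.re} := isOpen_lt continuous_const continuous_re

lemma per_nat (hΨ : IsPsi c Ψ) (ζ : ℂ) (hζ : 0 < ζ.re) (k : ℕ) :
    Ψ (ζ + k * (2 * Real.pi * I)) = Ψ ζ := by
  induction k with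
  | zero => simp
  | succ k ih =>
    rw [← ih, ← hΨ.per (ζ + k * (2 * Real.pi * I)) (by simpa using hζ)]
    congr 1
    push_cast
    ring

lemma per_int (hΨ : IsPsi c Ψ) (ζ : ℂ) (hζ : 0 < ζ.re) (k : ℤ) :
    Ψ (ζ + k * (2 * Real.pi * I)) = Ψ ζ := by
  obtain ⟨n, rfl | rfl⟩ := k.eq_nat_or_neg
  · exact_mod_cast per_nat hΨ ζ hζ n
  · have h := per_nat hΨ (ζ + ((-(n : ℤ) : ℤ) : ℂ) * (2 * Real.pi * I)) (by simpa using hζ) n
    rw [← h]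
    congr 1
    push_cast
    ring

lemma dbl_iter (hΨ : IsPsi c Ψ) (n : ℕ) (ζ : ℂ) (hζ : 0 < ζ.re) :
    Ψ (2 ^ n * ζ) = (f c)^[n] (Ψ ζ) := by
  induction n with
  | zero => simp
  | succ n ih =>
    have h2 : 0 < (2 ^ n * ζ).re := by
      have : (2 ^ n * ζ).re = 2 ^ n * ζ.re := by
        have : (2 : ℂ) ^ n = ((2 ^ n : ℝ) : ℂ) := by push_cast; rfl
        rw [this, Complex.re_ofReal_mul]
      rw [this]; positivity
    rw [Function.iterate_succ_apply', ← ih, pow_succ, mul_comm ((2 : ℂ) ^ n) 2, mul_assoc,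
      hΨ.dbl _ h2]
    rfl

lemma re_eq_of_eq (hΨ : IsPsi c Ψ) {ζ ξ : ℂ} (hζ : 0 < ζ.re) (hξ : 0 < ξ.re)
    (h : Ψ ζ = Ψ ξ) : ξ.re = ζ.re := by
  obtain ⟨k, rfl⟩ := hΨ.inj ζ ξ hζ hξ h
  simp

lemma isOpen_image (hΨ : IsPsi c Ψ) {O : Set ℂ} (hO : IsOpen O) (hsub : O ⊆ {ζ | 0 < ζ.re}) :
    IsOpen (Ψ '' O) := by
  have han : AnalyticOnNhd ℂ Ψ {ζ | 0 < ζ.re} := hΨ.diff.analyticOnNhd isOpen_H
  have hconv : Convex ℝ {ζ : ℂ | 0 < ζ.re} := convex_halfSpace_re_gt 0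
  rcases han.is_constant_or_isOpen hconv.isPreconnected with ⟨w, hw⟩ | h
  · exfalso
    have h1 : Ψ 1 = Ψ 2 := by rw [hw 1 (by simp), hw 2 (by simp)]
    have := re_eq_of_eq hΨ (by simp) (by simp) h1
    norm_num at this
  · exact h O hsub hO

lemma near_K (hΨ : IsPsi c Ψ) {δ : ℝ} (hδ : 0 < δ) :
    ∃ s > 0, ∀ ζ : ℂ, 0 < ζ.re → ζ.re ≤ s → ∃ k ∈ K c, dist (Ψ ζ) k < δ := by
  obtain ⟨C, hC⟩ := hΨ.asymp
  have hcomp : IsCompact (closedBall (0 : ℂ) (Real.exp 1 + C) \ thickening δ (K c)) :=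
    (isCompact_closedBall _ _).diff isOpen_thickening
  obtain ⟨n, hn⟩ := hcomp.elim_directed_cover
    (fun n : ℕ => Ψ '' {ζ : ℂ | 1 / ((n : ℝ) + 1) < ζ.re})
    (fun n => isOpen_image hΨ (isOpen_lt continuous_const continuous_re)
      (fun ζ (hζ : 1 / ((n : ℝ) + 1) < ζ.re) => lt_trans (by positivity) hζ))
    (by
      rintro u ⟨-, hu⟩
      have huK : u ∉ K c := fun h => hu (self_subset_thickening hδ _ h)
      obtain ⟨ζ, hζ, rfl⟩ := hΨ.surj u huK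
      obtain ⟨n, hn⟩ := exists_nat_one_div_lt hζ
      exact mem_iUnion.2 ⟨n, ζ, hn, rfl⟩)
    (by
      apply directed_of_isDirected_le
      intro m n hmn
      apply image_mono
      intro ζ hζ
      have hζ' : 1 / ((m : ℝ) + 1) < ζ.re := hζ
      show 1 / ((n : ℝ) + 1) < ζ.re
      have h1 : (m : ℝ) ≤ n := by exact_mod_cast hmn
      exact lt_of_le_of_lt (one_div_le_one_div_of_le (by positivity) (by linarith)) hζ')
  refine ⟨1 / ((n : ℝ) + 1), by positivity, fun ζ hζ hζs => ?_⟩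
  by_contra hcon
  push Not at hcon
  have hmem : Ψ ζ ∈ closedBall (0 : ℂ) (Real.exp 1 + C) \ thickening δ (K c) := by
    constructor
    · rw [mem_closedBall_zero_iff]
      have h1 : ζ.re ≤ 1 := hζs.trans (by
        rw [div_le_one (by positivity)]; linarith [(Nat.cast_nonneg n : (0 : ℝ) ≤ n)])
      calc ‖Ψ ζ‖ = ‖exp ζ + (Ψ ζ - exp ζ)‖ := by ring_nf
        _ ≤ ‖exp ζ‖ + ‖Ψ ζ - exp ζ‖ := norm_add_le _ _
        _ ≤ Real.exp 1 + C := by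
          rw [Complex.norm_exp]
          gcongr
          exact hC ζ hζ
    · rw [mem_thickening_iff]
      push Not
      intro k hk
      exact hcon k hk
  obtain ⟨ξ, hξ, hξeq⟩ := hn hmem
  have hξ' : 1 / ((n : ℝ) + 1) < ξ.re := hξ
  have := re_eq_of_eq hΨ (lt_trans (by positivity) hξ') hζ hξeq
  linarith

lemma injOn_ball (hΨ : IsPsi c Ψ) {ζ : ℂ} (hζ : 0 < ζ.re) (hπ : ζ.re ≤ Real.pi) :
    InjOn Ψ (ball ζ ζ.re) := by
  intro a ha b hb hab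
  have hre : ∀ a ∈ ball ζ ζ.re, 0 < a.re := by
    intro a ha
    rw [mem_ball, dist_eq_norm] at ha
    have := (abs_le.1 (abs_re_le_norm (a - ζ))).1
    simp only [sub_re] at this
    linarith
  obtain ⟨k, hk⟩ := hΨ.inj a b (hre a ha) (hre b hb) hab
  have h1 : dist b a < 2 * Real.pi := by
    calc dist b a ≤ dist b ζ + dist a ζ := dist_triangle_right _ _ _
      _ < ζ.re + ζ.re := add_lt_add hb ha
      _ ≤ 2 * Real.pi := by linarith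
  rw [hk, dist_eq_norm, add_sub_cancel_left, norm_mul, norm_mul, norm_mul, Complex.norm_I,
    Complex.norm_real, Real.norm_eq_abs, abs_of_pos Real.pi_pos] at h1
  have hk0 : k = 0 := by
    by_contra hne
    have h2 : (1 : ℝ) ≤ ‖(k : ℂ)‖ := by
      rw [Complex.norm_intCast]
      exact_mod_cast Int.one_le_abs hne
    have h3 : ‖(2 : ℂ)‖ = 2 := by simp
    rw [h3] at h1
    nlinarith [Real.pi_pos]
  rw [hk, hk0]; simp

lemma ball_sub_H {ζ : ℂ} : ball ζ ζ.re ⊆ {ζ : ℂ | 0 < ζ.re} := by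
  intro a ha
  rw [mem_ball, dist_eq_norm] at ha
  have := (abs_le.1 (abs_re_le_norm (a - ζ))).1
  simp only [sub_re] at this
  show 0 < a.re
  linarith

lemma littleBloch (hΨ : IsPsi c Ψ) {ε : ℝ} (hε : 0 < ε) :
    ∃ s > 0, ∀ ζ : ℂ, 0 < ζ.re → ζ.re ≤ s → ‖deriv Ψ ζ‖ * ζ.re ≤ ε := by
  obtain ⟨s, hs, hs'⟩ := near_K hΨ (mul_pos kap_pos hε)
  refine ⟨min s Real.pi, lt_min hs Real.pi_pos, fun ζ hζ hζs => ?_⟩
  obtain ⟨k, hk, hdist⟩ := hs' ζ hζ (hζs.trans (min_le_left _ _))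
  have hkn : k ∉ Ψ '' ball ζ ζ.re := by
    rintro ⟨ξ, hξ, rfl⟩
    exact hΨ.notMem ξ (ball_sub_H hξ) hk
  have h1 := koebe hζ (hΨ.diff.mono ball_sub_H)
    (injOn_ball hΨ hζ (hζs.trans (min_le_right _ _))) hkn
  rw [← dist_eq_norm] at h1
  have h2 : kap * (‖deriv Ψ ζ‖ * ζ.re) ≤ kap * ε := by
    calc kap * (‖deriv Ψ ζ‖ * ζ.re) = kap * ζ.re * ‖deriv Ψ ζ‖ := by ring
      _ ≤ dist (Ψ ζ) k := h1
      _ ≤ kap * ε := hdist.le
  exact le_of_mul_le_mul_left h2 kap_pos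

lemma re_small (hΨ : IsPsi c Ψ) {z₁ : ℂ} (hz : z₁ ∈ K c) {s : ℝ} (hs : 0 < s) :
    ∃ δ > 0, ∀ ζ : ℂ, 0 < ζ.re → dist (Ψ ζ) z₁ < δ → ζ.re < s := by
  obtain ⟨C, hC⟩ := hΨ.asymp
  set T : ℝ := Real.log (‖z₁‖ + 1 + |C|) with hT
  set D : Set ℂ := Ψ '' (Icc s T ×ℂ Icc (-Real.pi) Real.pi) with hD
  have hDc : IsCompact D := by
    apply (isCompact_Icc.reProdIm isCompact_Icc).image_of_continuousOn
    refine hΨ.diff.continuousOn.mono ?_
    intro ζ hζ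
    exact lt_of_lt_of_le hs (mem_reProdIm.1 hζ).1.1
  have hzD : z₁ ∉ D := by
    rintro ⟨ζ, hζ, h⟩
    exact hΨ.notMem ζ (lt_of_lt_of_le hs (mem_reProdIm.1 hζ).1.1) (h ▸ hz)
  obtain ⟨δ, hδ, hδ'⟩ := Metric.isOpen_iff.1 hDc.isClosed.isOpen_compl z₁ hzD
  refine ⟨min δ 1, lt_min hδ one_pos, fun ζ hζ hdist => ?_⟩
  by_contra hcon
  push Not at hcon
  have hζT : ζ.re ≤ T := by
    have h1 : ‖exp ζ‖ ≤ ‖z₁‖ + 1 + |C| := by
      calc ‖exp ζ‖ = ‖z₁ + (Ψ ζ - z₁) - (Ψ ζ - exp ζ)‖ := by ring_nf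
        _ ≤ ‖z₁ + (Ψ ζ - z₁)‖ + ‖Ψ ζ - exp ζ‖ := norm_sub_le _ _
        _ ≤ ‖z₁‖ + ‖Ψ ζ - z₁‖ + ‖Ψ ζ - exp ζ‖ := by gcongr; exact norm_add_le _ _
        _ ≤ ‖z₁‖ + 1 + |C| := by
          gcongr
          · rw [← dist_eq_norm]; exact (hdist.trans_le (min_le_right _ _)).le
          · exact (hC ζ hζ).trans (le_abs_self C)
    rw [Complex.norm_exp] at h1
    rw [hT, Real.le_log_iff_exp_le (by positivity)]
    exact h1
  set k : ℤ := -round (ζ.im / (2 * Real.pi)) with hk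
  have hmem : ζ + k * (2 * Real.pi * I) ∈ Icc s T ×ℂ Icc (-Real.pi) Real.pi := by
    rw [mem_reProdIm]
    have hre : (ζ + k * (2 * Real.pi * I)).re = ζ.re := by simp
    have him : (ζ + k * (2 * Real.pi * I)).im = ζ.im + k * (2 * Real.pi) := by simp
    rw [hre, him]
    refine ⟨⟨hcon, hζT⟩, ?_⟩
    have h1 := abs_sub_round (ζ.im / (2 * Real.pi))
    have h2 : ζ.im + k * (2 * Real.pi)
        = (ζ.im / (2 * Real.pi) - round (ζ.im / (2 * Real.pi))) * (2 * Real.pi) := by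
      rw [hk]; push_cast; field_simp; ring
    have h3 : |ζ.im + k * (2 * Real.pi)| ≤ Real.pi := by
      rw [h2, abs_mul, abs_of_pos (by positivity : (0 : ℝ) < 2 * Real.pi)]
      nlinarith [Real.pi_pos]
    exact ⟨by linarith [(abs_le.1 h3).1], (abs_le.1 h3).2⟩
  have h1 : Ψ ζ ∈ D := ⟨_, hmem, per_int hΨ ζ hζ k⟩
  have h2 : Ψ ζ ∈ ball z₁ δ := hdist.trans_le (min_le_left _ _)
  exact hδ' h2 h1

end Pool.Agent.Cremer.Land
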