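import Pool.Agent.Cremer.Land2

/-!
# An accessible fixed point is the landing point of an external ray
-/

open Set Filter Topology Complex MeasureTheory Metric
open scoped ENNReal

namespace Pool.Agent.Cremer.Land

variable {c : ℂ} {Ψ : ℂ → ℂ}

lemma seg_le (hΨ : IsPsi c Ψ) {ε s ρ : ℝ} (hρ : 0 < ρ)
    (hs : ∀ ζ : ℂ, 0 < ζ.re → ζ.re ≤ s → ‖deriv Ψ ζ‖ * ζ.re ≤ ε) {a b : ℂ}
    (ha : a.re ∈ Icc ρ s) (hb : b.re ∈ Icc ρ s) : ‖Ψ b - Ψ a‖ ≤ ε / ρ * ‖b - a‖ := by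
  have hconv : Convex ℝ {ζ : ℂ | ζ.re ∈ Icc ρ s} :=
    (convex_Icc ρ s).linear_preimage Complex.reLm
  refine Convex.norm_image_sub_le_of_norm_deriv_le (s := {ζ : ℂ | ζ.re ∈ Icc ρ s}) ?_ ?_ hconv ha hb
  · intro ζ hζ
    have hpos : 0 < ζ.re := lt_of_lt_of_le hρ hζ.1
    exact (hΨ.diff ζ hpos).differentiableAt (isOpen_H.mem_nhds hpos)
  · intro ζ hζ
    have hpos : 0 < ζ.re := lt_of_lt_of_le hρ hζ.1
    have h1 := hs ζ hpos hζ.2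
    rw [le_div_iff₀ hρ]
    calc ‖deriv Ψ ζ‖ * ρ ≤ ‖deriv Ψ ζ‖ * ζ.re := by gcongr; exact hζ.1
      _ ≤ ε := h1

lemma contOn_real (hΨ : IsPsi c Ψ) (y : ℝ) :
    ContinuousOn (fun x : ℝ => Ψ (x + y * I)) (Ioi 0) := by
  refine hΨ.diff.continuousOn.comp (by fun_prop) ?_
  intro x hx
  simpa using hx

/-- Points of the ray of angle `0` stay away from `z₁` unless the ray lands there. -/
lemma ray0 (hΨ : IsPsi c Ψ) {z₁ : ℂ} (hfix : f c z₁ = z₁) (h2 : 2 * z₁ ≠ 1)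
    (hnl : ¬ Lands Ψ 0 z₁) :
    ∃ s₀ > 0, ∃ δ₀ > 0, ∀ x : ℝ, 0 < x → x < s₀ → δ₀ ≤ dist (Ψ x) z₁ := by
  by_contra hcon
  push Not at hcon
  apply hnl
  unfold Lands
  rw [Metric.tendsto_nhds]
  intro ε hε
  set D : ℝ := ‖2 * z₁ - 1‖ with hD
  have hDpos : 0 < D := norm_pos_iff.2 (sub_ne_zero.2 h2)
  set ε' : ℝ := min ε (D / 2) with hε'
  have hε'pos : 0 < ε' := lt_min hε (by positivity)
  have hε'D : ε' ≤ D / 2 := min_le_right _ _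
  obtain ⟨s, hs, hs'⟩ := littleBloch hΨ (show 0 < ε' * D / 4 by positivity)
  -- on the small part of the ray, the distance to `z₁` is never equal to `ε'`
  have hne : ∀ x : ℝ, 0 < x → x < s / 2 → dist (Ψ x) z₁ ≠ ε' := by
    intro x hx hxs heq
    have h1 : ‖Ψ (2 * x) - Ψ x‖ ≤ ε' * D / 4 := by
      have := seg_le hΨ (ρ := x) hx hs' (a := (x : ℂ)) (b := 2 * x)
        ⟨by simp, by simp; linarith⟩ ⟨by simp; linarith, by simp; linarith⟩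
      refine this.trans ?_
      have h3 : ‖(2 * x - x : ℂ)‖ = x := by
        rw [show (2 * x - x : ℂ) = (x : ℂ) by ring, Complex.norm_real, Real.norm_eq_abs,
          abs_of_pos hx]
      rw [h3, div_mul_cancel₀ _ hx.ne']
    have h4 : Ψ (2 * x) - Ψ x = (Ψ x - z₁) * ((Ψ x - z₁) + (2 * z₁ - 1)) := by
      rw [hΨ.dbl _ (by simpa using hx)]
      have : z₁ ^ 2 + c = z₁ := hfix
      linear_combination this
    rw [dist_eq_norm] at heq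
    rw [h4, norm_mul, heq] at h1
    have h5 : D - ε' ≤ ‖(Ψ x - z₁) + (2 * z₁ - 1)‖ := by
      have := norm_sub_norm_le (2 * z₁ - 1) (-(Ψ x - z₁))
      rw [norm_neg, heq, ← hD] at this
      refine this.trans (le_of_eq ?_)
      ring_nf
    have h6 : ε' * (D / 2) ≤ ε' * ‖(Ψ x - z₁) + (2 * z₁ - 1)‖ := by
      apply mul_le_mul_of_nonneg_left _ hε'pos.le
      linarith
    nlinarith [mul_pos hε'pos hDpos]
  obtain ⟨x₀, hx₀, hx₀s, hx₀d⟩ := hcon (s / 2) (by positivity) ε' hε'pos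
  have hcont : ContinuousOn (fun x : ℝ => dist (Ψ x) z₁) (Ioo 0 (s / 2)) := by
    have h1 : ContinuousOn (fun x : ℝ => Ψ x) (Ioo 0 (s / 2)) := by
      simpa using (contOn_real hΨ 0).mono (Ioo_subset_Ioi_self : Ioo (0 : ℝ) (s / 2) ⊆ Ioi 0)
    exact Continuous.comp_continuousOn (g := fun w : ℂ => dist w z₁) (by fun_prop) h1
  have hall : ∀ x : ℝ, 0 < x → x < s / 2 → dist (Ψ x) z₁ < ε' := by
    intro x hx hxs
    by_contra hge
    push Not at hge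
    have := isPreconnected_Ioo.intermediate_value (show x₀ ∈ Ioo 0 (s / 2) from ⟨hx₀, hx₀s⟩)
      (show x ∈ Ioo 0 (s / 2) from ⟨hx, hxs⟩) hcont
    obtain ⟨x', hx', hx'e⟩ := this ⟨hx₀d.le, hge⟩
    exact hne x' hx'.1 hx'.2 hx'e
  have hmem : Ioo (0 : ℝ) (s / 2) ∈ 𝓝[>] (0 : ℝ) := Ioo_mem_nhdsGT (by positivity)
  filter_upwards [hmem] with x hx
  have := (hall x hx.1 hx.2).trans_le (min_le_left _ _)
  simpa using this

/-- Lifting of paths in the complement of `K c`. -/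
lemma exists_lift (hΨ : IsPsi c Ψ) {e : ℝ → ℂ} (hc : ContinuousOn e (Icc 0 1))
    (he : ∀ t ∈ Ico (0 : ℝ) 1, e t ∉ K c) :
    ∃ ζ : ℝ → ℂ, ContinuousOn ζ (Ico 0 1) ∧
      ∀ t ∈ Ico (0 : ℝ) 1, 0 < (ζ t).re ∧ Ψ (ζ t) = e t := by
  classical
  choose ζ₀ hζ₀ hζ₀' using hΨ.surj
  set φ : ℂ → ℂ := fun u => if h : u ∉ K c then exp (ζ₀ u h) else 1 with hφ
  have hφe : ∀ u (h : u ∉ K c), φ u = exp (ζ₀ u h) := fun u h => by simp only [hφ, dif_pos h]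
  have hφΨ : ∀ ξ : ℂ, 0 < ξ.re → φ (Ψ ξ) = exp ξ := by
    intro ξ hξ
    rw [hφe _ (hΨ.notMem ξ hξ)]
    obtain ⟨k, hk⟩ := hΨ.inj ξ _ hξ (hζ₀ (Ψ ξ) (hΨ.notMem ξ hξ)) (hζ₀' _ _).symm
    rw [hk, Complex.exp_periodic.int_mul k ξ]
  have hφc : ∀ u, u ∉ K c → ContinuousAt φ u := by
    intro u hu
    obtain ⟨ξ, hξ, rfl⟩ := hΨ.surj u hu
    rw [ContinuousAt, hφΨ ξ hξ]
    intro V hV
    have h1 : ∀ᶠ w in 𝓝 ξ, exp w ∈ V ∧ 0 < w.re :=
      (Complex.continuous_exp.continuousAt.eventually hV).and (isOpen_H.mem_nhds hξ)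
    obtain ⟨O, hO, hOo, hξO⟩ := _root_.mem_nhds_iff.1 h1
    have h2 : Ψ '' O ∈ 𝓝 (Ψ ξ) :=
      (isOpen_image hΨ hOo (fun w hw => (hO hw).2)).mem_nhds ⟨ξ, hξO, rfl⟩
    refine mem_map.2 (mem_of_superset h2 ?_)
    rintro _ ⟨w, hw, rfl⟩
    show φ (Ψ w) ∈ V
    rw [hφΨ w (hO hw).2]
    exact (hO hw).1
  set g : ℝ → ℂ := fun t => φ (e (max t 0)) with hg
  have hmax : ∀ t ∈ Iio (1 : ℝ), max t 0 ∈ Ico (0 : ℝ) 1 := fun t ht =>
    ⟨le_max_right _ _, max_lt ht one_pos⟩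
  have hgc : ContinuousOn g (Iio 1) := by
    have h1 : ContinuousOn (fun t : ℝ => e (max t 0)) (Iio 1) :=
      hc.comp (by fun_prop) (fun t ht => Ico_subset_Icc_self (hmax t ht))
    have h2 : ContinuousOn φ (K c)ᶜ := fun u hu => (hφc u hu).continuousWithinAt
    exact h2.comp h1 (fun t ht => he _ (hmax t ht))
  have hg0 : (0 : ℂ) ∉ g '' Iio 1 := by
    rintro ⟨t, ht, h⟩
    simp only [hg] at h
    rw [hφe _ (he _ (hmax t ht))] at h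
    exact Complex.exp_ne_zero _ h
  have hsc : IsSimplyConnected (Iio (1 : ℝ)) := by
    have := (convex_Iio (1 : ℝ)).contractibleSpace ⟨0, by simp⟩
    exact SimplyConnectedSpace.ofContractible _
  obtain ⟨L, hLc, hL⟩ := exists_continuousOn_eqOn_exp_comp hsc isOpen_Iio hgc hg0
  refine ⟨L, hLc.mono (fun t ht => ht.2), fun t ht => ?_⟩
  have h1 : exp (L t) = g t := hL ht.2
  have h2 : g t = exp (ζ₀ (e t) (he t ht)) := by
    simp only [hg, max_eq_left ht.1]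
    exact hφe _ _
  rw [h2, Complex.exp_eq_exp_iff_exists_int] at h1
  obtain ⟨n, hn⟩ := h1
  constructor
  · rw [hn]
    have := hζ₀ (e t) (he t ht)
    simpa using this
  · rw [hn, per_int hΨ _ (hζ₀ _ _)]
    exact hζ₀' _ _


/-- The imaginary part of the lifted path converges. -/
lemma im_tendsto (hΨ : IsPsi c Ψ) {z₁ : ℂ} (hfix : f c z₁ = z₁) (h2 : 2 * z₁ ≠ 1)
    (hnl : ¬ Lands Ψ 0 z₁) (hz : z₁ ∈ K c) {e : ℝ → ℂ} {ζ : ℝ → ℂ}
    (hζc : ContinuousOn ζ (Ico 0 1)) (hζ : ∀ t ∈ Ico (0 : ℝ) 1, 0 < (ζ t).re ∧ Ψ (ζ t) = e t)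
    (he : Tendsto e (𝓝[<] 1) (𝓝 z₁)) :
    ∃ y₀, Tendsto (fun t => (ζ t).im) (𝓝[<] 1) (𝓝 y₀) := by
  obtain ⟨s₀, hs₀, δ₀, hδ₀, hray⟩ := ray0 hΨ hfix h2 hnl
  rw [← cauchy_map_iff_exists_tendsto, Metric.cauchy_iff]
  refine ⟨inferInstance, fun ε hε => ?_⟩
  obtain ⟨n, hn⟩ := pow_unbounded_of_one_lt (2 * Real.pi / ε) (one_lt_two)
  have h2n : (0 : ℝ) < 2 ^ n := by positivity
  have hn' : 2 * Real.pi / 2 ^ n < ε := by
    rw [div_lt_iff₀ hε] at hn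
    rw [div_lt_iff₀ h2n]
    linarith
  have hfn : Continuous ((f c)^[n]) := by
    apply Continuous.iterate
    unfold f
    fun_prop
  have h3 : Tendsto (fun t => (f c)^[n] (e t)) (𝓝[<] 1) (𝓝 z₁) := by
    have := (hfn.tendsto z₁).comp he
    rwa [Function.iterate_fixed hfix] at this
  obtain ⟨δ, hδ, hre⟩ := re_small hΨ hz (show 0 < s₀ / 2 ^ n by positivity)
  have h4 : ∀ᶠ t in 𝓝[<] (1 : ℝ), dist ((f c)^[n] (e t)) z₁ < δ₀ ∧ dist (e t) z₁ < δ ∧ 0 < t :=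
    ((Metric.tendsto_nhds.1 h3) δ₀ hδ₀).and (((Metric.tendsto_nhds.1 he) δ hδ).and
      (mem_nhdsWithin_of_mem_nhds (Ioi_mem_nhds one_pos)))
  obtain ⟨T, hT, hTsub⟩ := (mem_nhdsLT_iff_exists_Ioo_subset' (show (0 : ℝ) < 1 from one_pos)).1 h4
  refine ⟨(fun t => (ζ t).im) '' Ioo (max T 0) 1, image_mem_map (Ioo_mem_nhdsLT
    (max_lt hT one_pos)), ?_⟩
  have hIoo : ∀ t ∈ Ioo (max T 0) 1, t ∈ Ioo T 1 ∧ t ∈ Ico (0 : ℝ) 1 := fun t ht =>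
    ⟨⟨(le_max_left _ _).trans_lt ht.1, ht.2⟩, ⟨((le_max_right _ _).trans_lt ht.1).le, ht.2⟩⟩
  -- no value `2 π k / 2 ^ n` is taken
  have hnot : ∀ t ∈ Ioo (max T 0) 1, ∀ k : ℤ, (ζ t).im ≠ k * (2 * Real.pi / 2 ^ n) := by
    intro t ht k hk
    obtain ⟨ht1, ht2⟩ := hIoo t ht
    have h5 : dist ((f c)^[n] (e t)) z₁ < δ₀ ∧ dist (e t) z₁ < δ ∧ 0 < t := hTsub ht1
    have h6 := hζ t ht2
    rw [← h6.2, ← dbl_iter hΨ n _ h6.1] at h5
    have h7 : (2 : ℂ) ^ n * ζ t = ((2 ^ n * (ζ t).re : ℝ) : ℂ) + k * (2 * Real.pi * I) := by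
      have h8 : ζ t = ((ζ t).re : ℂ) + ((k * (2 * Real.pi / 2 ^ n) : ℝ) : ℂ) * I := by
        rw [← hk]; exact (re_add_im _).symm
      have h9 : (2 : ℂ) ^ n ≠ 0 := pow_ne_zero _ two_ne_zero
      conv_lhs => rw [h8]
      push_cast
      field_simp
    rw [h7, per_int hΨ _ (by rw [ofReal_re]; exact mul_pos h2n h6.1)] at h5
    have h10 : (ζ t).re < s₀ / 2 ^ n := hre _ h6.1 h5.2.1
    have h11 := hray (2 ^ n * (ζ t).re) (mul_pos h2n h6.1) (by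
      rw [lt_div_iff₀ h2n] at h10; linarith)
    linarith [h5.1]
  have hkey : ∀ t ∈ Ioo (max T 0) 1, ∀ t' ∈ Ioo (max T 0) 1,
      (ζ t').im - (ζ t).im < ε := by
    intro t ht t' ht'
    by_contra hge
    push Not at hge
    have hsub : uIcc t t' ⊆ Ioo (max T 0) 1 := ordConnected_Ioo.uIcc_subset ht ht'
    have hc : ContinuousOn (fun t => (ζ t).im) (uIcc t t') :=
      Complex.continuous_im.comp_continuousOn (hζc.mono fun x hx => (hIoo x (hsub hx)).2)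
    have hpos : 0 < 2 * Real.pi / 2 ^ n := by positivity
    set k : ℤ := ⌈(ζ t).im / (2 * Real.pi / 2 ^ n)⌉ with hk
    have hk1 : (ζ t).im ≤ k * (2 * Real.pi / 2 ^ n) := by
      have := Int.le_ceil ((ζ t).im / (2 * Real.pi / 2 ^ n))
      rwa [div_le_iff₀ hpos] at this
    have hk2 : k * (2 * Real.pi / 2 ^ n) ≤ (ζ t').im := by
      have := Int.ceil_lt_add_one ((ζ t).im / (2 * Real.pi / 2 ^ n))
      have h5 : (k : ℝ) * (2 * Real.pi / 2 ^ n) < (ζ t).im + 2 * Real.pi / 2 ^ n := by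
        calc (k : ℝ) * (2 * Real.pi / 2 ^ n)
            < ((ζ t).im / (2 * Real.pi / 2 ^ n) + 1) * (2 * Real.pi / 2 ^ n) := by gcongr
          _ = (ζ t).im + 2 * Real.pi / 2 ^ n := by field_simp
      linarith
    have hmem : (k : ℝ) * (2 * Real.pi / 2 ^ n) ∈ uIcc ((ζ t).im) ((ζ t').im) :=
      Icc_subset_uIcc ⟨hk1, hk2⟩
    obtain ⟨x, hx, hxe⟩ := intermediate_value_uIcc hc hmem
    exact hnot x (hsub hx) k hxe
  rintro _ ⟨t, ht, rfl⟩ _ ⟨t', ht', rfl⟩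
  rw [Real.dist_eq, abs_sub_lt_iff]
  exact ⟨hkey t' ht' t ht, hkey t ht t' ht'⟩


lemma injOn_strip (hΨ : IsPsi c Ψ) (y₀ : ℝ) :
    InjOn Ψ {ζ : ℂ | ζ.re ∈ Ioo (0 : ℝ) 1 ∧ ζ.im ∈ Ioo (y₀ - 1) (y₀ + 1)} := by
  intro a ha b hb hab
  obtain ⟨k, hk⟩ := hΨ.inj a b ha.1.1 hb.1.1 hab
  have him : b.im - a.im = k * (2 * Real.pi) := by rw [hk]; simp
  have h1 : |b.im - a.im| < 2 := by
    rw [abs_sub_lt_iff]
    constructor <;> linarith [ha.2.1, ha.2.2, hb.2.1, hb.2.2]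
  have hk0 : k = 0 := by
    by_contra hne
    have h2 : (1 : ℝ) ≤ |(k : ℝ)| := by exact_mod_cast Int.one_le_abs hne
    rw [him, abs_mul, abs_of_pos (by positivity : (0 : ℝ) < 2 * Real.pi)] at h1
    nlinarith [Real.pi_gt_three]
  rw [hk, hk0]; simp

/-- From a lifted path converging to `i y₀`, one gets landing of the ray. -/
lemma lands_of_path (hΨ : IsPsi c Ψ) {z₁ : ℂ} (hz : z₁ ∈ K c) {e : ℝ → ℂ} {ζ : ℝ → ℂ}
    (hζc : ContinuousOn ζ (Ico 0 1)) (hζ : ∀ t ∈ Ico (0 : ℝ) 1, 0 < (ζ t).re ∧ Ψ (ζ t) = e t)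
    (he : Tendsto e (𝓝[<] 1) (𝓝 z₁)) {y₀ : ℝ}
    (hy : Tendsto (fun t => (ζ t).im) (𝓝[<] 1) (𝓝 y₀)) :
    Tendsto (fun s : ℝ => Ψ (s + y₀ * I)) (𝓝[>] 0) (𝓝 z₁) := by
  rw [Metric.tendsto_nhds]
  intro ε hε
  set η : ℝ := ε / 5 with hη
  have hηpos : 0 < η := by positivity
  obtain ⟨s₁, hs₁, hBl⟩ := littleBloch hΨ hηpos
  obtain ⟨C, hC⟩ := hΨ.asymp
  have hb : ∀ ζ : ℂ, ζ.re ∈ Ioo (0 : ℝ) 1 → ‖Ψ ζ‖ ≤ Real.exp 1 + C := by
    intro ζ hζ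
    calc ‖Ψ ζ‖ = ‖exp ζ + (Ψ ζ - exp ζ)‖ := by ring_nf
      _ ≤ ‖exp ζ‖ + ‖Ψ ζ - exp ζ‖ := norm_add_le _ _
      _ ≤ Real.exp 1 + C := by
        rw [Complex.norm_exp]
        gcongr
        · exact hζ.2.le
        · exact hC ζ hζ.1
  obtain ⟨R₀, hR₀, hLA⟩ := lengthArea hΨ.diff (injOn_strip hΨ y₀) hb hηpos
  have h4 : ∀ᶠ t in 𝓝[<] (1 : ℝ), dist (e t) z₁ < η := (Metric.tendsto_nhds.1 he) η hηpos
  obtain ⟨T, hT, hTsub⟩ := (mem_nhdsLT_iff_exists_Ioo_subset' (show (0 : ℝ) < 1 from one_pos)).1 h4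
  have hT0 : max T 0 < 1 := max_lt hT one_pos
  obtain ⟨t₁, ht₁⟩ := exists_between hT0
  have hIco : ∀ t, t₁ ≤ t → t < 1 → t ∈ Ico (0 : ℝ) 1 := fun t h h' =>
    ⟨((le_max_right T 0).trans ht₁.1.le).trans h, h'⟩
  set N : ℝ → ℝ := fun t => max (ζ t).re |(ζ t).im - y₀| with hN
  have hNc : ContinuousOn N (Ico 0 1) :=
    (Complex.continuous_re.comp_continuousOn hζc).sup
      ((Complex.continuous_im.comp_continuousOn hζc).sub continuousOn_const).abs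
  have hN1 : 0 < N t₁ := lt_max_of_lt_left (hζ t₁ (hIco t₁ le_rfl ht₁.2)).1
  -- `N` tends to zero
  have hNsmall : ∀ r : ℝ, 0 < r → ∀ᶠ t in 𝓝[<] (1 : ℝ), N t < r := by
    intro r hr
    obtain ⟨δ, hδ, hre⟩ := re_small hΨ hz hr
    have h5 : ∀ᶠ t in 𝓝[<] (1 : ℝ), dist (e t) z₁ < δ := (Metric.tendsto_nhds.1 he) δ hδ
    have h6 : ∀ᶠ t in 𝓝[<] (1 : ℝ), dist (ζ t).im y₀ < r := (Metric.tendsto_nhds.1 hy) r hr
    have h7 : ∀ᶠ t in 𝓝[<] (1 : ℝ), t ∈ Ioo (0 : ℝ) 1 := Ioo_mem_nhdsLT one_pos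
    filter_upwards [h5, h6, h7] with t ht5 ht6 ht7
    have h8 := hζ t ⟨ht7.1.le, ht7.2⟩
    rw [hN]
    refine max_lt (hre _ h8.1 (by rw [h8.2]; exact ht5)) ?_
    rwa [← Real.dist_eq]
  have hs₀ : 0 < min (min s₁ R₀) (min (N t₁) 1) := by positivity
  filter_upwards [Ioo_mem_nhdsGT hs₀] with s hs
  have hs_s₁ : s < s₁ := hs.2.trans_le ((min_le_left _ _).trans (min_le_left _ _))
  have hs_R₀ : s < R₀ := hs.2.trans_le ((min_le_left _ _).trans (min_le_right _ _))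
  have hs_N : s < N t₁ := hs.2.trans_le ((min_le_right _ _).trans (min_le_left _ _))
  obtain ⟨r, hr, hr'⟩ := hLA s hs.1 hs_R₀
  have hrpos : 0 < r := lt_trans (by linarith [hs.1]) hr.1
  -- crossing point
  have hev : ∀ᶠ t in 𝓝[<] (1 : ℝ), N t < r ∧ t ∈ Ioo t₁ 1 :=
    (hNsmall r hrpos).and (Ioo_mem_nhdsLT ht₁.2)
  obtain ⟨t₂, ht₂, ht₂'⟩ := hev.exists
  have hcross : ∃ t ∈ Icc t₁ t₂, N t = r := by
    have hsub : Icc t₁ t₂ ⊆ Ico 0 1 := fun t ht => hIco t ht.1 (ht.2.trans_lt ht₂'.2)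
    have := intermediate_value_Icc' ht₂'.1.le (hNc.mono hsub)
    exact this ⟨ht₂.le, by linarith [hr.2]⟩
  obtain ⟨t, ht, htr⟩ := hcross
  have ht1 : t ∈ Ico (0 : ℝ) 1 := hIco t ht.1 (ht.2.trans_lt ht₂'.2)
  have htT : t ∈ Ioo T 1 := ⟨((le_max_left T 0).trans_lt ht₁.1).trans_le ht.1, ht1.2⟩
  have hed : dist (e t) z₁ < η := hTsub htT
  have hζt := hζ t ht1
  have hX : (ζ t).re ≤ r := by rw [← htr]; exact le_max_left _ _
  have hY : |(ζ t).im - y₀| ≤ r := by rw [← htr]; exact le_max_right _ _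
  have hvert : ∀ y : ℝ, |y - y₀| ≤ r → ‖Ψ (r + y * I) - Ψ (r + y₀ * I)‖ ≤ η := by
    intro y hy'
    have hre : ∀ y : ℝ, ((r : ℂ) + y * I).re = r := by intro y; simp
    have h1 := seg_le hΨ (ρ := r) hrpos hBl (a := r + y₀ * I) (b := r + y * I)
      (by rw [hre]; exact ⟨le_rfl, by linarith [hr.2]⟩)
      (by rw [hre]; exact ⟨le_rfl, by linarith [hr.2]⟩)
    refine h1.trans ?_
    have h2 : ‖(r + y * I : ℂ) - (r + y₀ * I)‖ = |y - y₀| := by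
      rw [show (r + y * I : ℂ) - (r + y₀ * I) = ((y - y₀ : ℝ) : ℂ) * I by push_cast; ring,
        norm_mul, Complex.norm_I, mul_one, Complex.norm_real, Real.norm_eq_abs]
    rw [h2]
    calc η / r * |y - y₀| ≤ η / r * r := by gcongr
      _ = η := by field_simp
  have hside : ‖Ψ (ζ t) - Ψ (r + y₀ * I)‖ ≤ 2 * η := by
    rcases max_choice (ζ t).re |(ζ t).im - y₀| with hmx | hmx
    · have hXr : (ζ t).re = r := by rw [← htr, hN]; exact hmx.symm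
      have h1 : ζ t = (r : ℂ) + (ζ t).im * I := by rw [← hXr]; exact (re_add_im _).symm
      rw [h1]
      linarith [hvert _ hY]
    · have hYr : |(ζ t).im - y₀| = r := by rw [← htr, hN]; exact hmx.symm
      rcases (abs_eq hrpos.le).1 hYr with h1 | h1
      · have h2 : ζ t = ((ζ t).re : ℂ) + (y₀ + r : ℝ) * I := by
          rw [← h1, add_sub_cancel]; exact (re_add_im _).symm
        have h3 := (hr' (ζ t).re ⟨hζt.1, hX⟩).1
        rw [← h2] at h3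
        have h4 := hvert (y₀ + r) (by rw [add_sub_cancel_left, abs_of_pos hrpos])
        calc ‖Ψ (ζ t) - Ψ (r + y₀ * I)‖
            ≤ ‖Ψ (ζ t) - Ψ (r + (y₀ + r : ℝ) * I)‖
              + ‖Ψ (r + (y₀ + r : ℝ) * I) - Ψ (r + y₀ * I)‖ := norm_sub_le_norm_sub_add_norm_sub _ _ _
          _ ≤ η + η := add_le_add h3 h4
          _ = 2 * η := by ring
      · have h2 : ζ t = ((ζ t).re : ℂ) + (y₀ - r : ℝ) * I := by
          rw [show y₀ - r = (ζ t).im by linarith]; exact (re_add_im _).symm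
        have h3 := (hr' (ζ t).re ⟨hζt.1, hX⟩).2
        rw [← h2] at h3
        have h4 := hvert (y₀ - r) (by rw [sub_sub_cancel_left, abs_neg, abs_of_pos hrpos])
        calc ‖Ψ (ζ t) - Ψ (r + y₀ * I)‖
            ≤ ‖Ψ (ζ t) - Ψ (r + (y₀ - r : ℝ) * I)‖
              + ‖Ψ (r + (y₀ - r : ℝ) * I) - Ψ (r + y₀ * I)‖ := norm_sub_le_norm_sub_add_norm_sub _ _ _
          _ ≤ η + η := add_le_add h3 h4
          _ = 2 * η := by ring
  have hhor : ‖Ψ (s + y₀ * I) - Ψ (r + y₀ * I)‖ ≤ η := by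
    have hre : ∀ x : ℝ, ((x : ℂ) + y₀ * I).re = x := by intro x; simp
    have h1 := seg_le hΨ (ρ := r) hrpos hBl (a := r + y₀ * I) (b := s + y₀ * I)
      (by rw [hre]; exact ⟨le_rfl, by linarith [hr.2]⟩)
      (by rw [hre]; exact ⟨hr.2.le, hs_s₁.le⟩)
    refine h1.trans ?_
    have h2 : ‖(s + y₀ * I : ℂ) - (r + y₀ * I)‖ = s - r := by
      rw [show (s + y₀ * I : ℂ) - (r + y₀ * I) = ((s - r : ℝ) : ℂ) by push_cast; ring,
        Complex.norm_real, Real.norm_eq_abs, abs_of_pos (by linarith [hr.2])]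
    rw [h2]
    calc η / r * (s - r) ≤ η / r * r := by gcongr; linarith [hr.1]
      _ = η := by field_simp
  rw [dist_eq_norm] at hed ⊢
  rw [← hζt.2] at hed
  have h9 : Ψ (s + y₀ * I) - z₁
      = (Ψ (s + y₀ * I) - Ψ (r + y₀ * I)) - (Ψ (ζ t) - Ψ (r + y₀ * I)) + (Ψ (ζ t) - z₁) := by
    ring
  rw [h9]
  calc _ ≤ ‖(Ψ (s + y₀ * I) - Ψ (r + y₀ * I)) - (Ψ (ζ t) - Ψ (r + y₀ * I))‖
        + ‖Ψ (ζ t) - z₁‖ := norm_add_le _ _
    _ ≤ ‖Ψ (s + y₀ * I) - Ψ (r + y₀ * I)‖ + ‖Ψ (ζ t) - Ψ (r + y₀ * I)‖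
        + ‖Ψ (ζ t) - z₁‖ := by gcongr; exact norm_sub_le _ _
    _ < ε := by rw [hη] at *; linarith

end Pool.Agent.Cremer.Land

namespace Pool.Agent.Cremer

open Land

theorem exists_landing {c z₁ : ℂ} {α : ℝ} (h0 : (0 : ℂ) ∈ K c) {Ψ : ℂ → ℂ} (hΨ : IsPsi c Ψ)
    (hα : Irrational α) (hfix : f c z₁ = z₁) (hmul : 2 * z₁ = exp (2 * Real.pi * α * I))
    (hacc : Accessible c z₁) : ∃ θ : ℝ, Lands Ψ θ z₁ := by
  have h2 : 2 * z₁ ≠ 1 := by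
    intro h
    rw [hmul, Complex.exp_eq_one_iff] at h
    obtain ⟨n, hn⟩ := h
    have h3 : (α : ℂ) = n := by
      have hpi : (Real.pi : ℂ) ≠ 0 := by exact_mod_cast Real.pi_ne_zero
      have hI : (I : ℂ) ≠ 0 := I_ne_zero
      have : (2 * Real.pi * I : ℂ) ≠ 0 := by simp [hpi]
      have h4 : (α : ℂ) * (2 * Real.pi * I) = n * (2 * Real.pi * I) := by
        rw [← hn]; ring
      exact mul_right_cancel₀ this h4
    have h5 : α = (n : ℝ) := by exact_mod_cast h3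
    exact hα ⟨(n : ℚ), by rw [h5]; simp⟩
  have hnl : ¬ Lands Ψ 0 z₁ := by
    intro h
    exact no_periodic h0 hΨ hα hfix hmul h one_pos 0 (by simp)
  have hz : z₁ ∈ K c := ⟨‖z₁‖, fun n => by rw [Function.iterate_fixed hfix]⟩
  obtain ⟨e, hec, heK, he1⟩ := hacc
  obtain ⟨ζ, hζc, hζ⟩ := exists_lift hΨ hec heK
  have he : Tendsto e (𝓝[<] 1) (𝓝 z₁) := by
    have h1 : ContinuousWithinAt e (Icc 0 1) 1 := hec 1 ⟨zero_le_one, le_rfl⟩
    have h3 : Tendsto e (𝓝[Icc 0 1] 1) (𝓝 z₁) := by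
      have := h1.tendsto
      rwa [he1] at this
    refine h3.mono_left ?_
    rw [← nhdsWithin_Ioo_eq_nhdsLT (zero_lt_one' ℝ)]
    exact nhdsWithin_mono _ Ioo_subset_Icc_self
  obtain ⟨y₀, hy⟩ := im_tendsto hΨ hfix h2 hnl hz hζc hζ he
  refine ⟨y₀ / (2 * Real.pi), ?_⟩
  have h1 := lands_of_path hΨ hz hζc hζ he hy
  unfold Lands
  refine h1.congr fun s => ?_
  congr 2
  have hpi : (Real.pi : ℂ) ≠ 0 := by exact_mod_cast Real.pi_ne_zero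
  push_cast
  field_simp

end Pool.Agent.Cremer
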