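import Pool.Agent.Cremer.Sections

/-!
# A Mane-type lemma: without recurrence of the critical point, preimages of small balls centred at
the Julia set are uniformly small
-/

open Set Filter Topology Complex Metric

namespace Pool.Agent.Cremer

variable {c : ℂ}

/-- All connected sets in the `n`-th preimage of `ρ`-balls centred on `J` have diameter `≤ ε`. -/
def Small (c : ℂ) (ε ρ : ℝ) (n : ℕ) : Prop :=
  ∀ y ∈ J c, ∀ C : Set ℂ, IsPreconnected C → C ⊆ (f c)^[n] ⁻¹' ball y ρ →
    ∀ p ∈ C, ∀ q ∈ C, ‖p - q‖ ≤ ε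

/-- Balls missing `J` contain at most one point of the critical orbit. -/
def OneCrit (c : ℂ) : Prop :=
  ∀ (v : ℂ) (r : ℝ), Disjoint (ball v r) (J c) → ∀ i j : ℕ, 1 ≤ i → 1 ≤ j →
    (f c)^[i] 0 ∈ ball v r → (f c)^[j] 0 ∈ ball v r → i = j

theorem Sec.notMem_J {n : ℕ} {B : Set ℂ} {g : ℂ → ℂ} (h : Sec c n B g) (hB : Disjoint B (J c))
    {w : ℂ} (hw : w ∈ J c) : w ∉ g '' B := by
  rintro ⟨z, hz, rfl⟩
  rw [← iter_mem_J n, h.sec z hz] at hw
  exact (Set.disjoint_left.mp hB) hz hw

theorem far_section (hone : OneCrit c) {v : ℂ} {ρ D : ℝ} (hρ : 0 < ρ)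
    (hdisj : Disjoint (ball v (ρ / 2)) (J c)) {m : ℕ} (g : ℕ → ℂ) (hg0 : g 0 = v)
    (hg : ∀ i < m, f c (g (i + 1)) = g i) (x : ℕ → ℂ) (hx : ∀ i < m, x i ∈ J c)
    (hclose : ∀ i < m, ‖g i - x i‖ ≤ D)
    (hD : c ∉ J c → (1 + CK) * D < infDist c (J c)) :
    ∃ H, Sec c m (ball v (ρ / 4)) H ∧ H v = g m := by
  have hit : ∀ i ≤ m, (f c)^[i] (g i) = v := by
    intro i
    induction i with
    | zero => intro _; simpa using hg0
    | succ i ih =>
      intro hi
      rw [Function.iterate_succ_apply, hg i (by omega), ih (by omega)]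
  by_cases hcase : ∀ j, 1 ≤ j → j ≤ m → (f c)^[j] 0 ∉ ball v (ρ / 4)
  · obtain ⟨H, hH, hHx⟩ := exists_sec isOpen_ball (convex_ball v (ρ / 4)) m (g m)
      (by rw [hit m le_rfl]; exact mem_ball_self (by positivity)) hcase
    rw [hit m le_rfl] at hHx
    exact ⟨H, hH, hHx⟩
  · push Not at hcase
    obtain ⟨i₀, h1, h2, h3⟩ := hcase
    have hsub : ball v (ρ / 4) ⊆ ball v (ρ / 2) := ball_subset_ball (by linarith)
    have key : ∀ i ≤ m, ∃ H, Sec c i (ball v (ρ / 2)) H ∧ H v = g i := by
      intro i
      induction i with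
      | zero => intro _; exact ⟨id, Sec.zero _, by simpa using hg0.symm⟩
      | succ i ih =>
        intro hi
        obtain ⟨H, hH, hHv⟩ := ih (by omega)
        obtain ⟨H', hH', hH'v, -⟩ := hH.step isOpen_ball (convex_ball v (ρ / 2)) (x := v)
          (p := g (i + 1)) (mem_ball_self (by positivity)) (by rw [hHv, hg i (by omega)]) (by
            intro z hz he
            have hs := hH.sec z hz
            rw [he] at hs
            have hz1 : (f c)^[i + 1] 0 = z := by
              rw [Function.iterate_succ_apply]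
              have : f c 0 = c := by simp [f]
              rw [this, hs]
            have hi0 : i + 1 = i₀ := by
              refine hone v (ρ / 2) hdisj (i + 1) i₀ (by omega) h1 ?_ (hsub h3)
              rw [hz1]; exact hz
            have hz4 : z ∈ closedBall v (ρ / 4) := by
              rw [← hz1, hi0]; exact ball_subset_closedBall h3
            have hcJ : c ∉ J c := by
              intro hcJ
              have h7 := (iter_mem_J i).mpr hcJ
              rw [hs] at h7
              exact (Set.disjoint_left.mp hdisj) hz h7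
            have hball : ball v (2 * (ρ / 4)) = ball v (ρ / 2) := by congr 1; ring
            have hgr := koebe_growth (h := H) (a := v) (w := x i) (r := ρ / 4) (by positivity)
              (by rw [hball]; exact hH.diff) (by rw [hball]; exact hH.injOn)
              (by rw [hball]; exact hH.notMem_J hdisj (hx i (by omega))) hz4
            have hcl := hclose i (by omega)
            have h4 : ‖c - x i‖ ≤ (1 + CK) * D := by
              have h5 : c - x i = (H z - H v) + (H v - x i) := by rw [he]; ring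
              rw [h5]
              refine (norm_add_le _ _).trans ?_
              rw [← hHv] at hcl
              have := CK_pos
              nlinarith
            have h6 := infDist_le_dist_of_mem (x := c) (hx i (by omega))
            rw [Complex.dist_eq] at h6
            linarith [hD hcJ])
        exact ⟨H', hH', hH'v⟩
    obtain ⟨H, hH, hHv⟩ := key m le_rfl
    exact ⟨H, hH.mono hsub, hHv⟩

/-- A chain of compatible sections along a backward orbit `x`. -/
structure Chain (c y : ℂ) (ρ : ℝ) (x : ℕ → ℂ) (j : ℕ) (G : ℕ → ℂ → ℂ) : Prop where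
  zero : ∀ z ∈ ball y (2 * ρ), G 0 z = z
  sec : ∀ i ≤ j, Sec c i (ball y (2 * ρ)) (G i)
  val : ∀ i ≤ j, G i y = x i
  step : ∀ i < j, ∀ z ∈ ball y (2 * ρ), f c (G (i + 1) z) = G i z

theorem Chain.mono {y : ℂ} {ρ : ℝ} {x : ℕ → ℂ} {j i : ℕ} {G : ℕ → ℂ → ℂ}
    (h : Chain c y ρ x j G) (hi : i ≤ j) : Chain c y ρ x i G :=
  ⟨h.zero, fun k hk => h.sec k (hk.trans hi), fun k hk => h.val k (hk.trans hi),
    fun k hk => h.step k (by omega)⟩

theorem Chain.extend {y : ℂ} {ρ : ℝ} (hρ : 0 < ρ) {x : ℕ → ℂ} {j : ℕ} {G : ℕ → ℂ → ℂ}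
    (h : Chain c y ρ x j G) (hx : f c (x (j + 1)) = x j)
    (hne : ∀ z ∈ ball y (2 * ρ), G j z ≠ c) : ∃ G', Chain c y ρ x (j + 1) G' := by
  obtain ⟨g', hg', hg'y, hstep⟩ := (h.sec j le_rfl).step isOpen_ball (convex_ball y (2 * ρ))
    (x := y) (p := x (j + 1)) (mem_ball_self (by positivity)) (by rw [hx, h.val j le_rfl]) hne
  classical
  refine ⟨Function.update G (j + 1) g', ?_, ?_, ?_, ?_⟩
  · intro z hz
    rw [Function.update_of_ne (by omega)]
    exact h.zero z hz
  · intro i hi
    by_cases hij : i = j + 1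
    · subst hij; rw [Function.update_self]; exact hg'
    · rw [Function.update_of_ne hij]; exact h.sec i (by omega)
  · intro i hi
    by_cases hij : i = j + 1
    · subst hij; rw [Function.update_self]; exact hg'y
    · rw [Function.update_of_ne hij]; exact h.val i (by omega)
  · intro i hi z hz
    by_cases hij : i = j
    · subst hij
      rw [Function.update_self, Function.update_of_ne (by omega)]
      exact hstep z hz
    · rw [Function.update_of_ne (by omega), Function.update_of_ne (by omega)]
      exact h.step i (by omega) z hz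

/-- Constants. -/
noncomputable def SS (k : ℕ) : ℝ := ∑ i ∈ Finset.range k, (1 + CK) ^ i

theorem SS_succ (k : ℕ) : SS (k + 1) = (1 + CK) * SS k + 1 := by
  unfold SS
  rw [Finset.sum_range_succ', Finset.mul_sum]
  simp [pow_succ, mul_comm]

theorem SS_nonneg (k : ℕ) : 0 ≤ SS k := by
  unfold SS
  have := CK_pos
  positivity

/-- One step of the displacement estimate. -/
theorem displacement_step (hone : OneCrit c) {y : ℂ} {ρ ε D : ℝ} (hρ : 0 < ρ) (hε : 0 ≤ ε)
    {x : ℕ → ℂ} {j : ℕ} {G : ℕ → ℂ → ℂ} (h : Chain c y ρ x j G) (hxJ : ∀ i ≤ j, x i ∈ J c)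
    (hS : Small c ε ρ j) (hD : c ∉ J c → (1 + CK) * D < infDist c (J c))
    (hprev : ∀ i < j, ∀ z ∈ ball y (2 * ρ), ‖G i z - x i‖ ≤ D)
    {v v' : ℂ} (hv : v ∈ ball y (2 * ρ)) (hv' : v' ∈ ball y (2 * ρ)) (hvv : ‖v' - v‖ < ρ / 8) :
    ‖G j v' - x j‖ ≤ (1 + CK) * ‖G j v - x j‖ + ε := by
  have hseg : segment ℝ v v' ⊆ ball y (2 * ρ) := (convex_ball y (2 * ρ)).segment_subset hv hv'
  have hsegv : ∀ z ∈ segment ℝ v v', ‖z - v‖ < ρ / 8 := by
    have h1 : segment ℝ v v' ⊆ ball v (ρ / 8) :=
      (convex_ball v (ρ / 8)).segment_subset (mem_ball_self (by positivity))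
        (by rw [mem_ball, Complex.dist_eq]; exact hvv)
    intro z hz
    have := h1 hz
    rwa [mem_ball, Complex.dist_eq] at this
  have hC : IsPreconnected (G j '' segment ℝ v v') :=
    (convex_segment v v').isPreconnected.image _
      ((h.sec j le_rfl).diff.continuousOn.mono hseg)
  have hvin : G j v ∈ G j '' segment ℝ v v' := ⟨v, left_mem_segment ℝ v v', rfl⟩
  have hv'in : G j v' ∈ G j '' segment ℝ v v' := ⟨v', right_mem_segment ℝ v v', rfl⟩
  have hCK := CK_pos
  by_cases hnear : ∃ y' ∈ J c, ‖y' - v‖ < ρ / 2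
  · obtain ⟨y', hy', hyv⟩ := hnear
    have h1 := hS y' hy' _ hC (by
      rintro _ ⟨z, hz, rfl⟩
      rw [mem_preimage, (h.sec j le_rfl).sec z (hseg hz), mem_ball, Complex.dist_eq]
      have h2 : z - y' = (z - v) - (y' - v) := by ring
      rw [h2]
      have := norm_sub_le (z - v) (y' - v)
      have := hsegv z hz
      linarith) _ hv'in _ hvin
    have h3 : G j v' - x j = (G j v' - G j v) + (G j v - x j) := by ring
    rw [h3]
    refine (norm_add_le _ _).trans ?_
    nlinarith [norm_nonneg (G j v - x j)]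
  · push Not at hnear
    have hdisj : Disjoint (ball v (ρ / 2)) (J c) := by
      rw [Set.disjoint_left]
      intro z hz hzJ
      have := hnear z hzJ
      rw [mem_ball, Complex.dist_eq] at hz
      linarith
    obtain ⟨H, hH, hHv⟩ := far_section (D := D) hone hρ hdisj (m := j) (fun i => G i v)
      (h.zero v hv) (fun i hi => h.step i hi v hv) x (fun i hi => hxJ i hi.le)
      (fun i hi => hprev i hi v hv) hD
    have hcb : closedBall v (ρ / 8) ⊆ ball v (ρ / 4) := closedBall_subset_ball (by linarith)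
    have hsub := hH.subset_of_isPreconnected isOpen_ball (convex_ball v (ρ / 4)).isPreconnected
      hcb hC (by
        rintro _ ⟨z, hz, rfl⟩
        rw [mem_preimage, (h.sec j le_rfl).sec z (hseg hz), mem_ball, Complex.dist_eq]
        exact hsegv z hz) ⟨G j v, hvin, v, mem_ball_self (by positivity), hHv⟩
    obtain ⟨z, hz, hze⟩ := hsub hv'in
    have hzv : z = v' := by
      have h1 := hH.sec z (hcb (ball_subset_closedBall hz))
      rw [hze, (h.sec j le_rfl).sec v' hv'] at h1
      exact h1.symm
    subst hzv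
    have hball : ball v (2 * (ρ / 8)) = ball v (ρ / 4) := by congr 1; ring
    have hdisj4 : Disjoint (ball v (ρ / 4)) (J c) :=
      hdisj.mono_left (ball_subset_ball (by linarith))
    have hgr := koebe_growth (h := H) (a := v) (w := x j) (r := ρ / 8) (by positivity)
      (by rw [hball]; exact hH.diff) (by rw [hball]; exact hH.injOn)
      (by rw [hball]; exact hH.notMem_J hdisj4 (hxJ j le_rfl)) (ball_subset_closedBall hz)
    have hHv' : H v = G j v := hHv
    rw [hze, hHv'] at hgr
    have h3 : G j z - x j = (G j z - G j v) + (G j v - x j) := by ring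
    rw [h3]
    refine (norm_add_le _ _).trans ?_
    linarith

/-- Displacement estimate. -/
theorem displacement (hone : OneCrit c) {y : ℂ} {ρ ε : ℝ} (hρ : 0 < ρ) (hε : 0 ≤ ε)
    {x : ℕ → ℂ} {j : ℕ} {G : ℕ → ℂ → ℂ} (h : Chain c y ρ x j G) (hxJ : ∀ i ≤ j, x i ∈ J c)
    (hS : ∀ i ≤ j, Small c ε ρ i)
    (hD : c ∉ J c → (1 + CK) * (ε * SS 17) < infDist c (J c)) :
    ∀ i ≤ j, ∀ z ∈ ball y (2 * ρ), ‖G i z - x i‖ ≤ ε * SS 17 := by
  intro i
  induction i using Nat.strong_induction_on with
  | _ i ih =>
    intro hi z hz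
    have hch := h.mono hi
    set w : ℕ → ℂ := fun k => y + ((k : ℝ) / 17 : ℝ) * (z - y) with hw
    have hz' : ‖z - y‖ < 2 * ρ := by rwa [mem_ball, Complex.dist_eq] at hz
    have hwmem : ∀ k ≤ 17, w k ∈ ball y (2 * ρ) := by
      intro k hk
      rw [mem_ball, Complex.dist_eq]
      have h1 : w k - y = ((k : ℝ) / 17 : ℝ) * (z - y) := by simp [hw]
      rw [h1, norm_mul, Complex.norm_real, Real.norm_eq_abs, abs_of_nonneg (by positivity)]
      have h2 : (k : ℝ) / 17 ≤ 1 := by
        rw [div_le_one (by norm_num)]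
        exact_mod_cast hk
      nlinarith [norm_nonneg (z - y)]
    have hstep : ∀ k, ‖w (k + 1) - w k‖ < ρ / 8 := by
      intro k
      have h1 : w (k + 1) - w k = ((1 : ℝ) / 17 : ℝ) * (z - y) := by
        simp only [hw]; push_cast; ring
      rw [h1, norm_mul, Complex.norm_real, Real.norm_eq_abs, abs_of_nonneg (by positivity)]
      linarith
    have key : ∀ k ≤ 17, ‖G i (w k) - x i‖ ≤ ε * SS k := by
      intro k
      induction k with
      | zero =>
        intro _
        have h1 : w 0 = y := by simp [hw]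
        rw [h1, h.val i hi]
        simp [SS]
      | succ k ihk =>
        intro hk
        have h1 := displacement_step (D := ε * SS 17) hone hρ hε hch
          (fun i' hi' => hxJ i' (hi'.trans hi)) (hS i hi) hD
          (fun i' hi' z hz => ih i' hi' (hi'.le.trans hi) z hz)
          (hwmem k (by omega)) (hwmem (k + 1) hk) (hstep k)
        have h2 := ihk (by omega)
        rw [SS_succ]
        have := CK_pos
        nlinarith
    have h17 := key 17 le_rfl
    have hw17 : w 17 = z := by simp [hw]
    rwa [hw17] at h17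

end Pool.Agent.Cremer
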