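import Pool.Agent.Cremer.Mane

/-!
# Mane-type lemma, second part
-/

open Set Filter Topology Complex Metric

namespace Pool.Agent.Cremer

variable {c : ℂ}

theorem one_lt_CK : 1 < CK := by unfold CK; linarith [Real.exp_pos (1 / kap)]

/-- The nearest omitted point. -/
theorem exists_round {h : ℂ → ℂ} {a : ℂ} {r : ℝ} (hr : 0 < r)
    (hd : DifferentiableOn ℂ h (ball a (2 * r))) (hi : InjOn h (ball a (2 * r)))
    (hne : (h '' ball a (2 * r))ᶜ.Nonempty) :
    ∃ d > 0, (∀ u, ‖u - h a‖ < d → u ∈ h '' ball a (2 * r)) ∧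
      ∀ v ∈ closedBall a r, ‖h v - h a‖ ≤ CK * d := by
  have ho : IsOpen (h '' ball a (2 * r)) :=
    isOpen_image_of_injOn isOpen_ball (convex_ball a _).isPreconnected hd hi isOpen_ball Subset.rfl
  have hcl : IsClosed (h '' ball a (2 * r))ᶜ := ho.isClosed_compl
  obtain ⟨w₀, hw₀, hmin⟩ := hcl.exists_infDist_eq_dist hne (h a)
  refine ⟨dist (h a) w₀, ?_, ?_, ?_⟩
  · apply dist_pos.mpr
    rintro he
    apply hw₀
    rw [← he]
    exact ⟨a, mem_ball_self (by linarith), rfl⟩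
  · intro u hu
    by_contra hcon
    have h2 := infDist_le_dist_of_mem (x := h a) (show u ∈ (h '' ball a (2 * r))ᶜ from hcon)
    rw [hmin, dist_comm (h a) u, Complex.dist_eq u] at h2
    linarith
  · intro v hv
    rw [Complex.dist_eq]
    exact koebe_growth hr hd hi hw₀ hv

theorem Sec.norm_lt {m : ℕ} {a : ℂ} {r : ℝ} {h : ℂ → ℂ} (hs : Sec c m (ball a r) h)
    {z : ℂ} (hz : z ∈ ball a r) : ‖h z‖ < max (R0 c) (‖a‖ + r) := by
  apply norm_iter_lt_of (n := m) (le_max_left _ _)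
  rw [hs.sec z hz]
  apply lt_of_lt_of_le _ (le_max_right _ _)
  rw [mem_ball, Complex.dist_eq] at hz
  have : z = a + (z - a) := by ring
  rw [this]
  exact (norm_add_le _ _).trans_lt (by linarith)

theorem Sec.compl_nonempty {m : ℕ} {a : ℂ} {r : ℝ} {h : ℂ → ℂ} (hs : Sec c m (ball a r) h) :
    (h '' ball a r)ᶜ.Nonempty := by
  refine ⟨((max (R0 c) (‖a‖ + r) : ℝ) : ℂ), ?_⟩
  rintro ⟨z, hz, he⟩
  have h1 := hs.norm_lt hz
  rw [he, Complex.norm_real, Real.norm_eq_abs] at h1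
  exact absurd (le_abs_self _) (not_le.mpr h1)

/-- Linear growth of sections. -/
theorem Sec.linear_growth {m : ℕ} {a : ℂ} {r : ℝ} (hr : 0 < r) {h : ℂ → ℂ}
    (hs : Sec c m (ball a (2 * r)) h) {v : ℂ} (hv : v ∈ ball a r) :
    ‖h v - h a‖ ≤ 2 * CK * ‖deriv h a‖ * ‖v - a‖ := by
  have ha : a ∈ ball a (2 * r) := mem_ball_self (by linarith)
  obtain ⟨d, hd, hd1, hd2⟩ := exists_round hr hs.diff hs.injOn hs.compl_nonempty
  -- Schwarz for the inverse
  have hF : DifferentiableOn ℂ (f c)^[m] (ball (h a) d) := (differentiable_iter m).differentiableOn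
  have hFa : (f c)^[m] (h a) = a := hs.sec a ha
  have hmaps : MapsTo (f c)^[m] (ball (h a) d) (closedBall ((f c)^[m] (h a)) (2 * r)) := by
    intro u hu
    rw [mem_ball, Complex.dist_eq] at hu
    obtain ⟨z, hz, rfl⟩ := hd1 u hu
    rw [hFa, hs.sec z hz]
    exact ball_subset_closedBall hz
  have h1 := norm_deriv_le_div_of_mapsTo_ball hF hmaps hd
  have h2 : deriv (f c)^[m] (h a) * deriv h a = 1 := by
    have h3 : HasDerivAt ((f c)^[m] ∘ h) (deriv (f c)^[m] (h a) * deriv h a) a :=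
      ((differentiable_iter m) (h a)).hasDerivAt.comp a
        (hs.diff.differentiableAt (isOpen_ball.mem_nhds ha)).hasDerivAt
    have h4 : ((f c)^[m] ∘ h) =ᶠ[𝓝 a] id := by
      filter_upwards [isOpen_ball.mem_nhds ha] with z hz using hs.sec z hz
    exact (h3.congr_of_eventuallyEq h4.symm).unique (hasDerivAt_id a)
  have h5 : d ≤ 2 * r * ‖deriv h a‖ := by
    rw [le_div_iff₀ hd] at h1
    have h6 : ‖deriv (f c)^[m] (h a)‖ * ‖deriv h a‖ = 1 := by rw [← norm_mul, h2, norm_one]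
    have h7 : d * (‖deriv (f c)^[m] (h a)‖ * ‖deriv h a‖) ≤ 2 * r * ‖deriv h a‖ := by
      have := mul_le_mul_of_nonneg_right h1 (norm_nonneg (deriv h a))
      linarith
    rwa [h6, mul_one] at h7
  have hCK := CK_pos
  have hmaps2 : MapsTo h (ball a r) (closedBall (h a) (CK * (2 * r * ‖deriv h a‖))) := by
    intro z hz
    rw [mem_closedBall, Complex.dist_eq]
    exact (hd2 z (ball_subset_closedBall hz)).trans (by gcongr)
  have h8 := dist_le_div_mul_dist_of_mapsTo_ball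
    (hs.diff.mono (ball_subset_ball (by linarith))) hmaps2 hv
  rw [Complex.dist_eq, Complex.dist_eq] at h8
  calc ‖h v - h a‖ ≤ CK * (2 * r * ‖deriv h a‖) / r * ‖v - a‖ := h8
    _ = 2 * CK * ‖deriv h a‖ * ‖v - a‖ := by field_simp

/-- The square map and round sets. -/
theorem sq_round {A : Set ℂ} (hA : IsPreconnected A) {x : ℂ} (hx : x ∈ A) {M d : ℝ} (hM : 1 ≤ M)
    (hd : 0 < d) (h : ∀ p ∈ A, ‖f c p - f c x‖ ≤ M * d) :
    ∃ d' > 0, (∀ p, ‖p - x‖ < d' → ‖f c p - f c x‖ < d) ∧ ∀ p ∈ A, ‖p - x‖ ≤ 34 * M * d' := by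
  obtain ⟨s, hs, hs2⟩ : ∃ s > 0, s ^ 2 = d := ⟨Real.sqrt d, Real.sqrt_pos.mpr hd, Real.sq_sqrt hd.le⟩
  obtain ⟨μ, hμ, hμ2⟩ : ∃ μ : ℝ, 1 ≤ μ ∧ μ ^ 2 = M :=
    ⟨Real.sqrt M, by rw [← Real.sqrt_one]; exact Real.sqrt_le_sqrt hM, Real.sq_sqrt (by linarith)⟩
  subst hs2 hμ2
  have hfx : ∀ p, ‖f c p - f c x‖ = ‖p - x‖ * ‖p + x‖ := fun p => by rw [f_sub, norm_mul]
  have htri : ∀ p : ℂ, ‖p + x‖ ≤ ‖p - x‖ + 2 * ‖x‖ := by
    intro p
    have h1 : p + x = (p - x) + 2 * x := by ring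
    rw [h1]
    refine (norm_add_le _ _).trans ?_
    rw [norm_mul]; simp
  rcases le_or_gt ‖x‖ (2 * μ * s) with hcase | hcase
  · refine ⟨s / (8 * μ), by positivity, ?_, ?_⟩
    · intro p hp
      rw [hfx]
      have h1 := htri p
      have h2 : s / (8 * μ) ≤ s / 8 := by
        apply div_le_div_of_nonneg_left hs.le (by norm_num) (by linarith)
      have h3 : ‖p - x‖ * ‖p + x‖ ≤ s / (8 * μ) * (s / 8 + 4 * μ * s) := by
        apply mul_le_mul hp.le _ (norm_nonneg _) (by positivity)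
        linarith
      have h4 : s / (8 * μ) * (s / 8 + 4 * μ * s) = s ^ 2 * (1 / (64 * μ) + 1 / 2) := by
        field_simp; ring
      have h5 : 1 / (64 * μ) ≤ 1 / 64 := by
        apply div_le_div_of_nonneg_left (by norm_num) (by norm_num) (by linarith)
      rw [h4] at h3
      have h6 : s ^ 2 * (1 / (64 * μ) + 1 / 2) < s ^ 2 := by
        have : 0 < s ^ 2 := by positivity
        nlinarith
      linarith
    · intro p hp
      have h1 := h p hp
      rw [hfx] at h1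
      have h2 : ‖p - x‖ ^ 2 ≤ ‖p - x‖ * (‖p + x‖ + 2 * ‖x‖) := by
        have h3 : ‖p - x‖ ≤ ‖p + x‖ + 2 * ‖x‖ := by
          have h4 : p - x = (p + x) - 2 * x := by ring
          rw [h4]
          refine (norm_sub_le _ _).trans ?_
          rw [norm_mul]; simp
        nlinarith [norm_nonneg (p - x)]
      -- ‖p - x‖² ≤ μ² s² + 4 μ s ‖p - x‖
      have h3 : ‖p - x‖ ^ 2 ≤ μ ^ 2 * s ^ 2 + ‖p - x‖ * (4 * μ * s) := by
        nlinarith [norm_nonneg (p - x)]
      have hμs : 0 < μ * s := by positivity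
      have h4 : ‖p - x‖ ≤ 17 / 4 * (μ * s) := by
        by_contra hlt
        push Not at hlt
        nlinarith
      calc ‖p - x‖ ≤ 17 / 4 * (μ * s) := h4
        _ = 34 * μ ^ 2 * (s / (8 * μ)) := by field_simp; ring
  · have hxpos : 0 < ‖x‖ := lt_of_le_of_lt (by positivity) hcase
    have hsm : s ≤ μ * s := by nlinarith
    have hcov : ∀ p ∈ A, ‖p - x‖ ≤ μ * s := by
      have h1 : A ⊆ {p | ‖p - x‖ ≤ μ * s} ∪ {p | ‖p + x‖ ≤ μ * s} := by
        intro p hp
        by_contra hcon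
        simp only [mem_union, Set.mem_ofPred_eq, not_or, not_le] at hcon
        have h2 := h p hp
        rw [hfx] at h2
        have h3 : 0 < μ * s := by positivity
        nlinarith [hcon.1, hcon.2]
      have hdj : A ∩ ({p | ‖p - x‖ ≤ μ * s} ∩ {p | ‖p + x‖ ≤ μ * s}) = ∅ := by
        ext p
        simp only [mem_inter_iff, Set.mem_ofPred_eq, mem_empty_iff_false, iff_false, not_and, not_le]
        intro _ h3
        by_contra h4
        push Not at h4
        have h5 : ‖x + x‖ ≤ ‖p + x‖ + ‖p - x‖ := by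
          have : x + x = (p + x) - (p - x) := by ring
          rw [this]; exact norm_sub_le _ _
        have h6 : ‖x + x‖ = 2 * ‖x‖ := by rw [← two_mul, norm_mul]; simp
        linarith
      have hc1 : IsClosed {p : ℂ | ‖p - x‖ ≤ μ * s} := isClosed_le (by fun_prop) continuous_const
      have hc2 : IsClosed {p : ℂ | ‖p + x‖ ≤ μ * s} := isClosed_le (by fun_prop) continuous_const
      rcases (isPreconnected_iff_subset_of_disjoint_closed.mp hA) _ _ hc1 hc2 h1 hdj with h7 | h7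
      · exact h7
      · exfalso
        have h8 : ‖x + x‖ ≤ μ * s := h7 hx
        have h6 : ‖x + x‖ = 2 * ‖x‖ := by rw [← two_mul, norm_mul]; simp
        have h9 : 0 < μ * s := by positivity
        linarith
    refine ⟨s ^ 2 / (3 * ‖x‖), by positivity, ?_, ?_⟩
    · intro p hp
      rw [hfx]
      have h1 := htri p
      have h3 : ‖p - x‖ * ‖p + x‖ ≤ s ^ 2 / (3 * ‖x‖) * (s ^ 2 / (3 * ‖x‖) + 2 * ‖x‖) := by
        apply mul_le_mul hp.le _ (norm_nonneg _) (by positivity)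
        linarith
      have h4 : s ^ 2 / (3 * ‖x‖) * (s ^ 2 / (3 * ‖x‖) + 2 * ‖x‖) =
          s ^ 2 * (s ^ 2 / (9 * ‖x‖ ^ 2) + 2 / 3) := by
        field_simp
        ring
      have h5 : s ^ 2 / (9 * ‖x‖ ^ 2) ≤ 1 / 9 := by
        rw [div_le_div_iff₀ (by positivity) (by norm_num)]
        nlinarith
      rw [h4] at h3
      have : 0 < s ^ 2 := by positivity
      nlinarith
    · intro p hp
      have h1 := h p hp
      rw [hfx] at h1
      have h2 := hcov p hp
      have h3 : ‖x‖ ≤ ‖p + x‖ := by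
        have h4 : 2 * ‖x‖ ≤ ‖p + x‖ + ‖p - x‖ := by
          have h6 : ‖x + x‖ = 2 * ‖x‖ := by rw [← two_mul, norm_mul]; simp
          rw [← h6]
          have : x + x = (p + x) - (p - x) := by ring
          rw [this]; exact norm_sub_le _ _
        have h9 : 0 < μ * s := by positivity
        linarith
      have h4 : ‖p - x‖ * ‖x‖ ≤ μ ^ 2 * s ^ 2 :=
        (mul_le_mul_of_nonneg_left h3 (norm_nonneg _)).trans h1
      have h5 : ‖p - x‖ ≤ μ ^ 2 * s ^ 2 / ‖x‖ := by rwa [le_div_iff₀ hxpos]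
      refine h5.trans ?_
      have h6 : 34 * μ ^ 2 * (s ^ 2 / (3 * ‖x‖)) = (34 / 3) * (μ ^ 2 * s ^ 2 / ‖x‖) := by
        field_simp
      rw [h6]
      have : 0 ≤ μ ^ 2 * s ^ 2 / ‖x‖ := by positivity
      linarith

/-- Uniform escape near `J`. -/
theorem uniform_escape {η : ℝ} (hη : 0 < η) :
    ∃ N : ℕ, ∀ x ∈ J c, ∀ n ≥ N, ∃ u, ‖u - x‖ < η ∧ R0 c + 2 < ‖(f c)^[n] u‖ := by
  have h1 : ∀ x ∈ J c, ∃ u : ℂ, ∃ N : ℕ, ‖u - x‖ < η / 2 ∧ ∀ n ≥ N, R0 c + 2 < ‖(f c)^[n] u‖ := by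
    intro x hx
    obtain ⟨u, hu, huK⟩ := exists_notMem_near_J hx (half_pos hη)
    obtain ⟨N, hN⟩ := ((tendsto_of_notMem huK).eventually_gt_atTop (R0 c + 2)).exists_forall_of_atTop
    exact ⟨u, N, by rwa [Complex.dist_eq] at hu, hN⟩
  choose! u N hu hN using h1
  obtain ⟨t, htJ, ht⟩ := isCompact_J.elim_nhds_subcover (fun x => ball x (η / 2))
    (fun x _ => ball_mem_nhds x (half_pos hη))
  refine ⟨t.sup N, fun x hx n hn => ?_⟩
  obtain ⟨x', hx't, hxx'⟩ := mem_iUnion₂.mp (ht hx)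
  refine ⟨u x', ?_, hN x' (htJ x' hx't) n ((Finset.le_sup hx't).trans hn)⟩
  rw [mem_ball, Complex.dist_eq] at hxx'
  have h2 := hu x' (htJ x' hx't)
  have h3 : u x' - x = (u x' - x') - (x - x') := by ring
  rw [h3]
  refine (norm_sub_le _ _).trans_lt ?_
  linarith

end Pool.Agent.Cremer
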