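import Pool.Agent.Cremer.Mane2

/-!
# Mane-type lemma, third part
-/

open Set Filter Topology Complex Metric

namespace Pool.Agent.Cremer

variable {c : ℂ}

/-- A macroscopic ball around a point of `J` is mapped into a microscopic ball. -/
theorem big_ball (hone : OneCrit c) {δ ε ρ : ℝ} (hδ : 0 < δ)
    (hcrit : ∀ j : ℕ, 1 ≤ j → 2 * δ ≤ ‖(f c)^[j] 0‖) (hρ : 0 < ρ) (hε : 0 < ε) {n : ℕ}
    (hS : ∀ j < n, Small c ε ρ j) (hnS : ¬ Small c ε ρ n)
    (hD : c ∉ J c → (1 + CK) * (ε * SS 17) < infDist c (J c))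
    (hD2 : 2 * (ε * SS 17) < (δ / 4) ^ 2) :
    ∃ y ∈ J c, ∃ x ∈ J c, ∀ u, ‖u - x‖ < kap * ε / (136 * CK ^ 2) → ‖(f c)^[n] u - y‖ < 2 * ρ := by
  have hCK := CK_pos
  have hCK1 := one_lt_CK
  have hkap := kap_pos
  have hkap1 : kap ≤ 1 := by unfold kap; norm_num
  unfold Small at hnS
  push Not at hnS
  obtain ⟨y, hy, C, hC, hCs, p, hp, q, hq, hpq⟩ := hnS
  set W := (f c)^[n] ⁻¹' ball y ρ with hW
  set V := connectedComponentIn W p with hV
  have hpW : p ∈ W := hCs hp
  have hCV : C ⊆ V := hC.subset_connectedComponentIn hp hCs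
  have hVW : V ⊆ W := connectedComponentIn_subset _ _
  have hVc : IsPreconnected V := isPreconnected_connectedComponentIn
  have himg := image_component (n := n) (isOpen_ball (x := y) (ε := ρ))
    (convex_ball y ρ).isPreconnected (p := p) hpW
  obtain ⟨x, hxV, hxy⟩ : y ∈ (f c)^[n] '' V := by
    rw [hV, himg]; exact mem_ball_self hρ
  have hxJ : x ∈ J c := by rw [← iter_mem_J n, hxy]; exact hy
  obtain ⟨p₀, hp₀V, hp₀⟩ : ∃ p₀ ∈ V, ε / 2 < ‖p₀ - x‖ := by
    by_contra hcon
    push Not at hcon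
    have h1 := hcon p (hCV hp)
    have h2 := hcon q (hCV hq)
    have h3 : p - q = (p - x) - (q - x) := by ring
    rw [h3] at hpq
    linarith [norm_sub_le (p - x) (q - x)]
  -- the backward orbit
  set xs : ℕ → ℂ := fun j => (f c)^[n - j] x with hxs
  have hxs0 : xs 0 = y := by simp [hxs, hxy]
  have hxsn : xs n = x := by simp [hxs]
  have hxsJ : ∀ j, xs j ∈ J c := fun j => (iter_mem_J _).mpr hxJ
  have hxstep : ∀ j < n, f c (xs (j + 1)) = xs j := by
    intro j hj
    have h1 : n - j = (n - (j + 1)) + 1 := by omega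
    simp only [hxs]
    rw [h1, Function.iterate_succ_apply']
  have hclaim : ∀ j ≤ n, (∃ G, Chain c y ρ xs j G) ∨
      (∃ i < j, ∃ G, Chain c y ρ xs i G ∧ ∃ z ∈ ball y (2 * ρ), G i z = c) := by
    intro j
    induction j with
    | zero =>
      intro _
      left
      refine ⟨fun _ => id, fun z _ => rfl, fun i hi => ?_, fun i hi => ?_, fun i hi => by omega⟩
      · obtain rfl : i = 0 := by omega
        exact Sec.zero _
      · obtain rfl : i = 0 := by omega
        simp [hxs0]
    | succ j ih =>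
      intro hj
      rcases ih (by omega) with ⟨G, hG⟩ | ⟨i, hi, G, hG, hz⟩
      · by_cases hne : ∀ z ∈ ball y (2 * ρ), G j z ≠ c
        · left; exact hG.extend hρ (hxstep j (by omega)) hne
        · right
          push Not at hne
          exact ⟨j, by omega, G, hG, hne⟩
      · right; exact ⟨i, by omega, G, hG, hz⟩
  have hyball : y ∈ ball y (2 * ρ) := mem_ball_self (by positivity)
  have hcb : closedBall y ρ ⊆ ball y (2 * ρ) := closedBall_subset_ball (by linarith)
  refine ⟨y, hy, x, hxJ, fun u hu => ?_⟩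
  rcases hclaim n le_rfl with ⟨G, hG⟩ | ⟨i, hi, G, hG, zc, hzc, hzce⟩
  · -- univalent case
    have hsec := hG.sec n le_rfl
    have hGy : G n y = x := by rw [hG.val n le_rfl, hxsn]
    have hVG : V ⊆ G n '' ball y ρ :=
      hsec.subset_of_isPreconnected isOpen_ball (convex_ball y _).isPreconnected hcb hVc hVW
        ⟨x, hxV, y, mem_ball_self hρ, hGy⟩
    obtain ⟨z, hz, hzp⟩ := hVG hp₀V
    have humem : u ∈ G n '' ball y (2 * ρ) := by
      by_contra hcon
      have h1 := koebe_growth hρ hsec.diff hsec.injOn hcon (ball_subset_closedBall hz)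
      rw [hzp, hGy] at h1
      have h2 : ‖x - u‖ = ‖u - x‖ := norm_sub_rev _ _
      rw [h2] at h1
      have h3 : CK * ‖u - x‖ < CK * (kap * ε / (136 * CK ^ 2)) :=
        mul_lt_mul_of_pos_left hu hCK
      have h4 : CK * (kap * ε / (136 * CK ^ 2)) ≤ ε / 2 := by
        have h5 : CK * (kap * ε / (136 * CK ^ 2)) = kap * ε / (136 * CK) := by
          field_simp
        rw [h5, div_le_div_iff₀ (by positivity) (by norm_num)]
        nlinarith
      linarith
    obtain ⟨z', hz', rfl⟩ := humem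
    rw [hsec.sec z' hz']
    rwa [mem_ball, Complex.dist_eq] at hz'
  · -- critical case
    have hsec := hG.sec i le_rfl
    have hGy : G i y = xs i := hG.val i le_rfl
    have hdisp := displacement hone hρ hε.le hG (fun j _ => hxsJ j)
      (fun j hj => hS j (lt_of_le_of_lt hj hi)) hD i le_rfl
    set D := ε * SS 17 with hDdef
    set m := n - i - 1 with hm
    have hnm : n = i + 1 + m := by omega
    set x₁ := (f c)^[m] x with hx₁
    have hx₁xs : xs (i + 1) = x₁ := by
      have h1 : n - (i + 1) = m := by omega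
      simp only [hxs, hx₁, h1]
    have hfx₁ : f c x₁ = xs i := by rw [← hx₁xs]; exact hxstep i hi
    obtain ⟨d, hd, hd1, hd2⟩ := exists_round hρ hsec.diff hsec.injOn hsec.compl_nonempty
    rw [hGy] at hd1 hd2
    -- everything in f⁻¹ of the image is close to 0
    have hnear0 : ∀ w, f c w ∈ G i '' ball y (2 * ρ) → ‖w‖ < δ / 4 := by
      rintro w ⟨z, hz, hze⟩
      have h1 := hdisp z hz
      have h2 := hdisp zc hzc
      rw [hzce] at h2
      have h3 : ‖w ^ 2‖ ≤ 2 * D := by
        have h4 : w ^ 2 = (G i z - xs i) - (c - xs i) := by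
          rw [hze]; unfold f; ring
        rw [h4]
        linarith [norm_sub_le (G i z - xs i) (c - xs i)]
      rw [norm_pow] at h3
      have h5 : ‖w‖ ^ 2 < (δ / 4) ^ 2 := by linarith
      exact lt_of_pow_lt_pow_left₀ 2 (by positivity) h5
    -- the image of V
    have hfV : (f c)^[m + 1] '' V ⊆ G i '' ball y ρ := by
      apply hsec.subset_of_isPreconnected isOpen_ball (convex_ball y _).isPreconnected hcb
        (hVc.image _ (continuous_iter _).continuousOn)
      · rintro _ ⟨v, hv, rfl⟩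
        have h1 : (f c)^[n] v ∈ ball y ρ := hVW hv
        rw [mem_preimage, ← Function.iterate_add_apply]
        have h2 : i + (m + 1) = n := by omega
        rw [h2]; exact h1
      · refine ⟨xs i, ⟨x, hxV, ?_⟩, y, mem_ball_self hρ, hGy⟩
        rw [Function.iterate_succ_apply', ← hx₁, hfx₁]
    set A := (f c)^[m] '' V with hA
    have hAc : IsPreconnected A := hVc.image _ (continuous_iter _).continuousOn
    have hx₁A : x₁ ∈ A := ⟨x, hxV, rfl⟩
    have hfA : ∀ w ∈ A, f c w ∈ G i '' ball y ρ := by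
      rintro _ ⟨v, hv, rfl⟩
      apply hfV
      exact ⟨v, hv, by rw [Function.iterate_succ_apply']⟩
    have hsub2 : G i '' ball y ρ ⊆ G i '' ball y (2 * ρ) :=
      image_mono (ball_subset_ball (by linarith))
    have hA0 : ∀ w ∈ A, ‖w‖ < δ / 4 := fun w hw => hnear0 w (hsub2 (hfA w hw))
    obtain ⟨d', hd', hd'1, hd'2⟩ := sq_round hAc hx₁A hCK1.le hd (by
      intro w hw
      obtain ⟨z, hz, hze⟩ := hfA w hw
      rw [← hze, hfx₁]
      exact hd2 z (ball_subset_closedBall hz))
    have hx₁0 : ‖x₁‖ < δ / 4 := hA0 x₁ hx₁A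
    -- the section on the ball around 0
    have hx₁ball : (f c)^[m] x ∈ ball (0 : ℂ) (2 * δ) := by
      rw [mem_ball_zero_iff]; linarith
    obtain ⟨h, hh, hhx⟩ := exists_sec (isOpen_ball (x := (0:ℂ)) (ε := 2 * δ))
      (convex_ball 0 (2 * δ)) m x hx₁ball (by
        intro j hj _ hmem
        rw [mem_ball_zero_iff] at hmem
        linarith [hcrit j hj])
    rw [← hx₁] at hhx
    have hcb0 : closedBall (0:ℂ) δ ⊆ ball 0 (2 * δ) := closedBall_subset_ball (by linarith)
    have hVh : V ⊆ h '' ball 0 δ := by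
      apply hh.subset_of_isPreconnected isOpen_ball (convex_ball 0 _).isPreconnected hcb0 hVc
      · intro v hv
        rw [mem_preimage, mem_ball_zero_iff]
        have := hA0 _ ⟨v, hv, rfl⟩
        linarith
      · exact ⟨x, hxV, x₁, by rw [mem_ball_zero_iff]; linarith, hhx⟩
    obtain ⟨p', hp', hp'e⟩ := hVh hp₀V
    have hp'A : p' ∈ A := by
      refine ⟨p₀, hp₀V, ?_⟩
      rw [← hp'e, hh.sec p' (hcb0 (ball_subset_closedBall hp'))]
    have hp'0 := hA0 p' hp'A
    have hsubx : ball x₁ (2 * (δ / 2)) ⊆ ball 0 (2 * δ) := by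
      apply ball_subset_ball'
      rw [dist_zero_right]
      linarith
    have hp'x₁ : p' ∈ ball x₁ (δ / 2) := by
      rw [mem_ball, Complex.dist_eq]
      linarith [norm_sub_le p' x₁]
    have hlin := (hh.mono hsubx).linear_growth (by positivity) hp'x₁
    rw [hp'e, hhx] at hlin
    have h34 := hd'2 p' hp'A
    have hmain : ε / 2 < 2 * CK * ‖deriv h x₁‖ * (34 * CK * d') := by
      refine lt_of_lt_of_le hp₀ (hlin.trans ?_)
      gcongr
    -- koebe on the ball of radius d'
    have hballd' : ball x₁ d' ⊆ ball 0 (2 * δ) := by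
      intro w hw
      rw [mem_ball, Complex.dist_eq] at hw
      have h1 := hd'1 w hw
      rw [hfx₁] at h1
      have h2 := hnear0 w (hd1 _ h1)
      rw [mem_ball_zero_iff]
      linarith
    have hsecd := hh.mono hballd'
    have humem : u ∈ h '' ball x₁ d' := by
      by_contra hcon
      have h1 := koebe hd' hsecd.diff hsecd.injOn hcon
      rw [hhx, norm_sub_rev] at h1
      have h2 : kap * d' * ‖deriv h x₁‖ < kap * ε / (136 * CK ^ 2) := lt_of_le_of_lt h1 hu
      rw [lt_div_iff₀ (by positivity)] at h2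
      have h3 : kap * ε < kap * (136 * CK ^ 2 * (‖deriv h x₁‖ * d')) := by
        apply mul_lt_mul_of_pos_left _ hkap
        nlinarith
      nlinarith
    obtain ⟨p'', hp'', rfl⟩ := humem
    have h1 := hd'1 p'' (by rwa [mem_ball, Complex.dist_eq] at hp'')
    rw [hfx₁] at h1
    obtain ⟨z, hz, hze⟩ := hd1 _ h1
    have h2 : (f c)^[n] (h p'') = z := by
      rw [hnm, Function.iterate_add_apply, hsecd.sec p'' hp'', Function.iterate_succ_apply, ← hze,
        hsec.sec z hz]
    rw [h2]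
    rwa [mem_ball, Complex.dist_eq] at hz

/-- **Mane-type lemma.** -/
theorem small_of_nonrecurrent (hone : OneCrit c) {δ : ℝ} (hδ : 0 < δ)
    (hcrit : ∀ j : ℕ, 1 ≤ j → 2 * δ ≤ ‖(f c)^[j] 0‖) (hJ : (J c).Nonempty) {ε : ℝ} (hε : 0 < ε) :
    ∃ ρ > 0, ∀ n, Small c ε ρ n := by
  have hCK := CK_pos
  -- reduce to small ε
  obtain ⟨ε', hε', hεε, hD, hD2⟩ : ∃ ε' > 0, ε' ≤ ε ∧
      (c ∉ J c → (1 + CK) * (ε' * SS 17) < infDist c (J c)) ∧
      2 * (ε' * SS 17) < (δ / 4) ^ 2 := by
    have h1 : ∀ᶠ e : ℝ in 𝓝[>] 0, e ≤ ε :=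
      mem_nhdsWithin_of_mem_nhds (Iic_mem_nhds hε)
    have h2 : ∀ᶠ e : ℝ in 𝓝[>] 0, 2 * (e * SS 17) < (δ / 4) ^ 2 := by
      have ht : Tendsto (fun e : ℝ => 2 * (e * SS 17)) (𝓝[>] 0) (𝓝 0) := by
        have : Tendsto (fun e : ℝ => 2 * (e * SS 17)) (𝓝 0) (𝓝 (2 * (0 * SS 17))) := by
          apply Continuous.tendsto; fun_prop
        simpa using this.mono_left nhdsWithin_le_nhds
      exact ht.eventually (Iio_mem_nhds (by positivity))
    have h3 : ∀ᶠ e : ℝ in 𝓝[>] 0, (c ∉ J c → (1 + CK) * (e * SS 17) < infDist c (J c)) := by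
      by_cases hc : c ∈ J c
      · exact Eventually.of_forall fun e h => absurd hc h
      · have hpos : 0 < infDist c (J c) := (isClosed_J.notMem_iff_infDist_pos hJ).mp hc
        have ht : Tendsto (fun e : ℝ => (1 + CK) * (e * SS 17)) (𝓝[>] 0) (𝓝 0) := by
          have : Tendsto (fun e : ℝ => (1 + CK) * (e * SS 17)) (𝓝 0) (𝓝 ((1 + CK) * (0 * SS 17))) := by
            apply Continuous.tendsto; fun_prop
          simpa using this.mono_left nhdsWithin_le_nhds
        filter_upwards [ht.eventually (Iio_mem_nhds hpos)] with e he _ using he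
    have h4 : ∀ᶠ e : ℝ in 𝓝[>] 0, 0 < e := self_mem_nhdsWithin
    obtain ⟨e, h1, h2, h3, h4⟩ := (h1.and (h2.and (h3.and h4))).exists
    exact ⟨e, h4, h1, h3, h2⟩
  have hkap := kap_pos
  set η := kap * ε' / (136 * CK ^ 2) with hη
  have hηpos : 0 < η := by positivity
  obtain ⟨N, hN⟩ := uniform_escape (c := c) hηpos
  -- radius small enough for the first N times
  have hr : ∀ m : ℕ, ∃ r > 0, ∀ y : ℂ, ∀ C : Set ℂ, IsPreconnected C →
      C ⊆ (f c)^[m] ⁻¹' ball y r → ∀ p ∈ C, ∀ q ∈ C, ‖p - q‖ ≤ ε' :=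
    fun m => exists_small_preimages m hε'
  choose r hrpos hr using hr
  obtain ⟨ρ, hρ, hρ1, hρr⟩ : ∃ ρ > 0, ρ ≤ 1 / 2 ∧ ∀ m < N, ρ ≤ r m := by
    have : ∀ N : ℕ, ∃ ρ > 0, ρ ≤ 1 / 2 ∧ ∀ m < N, ρ ≤ r m := by
      intro N
      induction N with
      | zero => exact ⟨1/2, by norm_num, le_rfl, fun m hm => by omega⟩
      | succ N ih =>
        obtain ⟨ρ, h1, h2, h3⟩ := ih
        refine ⟨min ρ (r N), lt_min h1 (hrpos N), (min_le_left _ _).trans h2, fun m hm => ?_⟩
        rcases Nat.lt_succ_iff_lt_or_eq.mp hm with h | rfl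
        · exact (min_le_left _ _).trans (h3 m h)
        · exact min_le_right _ _
    exact this N
  refine ⟨ρ, hρ, ?_⟩
  have hall : ∀ n, Small c ε' ρ n := by
    by_contra hcon
    push Not at hcon
    classical
    obtain ⟨n, hn, hmin⟩ : ∃ n, ¬ Small c ε' ρ n ∧ ∀ j < n, Small c ε' ρ j := by
      refine ⟨Nat.find hcon, Nat.find_spec hcon, fun j hj => ?_⟩
      by_contra h
      exact Nat.find_min hcon hj h
    have hnN : N ≤ n := by
      by_contra hlt
      push Not at hlt
      apply hn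
      intro y _ C hC hCs p hp q hq
      exact hr n y C hC (hCs.trans (preimage_mono (ball_subset_ball (hρr n hlt)))) p hp q hq
    obtain ⟨y, hy, x, hx, hmap⟩ := big_ball hone hδ hcrit hρ hε' hmin hn hD hD2
    obtain ⟨u, hu, hesc⟩ := hN x hx n hnN
    have h1 := hmap u hu
    have h2 := norm_lt_of_mem_K (J_subset_K hy)
    have h3 : (f c)^[n] u = ((f c)^[n] u - y) + y := by ring
    rw [h3] at hesc
    linarith [norm_add_le ((f c)^[n] u - y) y]
  intro n y hy C hC hCs p hp q hq
  exact (hall n y hy C hC hCs p hp q hq).trans hεε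

end Pool.Agent.Cremer
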