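import Pool.Agent.Cremer.Defs

/-!
# Boettcher parametrisation of the exterior of a connected filled Julia set
-/

open Set Filter Topology Complex Metric

namespace Pool.Agent.Cremer

namespace Boettcher

/-- `F` is a Boettcher factor on the ball of radius `r`. -/
structure Good (c : ℂ) (r : ℝ) (F : ℂ → ℂ) : Prop where
  diff : DifferentiableOn ℂ F (ball 0 r)
  zero : F 0 = 1
  eq : ∀ s ∈ ball (0 : ℂ) r, F s ^ 2 = F (s ^ 2) - c * s ^ 2

/-- principal square root -/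
noncomputable def sq (w : ℂ) : ℂ := exp (log w / 2)

theorem sq_sq {w : ℂ} (hw : w ≠ 0) : sq w ^ 2 = w := by
  rw [sq, ← Complex.exp_nat_mul]
  push_cast
  rw [mul_div_cancel₀ _ (two_ne_zero), exp_log hw]

theorem sq_re (w : ℂ) : 0 ≤ (sq w).re := by
  rw [sq, exp_re]
  refine mul_nonneg (Real.exp_pos _).le (Real.cos_nonneg_of_mem_Icc ?_)
  have h1 : (log w / 2).im = arg w / 2 := by
    have : (log w / 2 : ℂ) = log w / ((2 : ℝ) : ℂ) := by norm_num
    rw [this, Complex.div_ofReal_im, log_im]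
  rw [h1]
  constructor
  · have := neg_pi_lt_arg w; linarith
  · have := arg_le_pi w; linarith

theorem norm_add_one_ge {v : ℂ} (hv : 0 ≤ v.re) : 1 ≤ ‖v + 1‖ := by
  have h1 := Complex.re_le_norm (v + 1)
  simp only [add_re, one_re] at h1
  linarith

theorem sq_close {w : ℂ} (hw : ‖w - 1‖ ≤ 3 / 8) : ‖sq w - 1‖ ≤ 1 / 4 := by
  have hw0 : w ≠ 0 := by
    rintro rfl
    norm_num at hw
  have h1 : (sq w - 1) * (sq w + 1) = w - 1 := by
    have := sq_sq hw0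
    linear_combination this
  have h2 : ‖sq w - 1‖ * ‖sq w + 1‖ = ‖w - 1‖ := by rw [← norm_mul, h1]
  have h3 := norm_add_one_ge (sq_re w)
  have h0 := norm_nonneg (sq w - 1)
  have h4 : ‖sq w - 1‖ ≤ 3 / 8 := by nlinarith
  have h5 : 2 - ‖sq w - 1‖ ≤ ‖sq w + 1‖ := by
    have h6 : ‖(2 : ℂ)‖ ≤ ‖sq w + 1‖ + ‖sq w - 1‖ := by
      have : (2 : ℂ) = (sq w + 1) - (sq w - 1) := by ring
      rw [this]; exact norm_sub_le _ _
    simp only [Complex.norm_ofNat] at h6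
    linarith
  nlinarith

theorem sq_differentiableAt {w : ℂ} (hw : ‖w - 1‖ ≤ 3 / 8) : DifferentiableAt ℂ sq w := by
  have h1 : w ∈ slitPlane := by
    left
    have := Complex.abs_re_le_norm (w - 1)
    simp only [sub_re, one_re] at this
    have := abs_le.1 (this.trans hw)
    linarith [this.1]
  unfold sq
  exact (((differentiableAt_log h1).div_const 2)).cexp

/-- the iteration -/
noncomputable def Fn (c : ℂ) : ℕ → ℂ → ℂ
  | 0 => fun _ => 1
  | n + 1 => fun s => sq (Fn c n (s ^ 2) - c * s ^ 2)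

variable {c : ℂ} {ρ : ℝ}

theorem sq_mem_ball (hρ1 : ρ ≤ 1) {s : ℂ} (hs : s ∈ ball (0 : ℂ) ρ) : s ^ 2 ∈ ball (0 : ℂ) ρ := by
  rw [mem_ball_zero_iff] at hs ⊢
  rw [norm_pow]
  nlinarith [norm_nonneg s]

theorem Fn_arg (hρ1 : ρ ≤ 1) (hρc : ‖c‖ * ρ ^ 2 ≤ 1 / 8) {n : ℕ}
    (ih : ∀ s ∈ ball (0 : ℂ) ρ, ‖Fn c n s - 1‖ ≤ 1 / 4) {s : ℂ} (hs : s ∈ ball (0 : ℂ) ρ) :
    ‖Fn c n (s ^ 2) - c * s ^ 2 - 1‖ ≤ 3 / 8 := by
  have h1 := ih _ (sq_mem_ball hρ1 hs)
  have h2 : ‖c * s ^ 2‖ ≤ 1 / 8 := by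
    rw [norm_mul, norm_pow]
    refine le_trans ?_ hρc
    gcongr
    rw [mem_ball_zero_iff] at hs
    exact hs.le
  have h3 : Fn c n (s ^ 2) - c * s ^ 2 - 1 = (Fn c n (s ^ 2) - 1) - c * s ^ 2 := by ring
  rw [h3]
  refine (norm_sub_le _ _).trans ?_
  linarith

theorem Fn_close (hρ1 : ρ ≤ 1) (hρc : ‖c‖ * ρ ^ 2 ≤ 1 / 8) (n : ℕ) :
    ∀ s ∈ ball (0 : ℂ) ρ, ‖Fn c n s - 1‖ ≤ 1 / 4 := by
  induction n with
  | zero => intro s hs; simp [Fn]
  | succ n ih => intro s hs; exact sq_close (Fn_arg hρ1 hρc ih hs)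

theorem Fn_diff (hρ1 : ρ ≤ 1) (hρc : ‖c‖ * ρ ^ 2 ≤ 1 / 8) (n : ℕ) :
    DifferentiableOn ℂ (Fn c n) (ball 0 ρ) := by
  induction n with
  | zero => exact differentiableOn_const _
  | succ n ih =>
    intro s hs
    have h1 := sq_differentiableAt (Fn_arg hρ1 hρc (Fn_close hρ1 hρc n) hs)
    have h2 : DifferentiableAt ℂ (Fn c n) (s ^ 2) :=
      (ih _ (sq_mem_ball hρ1 hs)).differentiableAt (isOpen_ball.mem_nhds (sq_mem_ball hρ1 hs))
    have h3 : DifferentiableAt ℂ (fun s => Fn c n (s ^ 2) - c * s ^ 2) s :=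
      (h2.comp s (differentiableAt_pow 2)).sub ((differentiableAt_pow 2).const_mul c)
    exact (DifferentiableAt.comp s h1 h3).differentiableWithinAt

theorem Fn_eq (hρ1 : ρ ≤ 1) (hρc : ‖c‖ * ρ ^ 2 ≤ 1 / 8) (n : ℕ) {s : ℂ} (hs : s ∈ ball (0 : ℂ) ρ) :
    Fn c (n + 1) s ^ 2 = Fn c n (s ^ 2) - c * s ^ 2 := by
  have h1 := Fn_arg hρ1 hρc (Fn_close hρ1 hρc n) hs
  apply sq_sq
  intro h0
  rw [h0] at h1
  norm_num at h1

theorem Fn_zero (n : ℕ) : Fn c n 0 = 1 := by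
  induction n with
  | zero => rfl
  | succ n ih =>
    simp only [Fn, ne_eq, OfNat.ofNat_ne_zero, not_false_eq_true, zero_pow, ih, mul_zero, sub_zero]
    simp [sq]

theorem Fn_cauchy (hρ1 : ρ ≤ 1) (hρc : ‖c‖ * ρ ^ 2 ≤ 1 / 8) (n : ℕ) :
    ∀ s ∈ ball (0 : ℂ) ρ, dist (Fn c n s) (Fn c (n + 1) s) ≤ 1 / 4 * (2 / 3) ^ n := by
  induction n with
  | zero =>
    intro s hs
    have := Fn_close hρ1 hρc 1 s hs
    rw [dist_comm, dist_eq_norm]
    simpa [Fn] using this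
  | succ n ih =>
    intro s hs
    have h1 := ih _ (sq_mem_ball hρ1 hs)
    rw [dist_eq_norm] at h1 ⊢
    have h2 : (Fn c (n + 1) s - Fn c (n + 2) s) * (Fn c (n + 1) s + Fn c (n + 2) s) =
        Fn c n (s ^ 2) - Fn c (n + 1) (s ^ 2) := by
      have e1 := Fn_eq hρ1 hρc n hs
      have e2 := Fn_eq hρ1 hρc (n + 1) hs
      linear_combination e1 - e2
    have h3 : ‖Fn c (n + 1) s - Fn c (n + 2) s‖ * ‖Fn c (n + 1) s + Fn c (n + 2) s‖ ≤
        1 / 4 * (2 / 3) ^ n := by rw [← norm_mul, h2]; exact h1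
    have h4 : 3 / 2 ≤ ‖Fn c (n + 1) s + Fn c (n + 2) s‖ := by
      have h5 := Fn_close hρ1 hρc (n + 1) s hs
      have h6 := Fn_close hρ1 hρc (n + 2) s hs
      have h7 : ‖(2 : ℂ)‖ ≤ ‖Fn c (n + 1) s + Fn c (n + 2) s‖ + ‖Fn c (n + 1) s - 1‖ +
          ‖Fn c (n + 2) s - 1‖ := by
        have : (2 : ℂ) = (Fn c (n + 1) s + Fn c (n + 2) s) - (Fn c (n + 1) s - 1) -
          (Fn c (n + 2) s - 1) := by ring
        rw [this]
        exact (norm_sub_le _ _).trans (add_le_add (norm_sub_le _ _) le_rfl)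
      simp only [Complex.norm_ofNat] at h7
      linarith
    have h0 := norm_nonneg (Fn c (n + 1) s - Fn c (n + 2) s)
    rw [pow_succ]
    nlinarith

theorem exists_local (c : ℂ) : ∃ ρ : ℝ, 0 < ρ ∧ ρ < 1 ∧ ∃ F, Good c ρ F := by
  obtain ⟨ρ, hρ0, hρ1, hρc⟩ : ∃ ρ : ℝ, 0 < ρ ∧ ρ < 1 ∧ ‖c‖ * ρ ^ 2 ≤ 1 / 8 := by
    refine ⟨1 / (8 * (‖c‖ + 1)), by positivity, ?_, ?_⟩
    · rw [div_lt_one (by positivity)]
      have := norm_nonneg c; linarith
    · have h0 := norm_nonneg c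
      rw [div_pow, one_pow, mul_one_div, div_le_div_iff₀ (by positivity) (by norm_num)]
      nlinarith
  refine ⟨ρ, hρ0, hρ1, ?_⟩
  have hlim : ∀ s ∈ ball (0 : ℂ) ρ, ∃ l, Tendsto (fun n => Fn c n s) atTop (𝓝 l) := by
    intro s hs
    exact cauchySeq_tendsto_of_complete (cauchySeq_of_le_geometric (2 / 3) (1 / 4) (by norm_num)
      (fun n => Fn_cauchy hρ1.le hρc n s hs))
  choose! F hF using hlim
  have hunif : TendstoUniformlyOn (Fn c) F atTop (ball 0 ρ) := by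
    rw [Metric.tendstoUniformlyOn_iff]
    intro ε hε
    have h1 : Tendsto (fun n : ℕ => 1 / 4 * (2 / 3 : ℝ) ^ n / (1 - 2 / 3)) atTop (𝓝 0) := by
      have := (tendsto_pow_atTop_nhds_zero_of_lt_one (r := (2 / 3 : ℝ)) (by norm_num)
        (by norm_num)).const_mul (1 / 4)
      have := this.div_const (1 - 2 / 3 : ℝ)
      simpa using this
    filter_upwards [h1.eventually (gt_mem_nhds hε)] with n hn s hs
    rw [dist_comm]
    exact (dist_le_of_le_geometric_of_tendsto (2 / 3) (1 / 4) (by norm_num)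
      (fun n => Fn_cauchy hρ1.le hρc n s hs) (hF s hs) n).trans_lt hn
  refine ⟨F, ?_, ?_, ?_⟩
  · exact hunif.tendstoLocallyUniformlyOn.differentiableOn
      (Eventually.of_forall (Fn_diff hρ1.le hρc)) isOpen_ball
  · have h1 := hF 0 (mem_ball_self hρ0)
    simp only [Fn_zero] at h1
    exact tendsto_nhds_unique h1 tendsto_const_nhds |>.symm ▸ rfl
  · intro s hs
    have h1 := ((hF s hs).comp (tendsto_add_atTop_nat 1)).pow 2
    have h2 := (hF _ (sq_mem_ball hρ1.le hs)).sub_const (c * s ^ 2)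
    refine tendsto_nhds_unique h1 (h2.congr fun n => ?_)
    exact (Fn_eq hρ1.le hρc n hs).symm

/-! ### extension to the unit disc -/

/-- analytic square roots on discs -/
theorem exists_sqrt {r : ℝ} (hr : 0 < r) {g : ℂ → ℂ} (hg : DifferentiableOn ℂ g (ball 0 r))
    (h0 : ∀ s ∈ ball (0 : ℂ) r, g s ≠ 0) (h1 : g 0 = 1) :
    ∃ F : ℂ → ℂ, DifferentiableOn ℂ F (ball 0 r) ∧ F 0 = 1 ∧ ∀ s ∈ ball (0 : ℂ) r, F s ^ 2 = g s := by
  have hgd : DifferentiableOn ℂ (fun s => deriv g s / g s) (ball 0 r) :=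
    (hg.deriv isOpen_ball).div hg h0
  obtain ⟨P, hP0, hP⟩ := hgd.isExactOn_ball.with_val_at 0 0
  have hPd : DifferentiableOn ℂ P (ball 0 r) := fun s hs =>
    (hP s hs).differentiableAt.differentiableWithinAt
  have hQ : ∀ s ∈ ball (0 : ℂ) r, HasDerivAt (fun s => g s * exp (-P s)) 0 s := by
    intro s hs
    have e1 : HasDerivAt g (deriv g s) s :=
      (hg.differentiableAt (isOpen_ball.mem_nhds hs)).hasDerivAt
    have e2 := (hP s hs).neg.cexp
    have e3 := e1.mul e2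
    have hz : deriv g s * cexp ((-P) s) + g s * (cexp ((-P) s) * -(deriv g s / g s)) = 0 := by
      have := h0 s hs
      field_simp
      ring
    rw [hz] at e3
    exact e3
  have hconst : ∀ s ∈ ball (0 : ℂ) r, g s * exp (-P s) = 1 := by
    intro s hs
    have h2 := isOpen_ball.is_const_of_deriv_eq_zero (isPreconnected_ball)
      (f := fun s => g s * exp (-P s))
      (fun s hs => (hQ s hs).differentiableAt.differentiableWithinAt)
      (fun s hs => (hQ s hs).deriv) hs (mem_ball_self hr)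
    simp only [hP0, h1, neg_zero, exp_zero, mul_one] at h2
    exact h2
  refine ⟨fun s => exp (P s / 2), (hPd.div_const 2).cexp, by simp [hP0], fun s hs => ?_⟩
  have h3 := hconst s hs
  rw [← Complex.exp_nat_mul]
  push_cast
  rw [mul_div_cancel₀ _ (two_ne_zero)]
  rw [exp_neg] at h3
  field_simp at h3
  exact h3.symm

theorem f_iter {r : ℝ} (hr1 : r ≤ 1) {F : ℂ → ℂ} (h : Good c r F) (n : ℕ) {s : ℂ}
    (hs : s ∈ ball (0 : ℂ) r) (hs0 : s ≠ 0) :
    (f c)^[n] (s⁻¹ * F s) = (s ^ 2 ^ n)⁻¹ * F (s ^ 2 ^ n) := by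
  induction n generalizing s with
  | zero => simp
  | succ n ih =>
    have h1 : f c (s⁻¹ * F s) = (s ^ 2)⁻¹ * F (s ^ 2) := by
      rw [f, mul_pow, h.eq s hs]
      field_simp
      ring
    rw [Function.iterate_succ_apply, h1, ih (sq_mem_ball hr1 hs) (pow_ne_zero _ hs0), ← pow_mul,
      pow_succ, mul_comm (2 ^ n) 2]

theorem notMem_K {r : ℝ} (hr0 : 0 < r) (hr1 : r ≤ 1) {F : ℂ → ℂ} (h : Good c r F) {s : ℂ}
    (hs : s ∈ ball (0 : ℂ) r) (hs0 : s ≠ 0) : s⁻¹ * F s ∉ K c := by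
  rintro ⟨R, hR⟩
  have hs1 : ‖s‖ < 1 := by
    rw [mem_ball_zero_iff] at hs; linarith
  have ht : Tendsto (fun n : ℕ => s ^ 2 ^ n) atTop (𝓝 0) :=
    (tendsto_pow_atTop_nhds_zero_of_norm_lt_one hs1).comp
      (tendsto_pow_atTop_atTop_of_one_lt one_lt_two)
  have hF : Tendsto (fun n : ℕ => ‖F (s ^ 2 ^ n)‖) atTop (𝓝 1) := by
    have h1 : ContinuousAt F 0 :=
      (h.diff.differentiableAt (isOpen_ball.mem_nhds (mem_ball_self hr0))).continuousAt
    have h2 := (h1.tendsto.comp ht).norm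
    rw [h.zero, norm_one] at h2
    exact h2
  have hinv : Tendsto (fun n : ℕ => ‖(s ^ 2 ^ n)⁻¹‖) atTop atTop := by
    have h1 : Tendsto (fun n : ℕ => ‖s ^ 2 ^ n‖) atTop (𝓝[>] 0) := by
      rw [tendsto_nhdsWithin_iff]
      refine ⟨by simpa using ht.norm, Eventually.of_forall fun n => ?_⟩
      exact norm_pos_iff.2 (pow_ne_zero _ hs0)
    refine (tendsto_inv_nhdsGT_zero.comp h1).congr fun n => ?_
    simp
  have hlim := hinv.atTop_mul_pos one_pos hF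
  obtain ⟨n, hn⟩ := (hlim.eventually (eventually_gt_atTop R)).exists
  have h3 := hR n
  rw [f_iter hr1 h n hs hs0, norm_mul] at h3
  linarith

theorem c_mem_K (h0 : (0 : ℂ) ∈ K c) : c ∈ K c := by
  obtain ⟨R, hR⟩ := h0
  refine ⟨R, fun n => ?_⟩
  have := hR (n + 1)
  rw [Function.iterate_succ_apply] at this
  simpa [f] using this

theorem F_ne_zero (h0 : (0 : ℂ) ∈ K c) {r : ℝ} (hr0 : 0 < r) (hr1 : r ≤ 1) {F : ℂ → ℂ}
    (h : Good c r F) {s : ℂ} (hs : s ∈ ball (0 : ℂ) r) : F s ≠ 0 := by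
  by_cases hs0 : s = 0
  · rw [hs0, h.zero]; exact one_ne_zero
  · intro hF
    apply notMem_K hr0 hr1 h hs hs0
    rw [hF, mul_zero]; exact h0

theorem step (h0 : (0 : ℂ) ∈ K c) {r : ℝ} (hr0 : 0 < r) (hr1 : r < 1) {F : ℂ → ℂ}
    (h : Good c r F) : ∃ F', Good c (√r) F' ∧ EqOn F' F (ball 0 r) := by
  have hrr : r ≤ √r := by
    rw [Real.le_sqrt hr0.le hr0.le]; nlinarith
  have hsqr : 0 < √r := Real.sqrt_pos.2 hr0
  have hsq : ∀ s ∈ ball (0 : ℂ) (√r), s ^ 2 ∈ ball (0 : ℂ) r := by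
    intro s hs
    rw [mem_ball_zero_iff] at hs ⊢
    rw [norm_pow]
    have := Real.sq_sqrt hr0.le
    nlinarith [norm_nonneg s]
  have hg : DifferentiableOn ℂ (fun s => F (s ^ 2) - c * s ^ 2) (ball 0 (√r)) := by
    refine DifferentiableOn.sub ?_ ((differentiableOn_id.pow 2).const_mul c)
    exact h.diff.comp (differentiableOn_id.pow 2) hsq
  have hg0 : ∀ s ∈ ball (0 : ℂ) (√r), F (s ^ 2) - c * s ^ 2 ≠ 0 := by
    intro s hs hs0
    by_cases hz : s = 0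
    · rw [hz] at hs0
      simp [h.zero] at hs0
    · apply notMem_K hr0 hr1.le h (hsq s hs) (pow_ne_zero 2 hz)
      rw [sub_eq_zero.1 hs0]
      have : (s ^ 2)⁻¹ * (c * s ^ 2) = c := by field_simp
      rw [this]
      exact c_mem_K h0
  obtain ⟨F', hF'd, hF'0, hF'sq⟩ := exists_sqrt hsqr hg hg0 (by simp [h.zero])
  have hsub : ball (0 : ℂ) r ⊆ ball 0 (√r) := ball_subset_ball hrr
  have heq : EqOn F' F (ball 0 r) := by
    refine isPreconnected_ball.eq_of_sq_eq (hF'd.continuousOn.mono hsub) h.diff.continuousOn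
      ?_ (fun {x} hx => F_ne_zero h0 hr0 hr1.le h hx) (mem_ball_self hr0)
      (by rw [hF'0, h.zero])
    intro s hs
    simp only [Pi.pow_apply]
    rw [hF'sq s (hsub hs), h.eq s hs]
  refine ⟨F', ⟨hF'd, hF'0, fun s hs => ?_⟩, heq⟩
  rw [hF'sq s hs, heq (hsq s hs)]

/-- radii -/
noncomputable def rr (ρ : ℝ) : ℕ → ℝ
  | 0 => ρ
  | n + 1 => √(rr ρ n)

theorem rr_mem {ρ : ℝ} (h0 : 0 < ρ) (h1 : ρ < 1) (n : ℕ) : 0 < rr ρ n ∧ rr ρ n < 1 := by
  induction n with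
  | zero => exact ⟨h0, h1⟩
  | succ n ih =>
    refine ⟨Real.sqrt_pos.2 ih.1, ?_⟩
    rw [rr, Real.sqrt_lt' one_pos]
    linarith [ih.2]

theorem rr_pow {ρ : ℝ} (h0 : 0 < ρ) (h1 : ρ < 1) (n : ℕ) : rr ρ n ^ 2 ^ n = ρ := by
  induction n with
  | zero => simp [rr]
  | succ n ih =>
    rw [rr, pow_succ, mul_comm, pow_mul, Real.sq_sqrt (rr_mem h0 h1 n).1.le, ih]

theorem rr_mono {ρ : ℝ} (h0 : 0 < ρ) (h1 : ρ < 1) : Monotone (rr ρ) := by
  refine monotone_nat_of_le_succ fun n => ?_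
  have := rr_mem h0 h1 n
  rw [rr, Real.le_sqrt this.1.le this.1.le]
  nlinarith

theorem exists_rr {ρ : ℝ} (h0 : 0 < ρ) (h1 : ρ < 1) {s : ℂ} (hs : s ∈ ball (0 : ℂ) 1) :
    ∃ n, s ∈ ball (0 : ℂ) (rr ρ n) := by
  rw [mem_ball_zero_iff] at hs
  have ht : Tendsto (fun n : ℕ => ‖s‖ ^ 2 ^ n) atTop (𝓝 0) :=
    (tendsto_pow_atTop_nhds_zero_of_lt_one (norm_nonneg s) hs).comp
      (tendsto_pow_atTop_atTop_of_one_lt one_lt_two)
  obtain ⟨n, hn⟩ := (ht.eventually (gt_mem_nhds h0)).exists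
  refine ⟨n, ?_⟩
  rw [mem_ball_zero_iff]
  rw [← rr_pow h0 h1 n] at hn
  exact lt_of_pow_lt_pow_left₀ _ (rr_mem h0 h1 n).1.le hn

theorem exists_global (h0 : (0 : ℂ) ∈ K c) : ∃ F, Good c 1 F := by
  classical
  obtain ⟨ρ, hρ0, hρ1, F0, hF0⟩ := exists_local c
  have hstep : ∀ (r : ℝ) (F : ℂ → ℂ), 0 < r → r < 1 → Good c r F →
      ∃ F', Good c (√r) F' ∧ EqOn F' F (ball 0 r) := fun r F hr0 hr1 h => step h0 hr0 hr1 h
  choose! T hT1 hT2 using hstep
  let G : ℕ → ℂ → ℂ := fun n => Nat.rec F0 (fun n F => T (rr ρ n) F) n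
  have hG : ∀ n, Good c (rr ρ n) (G n) := by
    intro n
    induction n with
    | zero => exact hF0
    | succ n ih => exact hT1 _ _ (rr_mem hρ0 hρ1 n).1 (rr_mem hρ0 hρ1 n).2 ih
  have hG1 : ∀ n, EqOn (G (n + 1)) (G n) (ball 0 (rr ρ n)) := fun n =>
    hT2 _ _ (rr_mem hρ0 hρ1 n).1 (rr_mem hρ0 hρ1 n).2 (hG n)
  have hG2 : ∀ n m, n ≤ m → EqOn (G m) (G n) (ball 0 (rr ρ n)) := by
    intro n m hnm
    induction m, hnm using Nat.le_induction with
    | base => exact fun _ _ => rfl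
    | succ m hm ih =>
      intro s hs
      rw [hG1 m (ball_subset_ball (rr_mono hρ0 hρ1 hm) hs), ih hs]
  let F : ℂ → ℂ := fun s => if h : ∃ n, s ∈ ball (0 : ℂ) (rr ρ n) then G (Nat.find h) s else 0
  have hF : ∀ n, EqOn F (G n) (ball 0 (rr ρ n)) := by
    intro n s hs
    have h : ∃ n, s ∈ ball (0 : ℂ) (rr ρ n) := ⟨n, hs⟩
    simp only [F, dif_pos h]
    exact (hG2 _ _ (Nat.find_min' h hs) (Nat.find_spec h)).symm
  refine ⟨F, ?_, ?_, ?_⟩
  · intro s hs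
    obtain ⟨n, hn⟩ := exists_rr hρ0 hρ1 hs
    have h1 : DifferentiableAt ℂ (G n) s :=
      (hG n).diff.differentiableAt (isOpen_ball.mem_nhds hn)
    have h2 : F =ᶠ[𝓝 s] G n := by
      filter_upwards [isOpen_ball.mem_nhds hn] with t ht using hF n ht
    exact (h1.congr_of_eventuallyEq h2).differentiableWithinAt
  · rw [hF 0 (mem_ball_self hρ0)]; exact hF0.zero
  · intro s hs
    obtain ⟨n, hn⟩ := exists_rr hρ0 hρ1 hs
    rw [hF n hn, hF n (sq_mem_ball (rr_mem hρ0 hρ1 n).2.le hn), (hG n).eq s hn]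

/-! ### the parametrisation -/

theorem even {F : ℂ → ℂ} (h0 : (0 : ℂ) ∈ K c) (h : Good c 1 F) {s : ℂ} (hs : s ∈ ball (0 : ℂ) 1) :
    F (-s) = F s := by
  have hneg : ∀ s ∈ ball (0 : ℂ) 1, -s ∈ ball (0 : ℂ) 1 := by
    intro s hs; rw [mem_ball_zero_iff] at hs ⊢; rwa [norm_neg]
  have h1 : EqOn (fun s => F (-s)) F (ball 0 1) := by
    refine isPreconnected_ball.eq_of_sq_eq ?_ h.diff.continuousOn ?_
      (fun {x} hx => F_ne_zero h0 one_pos le_rfl h hx) (mem_ball_self one_pos) (by simp)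
    · exact h.diff.continuousOn.comp continuous_neg.continuousOn hneg
    · intro s hs
      simp only [Pi.pow_apply]
      rw [h.eq _ (hneg s hs), h.eq s hs, neg_sq]
  exact h1 hs

theorem local_inv {F : ℂ → ℂ} (h0 : (0 : ℂ) ∈ K c) (h : Good c 1 F) :
    ∃ ε > 0, ∃ δ > 0, InjOn (fun s => s / F s) (ball 0 ε) ∧
      ∀ y ∈ ball (0 : ℂ) δ, ∃ s ∈ ball (0 : ℂ) 1, s / F s = y := by
  have hne := fun (s : ℂ) (hs : s ∈ ball (0 : ℂ) 1) => F_ne_zero h0 one_pos le_rfl h hs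
  have hd : DifferentiableOn ℂ (fun s => s / F s) (ball 0 1) := differentiableOn_id.div h.diff hne
  have hmem : ball (0 : ℂ) 1 ∈ 𝓝 (0 : ℂ) := isOpen_ball.mem_nhds (mem_ball_self one_pos)
  have han : AnalyticAt ℂ (fun s => s / F s) 0 := hd.analyticAt hmem
  have hder : HasDerivAt (fun s => s / F s) 1 0 := by
    have e1 := (h.diff.differentiableAt hmem).hasDerivAt
    have e2 := (hasDerivAt_id (0 : ℂ)).div e1 (by rw [h.zero]; exact one_ne_zero)
    have hz : (1 * F 0 - id 0 * deriv F 0) / F 0 ^ 2 = (1 : ℂ) := by simp [h.zero]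
    rw [hz] at e2
    exact e2
  have hstr : HasStrictDerivAt (fun s => s / F s) 1 0 := by
    have := han.hasStrictDerivAt
    rwa [hder.deriv] at this
  have hmap := hstr.map_nhds_eq one_ne_zero
  have hequiv := hstr.hasStrictFDerivAt_equiv one_ne_zero
  obtain ⟨ε, hε, hεsub⟩ := Metric.mem_nhds_iff.1
    ((hequiv.toOpenPartialHomeomorph (fun s => s / F s)).open_source.mem_nhds
      hequiv.mem_toOpenPartialHomeomorph_source)
  refine ⟨ε, hε, ?_⟩
  have h3 : (fun s => s / F s) '' ball 0 1 ∈ 𝓝 (0 : ℂ) := by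
    have : (fun s => s / F s) '' ball 0 1 ∈ map (fun s => s / F s) (𝓝 0) := image_mem_map hmem
    rw [hmap] at this
    simpa using this
  obtain ⟨δ, hδ, hδsub⟩ := Metric.mem_nhds_iff.1 h3
  refine ⟨δ, hδ, ?_, fun y hy => ?_⟩
  · have := (hequiv.toOpenPartialHomeomorph (fun s => s / F s)).injOn
    exact this.mono hεsub
  · obtain ⟨s, hs, hsy⟩ := hδsub hy
    exact ⟨s, hs, hsy⟩

/-- the parametrisation -/
noncomputable def Ps (F : ℂ → ℂ) (ζ : ℂ) : ℂ := exp ζ * F (exp (-ζ))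

theorem exp_mem {ζ : ℂ} (hζ : 0 < ζ.re) : exp (-ζ) ∈ ball (0 : ℂ) 1 := by
  rw [mem_ball_zero_iff, norm_exp, neg_re, Real.exp_lt_one_iff]
  linarith

theorem Ps_eq (F : ℂ → ℂ) (ζ : ℂ) : Ps F ζ = (exp (-ζ))⁻¹ * F (exp (-ζ)) := by
  rw [Ps, exp_neg, inv_inv]

theorem Ps_notMem {F : ℂ → ℂ} (h : Good c 1 F) {ζ : ℂ} (hζ : 0 < ζ.re) : Ps F ζ ∉ K c := by
  rw [Ps_eq]; exact notMem_K one_pos le_rfl h (exp_mem hζ) (exp_ne_zero _)

theorem Ps_dbl {F : ℂ → ℂ} (h : Good c 1 F) {ζ : ℂ} (hζ : 0 < ζ.re) :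
    Ps F (2 * ζ) = Ps F ζ ^ 2 + c := by
  have h1 := h.eq _ (exp_mem hζ)
  have h2 : exp (-(2 * ζ)) = exp (-ζ) ^ 2 := by
    rw [← Complex.exp_nat_mul]; congr 1; push_cast; ring
  have h3 : exp (2 * ζ) = exp ζ ^ 2 := by
    rw [← Complex.exp_nat_mul]; congr 1
  have h4 : exp ζ * exp (-ζ) = 1 := by rw [← exp_add, add_neg_cancel, exp_zero]
  rw [Ps, Ps, h2, h3, mul_pow, h1]
  have h5 : exp ζ ^ 2 * exp (-ζ) ^ 2 = 1 := by rw [← mul_pow, h4, one_pow]
  linear_combination c * h5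

theorem Ps_per {F : ℂ → ℂ} (ζ : ℂ) (k : ℤ) : Ps F (ζ + k * (2 * Real.pi * I)) = Ps F ζ := by
  have h1 : exp (ζ + k * (2 * Real.pi * I)) = exp ζ := by
    rw [Complex.exp_eq_exp_iff_exists_int]; exact ⟨k, rfl⟩
  have h2 : exp (-(ζ + k * (2 * Real.pi * I))) = exp (-ζ) := by
    rw [Complex.exp_eq_exp_iff_exists_int]
    refine ⟨-k, ?_⟩
    push_cast; ring
  rw [Ps, Ps, h1, h2]

theorem Ps_half {F : ℂ → ℂ} (h0 : (0 : ℂ) ∈ K c) (h : Good c 1 F) {ζ : ℂ} (hζ : 0 < ζ.re) :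
    Ps F (ζ + Real.pi * I) = - Ps F ζ := by
  have h1 : exp (ζ + Real.pi * I) = - exp ζ := by
    rw [exp_add, exp_pi_mul_I, mul_neg_one]
  have h2 : exp (-(ζ + Real.pi * I)) = - exp (-ζ) := by
    rw [exp_neg, h1, exp_neg, inv_neg]
  rw [Ps, Ps, h1, h2, even h0 h (exp_mem hζ)]
  ring

theorem Ps_pow_eq {F : ℂ → ℂ} (h : Good c 1 F) {ζ ξ : ℂ} (hζ : 0 < ζ.re) (hξ : 0 < ξ.re)
    (he : Ps F ζ = Ps F ξ) (n : ℕ) : Ps F (2 ^ n * ζ) = Ps F (2 ^ n * ξ) := by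
  have hre : ∀ (n : ℕ) (ζ : ℂ), 0 < ζ.re → 0 < (2 ^ n * ζ).re := by
    intro n ζ hζ
    have : (2 ^ n * ζ : ℂ) = (((2 ^ n : ℝ)) : ℂ) * ζ := by push_cast; rfl
    rw [this, Complex.re_ofReal_mul]
    positivity
  induction n with
  | zero => simpa using he
  | succ n ih =>
    rw [pow_succ', mul_assoc, mul_assoc, Ps_dbl h (hre n ζ hζ), Ps_dbl h (hre n ξ hξ), ih]

theorem Ps_inj {F : ℂ → ℂ} (h0 : (0 : ℂ) ∈ K c) (h : Good c 1 F) {ζ ξ : ℂ} (hζ : 0 < ζ.re)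
    (hξ : 0 < ξ.re) (he : Ps F ζ = Ps F ξ) : ∃ k : ℤ, ξ = ζ + k * (2 * Real.pi * I) := by
  obtain ⟨ε, hε, δ, hδ, hinj, -⟩ := local_inv h0 h
  have hre : ∀ (n : ℕ) (ζ : ℂ), (2 ^ n * ζ : ℂ).re = 2 ^ n * ζ.re := by
    intro n ζ
    have : (2 ^ n * ζ : ℂ) = (((2 ^ n : ℝ)) : ℂ) * ζ := by push_cast; rfl
    rw [this, Complex.re_ofReal_mul]
  have hsmall : ∀ ζ : ℂ, 0 < ζ.re → ∀ᶠ n : ℕ in atTop, exp (-(2 ^ n * ζ)) ∈ ball (0 : ℂ) ε := by
    intro ζ hζ
    have h1 : Tendsto (fun n : ℕ => Real.exp (-(2 ^ n * ζ.re))) atTop (𝓝 0) := by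
      refine Real.tendsto_exp_atBot.comp (tendsto_neg_atTop_atBot.comp ?_)
      exact (tendsto_pow_atTop_atTop_of_one_lt one_lt_two).atTop_mul_const hζ
    filter_upwards [h1.eventually (gt_mem_nhds hε)] with n hn
    rw [mem_ball_zero_iff, norm_exp, neg_re, hre]
    exact hn
  obtain ⟨n, hn1, hn2⟩ := ((hsmall ζ hζ).and (hsmall ξ hξ)).exists
  have h2 := Ps_pow_eq h hζ hξ he n
  rw [Ps_eq, Ps_eq] at h2
  have h3 : exp (-(2 ^ n * ζ)) = exp (-(2 ^ n * ξ)) := by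
    apply hinj hn1 hn2
    simp only [div_eq_mul_inv]
    have h5 := congrArg (fun z => z⁻¹) h2
    simp only [mul_inv, inv_inv] at h5
    exact h5
  -- descent
  have key : ∀ m : ℕ, (∃ k : ℤ, (2 ^ m * ξ : ℂ) = 2 ^ m * ζ + k * (2 * Real.pi * I)) →
      ∃ k : ℤ, ξ = ζ + k * (2 * Real.pi * I) := by
    intro m
    induction m with
    | zero => rintro ⟨k, hk⟩; exact ⟨k, by simpa using hk⟩
    | succ m ih =>
      rintro ⟨k, hk⟩
      apply ih
      rcases Int.even_or_odd' k with ⟨l, rfl | rfl⟩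
      · refine ⟨l, ?_⟩
        have h4 : (2 : ℂ) * (2 ^ m * ξ) = 2 * (2 ^ m * ζ + l * (2 * Real.pi * I)) := by
          have : (2 : ℂ) ^ (m + 1) = 2 * 2 ^ m := pow_succ' 2 m
          rw [this] at hk
          push_cast at hk
          linear_combination hk
        exact mul_left_cancel₀ two_ne_zero h4
      · exfalso
        have h4 : (2 ^ m * ξ : ℂ) = (2 ^ m * ζ + Real.pi * I) + l * (2 * Real.pi * I) := by
          have : (2 : ℂ) ^ (m + 1) = 2 * 2 ^ m := pow_succ' 2 m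
          rw [this] at hk
          push_cast at hk
          have h5 : (2 : ℂ) * (2 ^ m * ξ) = 2 * ((2 ^ m * ζ + Real.pi * I) +
              l * (2 * Real.pi * I)) := by linear_combination hk
          exact mul_left_cancel₀ two_ne_zero h5
        have h6 := Ps_pow_eq h hζ hξ he m
        have hpos : 0 < (2 ^ m * ζ : ℂ).re := by rw [hre]; positivity
        rw [h4, Ps_per, Ps_half h0 h hpos] at h6
        have h7 : Ps F (2 ^ m * ζ) = 0 := by
          have : (2 : ℂ) * Ps F (2 ^ m * ζ) = 0 := by linear_combination h6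
          exact (mul_eq_zero.1 this).resolve_left two_ne_zero
        apply Ps_notMem h hpos
        rw [h7]; exact h0
  apply key n
  obtain ⟨k, hk⟩ := Complex.exp_eq_exp_iff_exists_int.1 h3
  exact ⟨k, by linear_combination hk⟩

theorem Ps_surj {F : ℂ → ℂ} (h0 : (0 : ℂ) ∈ K c) (h : Good c 1 F) {u : ℂ} (hu : u ∉ K c) :
    ∃ ζ : ℂ, 0 < ζ.re ∧ Ps F ζ = u := by
  obtain ⟨ε, hε, δ, hδ, -, hsurj⟩ := local_inv h0 h
  have key : ∀ (n : ℕ) (u : ℂ), 1 / δ < ‖(f c)^[n] u‖ → ∃ ζ : ℂ, 0 < ζ.re ∧ Ps F ζ = u := by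
    intro n
    induction n with
    | zero =>
      intro u hu
      simp only [Function.iterate_zero, id_eq] at hu
      have hu0 : u ≠ 0 := by
        rintro rfl
        simp only [norm_zero] at hu
        have : 0 < 1 / δ := by positivity
        linarith
      have hun : 0 < ‖u‖ := norm_pos_iff.2 hu0
      obtain ⟨s, hs, hsy⟩ := hsurj u⁻¹ (by
        rw [mem_ball_zero_iff, norm_inv]
        rw [div_lt_iff₀ hδ] at hu
        rw [inv_lt_iff_one_lt_mul₀ hun, mul_comm]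
        exact hu)
      have hs0 : s ≠ 0 := by
        rintro rfl
        rw [zero_div] at hsy
        exact inv_ne_zero hu0 hsy.symm
      refine ⟨-log s, ?_, ?_⟩
      · rw [neg_re, log_re]
        have h1 : Real.log ‖s‖ < 0 := by
          rw [mem_ball_zero_iff] at hs
          exact Real.log_neg (norm_pos_iff.2 hs0) hs
        linarith
      · rw [Ps_eq, neg_neg, exp_log hs0]
        have h2 := congrArg (fun z => z⁻¹) hsy
        simp only [inv_div, inv_inv] at h2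
        rw [← h2]
        field_simp
    | succ n ih =>
      intro u hu
      rw [Function.iterate_succ_apply] at hu
      obtain ⟨η, hη, hηu⟩ := ih (f c u) hu
      have hre : 0 < (η / 2).re := by
        have : (η / 2 : ℂ) = η / ((2 : ℝ) : ℂ) := by norm_num
        rw [this, Complex.div_ofReal_re]
        positivity
      have h1 := Ps_dbl h hre
      rw [mul_div_cancel₀ _ (two_ne_zero), hηu, f] at h1
      have h2 : u ^ 2 = Ps F (η / 2) ^ 2 := add_right_cancel h1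
      rcases sq_eq_sq_iff_eq_or_eq_neg.1 h2 with h3 | h3
      · exact ⟨η / 2, hre, h3.symm⟩
      · refine ⟨η / 2 + Real.pi * I, ?_, ?_⟩
        · simpa using hre
        · rw [Ps_half h0 h hre, h3]
  have : ∃ n, 1 / δ < ‖(f c)^[n] u‖ := by
    by_contra hcon
    push Not at hcon
    exact hu ⟨1 / δ, hcon⟩
  obtain ⟨n, hn⟩ := this
  exact key n u hn

theorem Ps_asymp {F : ℂ → ℂ} (h : Good c 1 F) :
    ∃ C : ℝ, ∀ ζ : ℂ, 0 < ζ.re → ‖Ps F ζ - exp ζ‖ ≤ C := by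
  have hmem : ball (0 : ℂ) 1 ∈ 𝓝 (0 : ℂ) := isOpen_ball.mem_nhds (mem_ball_self one_pos)
  have hds : ContinuousOn (dslope F 0) (closedBall 0 (Real.exp (-1))) := by
    refine ((Complex.differentiableOn_dslope hmem).2 h.diff).continuousOn.mono ?_
    apply closedBall_subset_ball
    rw [Real.exp_lt_one_iff]; norm_num
  obtain ⟨C1, hC1⟩ := (isCompact_closedBall (0 : ℂ) (Real.exp (-1))).exists_bound_of_continuousOn hds
  have hC10 : 0 ≤ C1 := (norm_nonneg _).trans (hC1 0 (mem_closedBall_self (Real.exp_pos _).le))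
  have hfar : ∀ ζ : ℂ, 1 ≤ ζ.re → ‖Ps F ζ - exp ζ‖ ≤ C1 := by
    intro ζ hζ
    have hs : exp (-ζ) ∈ closedBall (0 : ℂ) (Real.exp (-1)) := by
      rw [mem_closedBall_zero_iff, norm_exp, neg_re, Real.exp_le_exp]
      linarith
    have h1 : Ps F ζ - exp ζ = dslope F 0 (exp (-ζ)) := by
      have h2 := sub_smul_dslope F 0 (exp (-ζ))
      rw [sub_zero, h.zero, smul_eq_mul] at h2
      have h4 : exp ζ * exp (-ζ) = 1 := by rw [← exp_add, add_neg_cancel, exp_zero]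
      rw [Ps]
      linear_combination (dslope F 0 (exp (-ζ))) * h4 - exp ζ * h2
    rw [h1]
    exact hC1 _ hs
  set M : ℝ := Real.exp 2 + C1 + 1 + ‖c‖ with hM
  have hM1 : 1 + ‖c‖ ≤ M := by
    have := Real.exp_pos 2; linarith
  have hc0 := norm_nonneg c
  have hnear : ∀ (n : ℕ) (ζ : ℂ), 0 < ζ.re → 1 ≤ 2 ^ n * ζ.re → ζ.re ≤ 2 → ‖Ps F ζ‖ ≤ M := by
    have hbase : ∀ ζ : ℂ, 1 ≤ ζ.re → ζ.re ≤ 2 → ‖Ps F ζ‖ ≤ M := by
      intro ζ h1 h2
      have h3 := hfar ζ h1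
      have h4 : ‖exp ζ‖ ≤ Real.exp 2 := by rw [norm_exp]; exact Real.exp_le_exp.2 h2
      have h5 : ‖Ps F ζ‖ ≤ ‖Ps F ζ - exp ζ‖ + ‖exp ζ‖ := by
        have : Ps F ζ = (Ps F ζ - exp ζ) + exp ζ := by ring
        conv_lhs => rw [this]
        exact norm_add_le _ _
      linarith
    intro n
    induction n with
    | zero => intro ζ hζ h1 h2; exact hbase ζ (by simpa using h1) h2
    | succ n ih =>
      intro ζ hζ h1 h2
      by_cases h3 : 1 ≤ ζ.re
      · exact hbase ζ h3 h2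
      · push Not at h3
        have hre : (2 * ζ).re = 2 * ζ.re := by simp
        have h4 := ih (2 * ζ) (by rw [hre]; linarith) (by
          rw [hre]
          rw [pow_succ] at h1
          linarith) (by rw [hre]; linarith)
        rw [Ps_dbl h hζ] at h4
        have h5 : ‖Ps F ζ‖ ^ 2 ≤ M + ‖c‖ := by
          rw [← norm_pow]
          have : Ps F ζ ^ 2 = (Ps F ζ ^ 2 + c) - c := by ring
          rw [this]
          exact (norm_sub_le _ _).trans (by linarith)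
        nlinarith [norm_nonneg (Ps F ζ)]
  refine ⟨C1 + M + Real.exp 1, fun ζ hζ => ?_⟩
  have hM0 : 0 ≤ M := by linarith
  by_cases h1 : 1 ≤ ζ.re
  · have := hfar ζ h1
    have := Real.exp_pos 1
    linarith
  · push Not at h1
    obtain ⟨n, hn⟩ := pow_unbounded_of_one_lt (1 / ζ.re) one_lt_two
    rw [div_lt_iff₀ hζ] at hn
    have h2 := hnear n ζ hζ hn.le (by linarith)
    have h3 : ‖exp ζ‖ ≤ Real.exp 1 := by rw [norm_exp]; exact Real.exp_le_exp.2 h1.le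
    refine (norm_sub_le _ _).trans ?_
    linarith

end Boettcher

open Boettcher in
/-- existence of the Boettcher parametrisation when `0 ∈ K c`. -/
theorem exists_Psi (c : ℂ) (h0 : (0 : ℂ) ∈ K c) : ∃ Ψ, IsPsi c Ψ := by
  obtain ⟨F, h⟩ := exists_global h0
  refine ⟨Ps F, ?_, fun ζ hζ => Ps_notMem h hζ, fun ζ hζ => ?_, fun ζ hζ => Ps_dbl h hζ,
    fun ζ ξ hζ hξ he => Ps_inj h0 h hζ hξ he, fun u hu => Ps_surj h0 h hu, Ps_asymp h⟩
  · refine differentiable_exp.differentiableOn.mul ?_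
    exact h.diff.comp (differentiable_exp.comp differentiable_neg).differentiableOn
      (fun ζ hζ => exp_mem hζ)
  · have := Ps_per (F := F) ζ 1
    simpa using this

end Pool.Agent.Cremer
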