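import Pool.Agent.Cremer.Mane3

/-!
# Recurrence of the critical point and boundedness of the critical orbit
-/

open Set Filter Topology Complex Metric

namespace Pool.Agent.Cremer

variable {c z₁ : ℂ}

theorem iter_fixed (hfix : f c z₁ = z₁) (n : ℕ) : (f c)^[n] z₁ = z₁ :=
  Function.iterate_fixed hfix n

theorem hasDerivAt_iter_fixed (hfix : f c z₁ = z₁) (n : ℕ) :
    HasDerivAt (f c)^[n] ((2 * z₁) ^ n) z₁ := by
  induction n with
  | zero => simpa using hasDerivAt_id z₁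
  | succ n ih =>
    rw [Function.iterate_succ']
    have h1 : HasDerivAt (f c) (2 * z₁) ((f c)^[n] z₁) := by
      rw [iter_fixed hfix]; exact hasDerivAt_f z₁
    have h2 := h1.comp z₁ ih
    rw [pow_succ, mul_comm]
    exact h2

theorem fixed_mem_K (hfix : f c z₁ = z₁) : z₁ ∈ K c :=
  ⟨‖z₁‖, fun n => by rw [iter_fixed hfix]⟩

/-- If all inverse branches at the indifferent fixed point exist on a fixed ball then the point is
not in the Julia set. -/
theorem notMem_J_of_sections (hfix : f c z₁ = z₁) (hmul : ‖2 * z₁‖ = 1) {ρ : ℝ} (hρ : 0 < ρ)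
    (h : ∀ n, ∃ g, Sec c n (ball z₁ ρ) g ∧ g z₁ = z₁) : z₁ ∉ J c := by
  intro hJ
  have hkap := kap_pos
  have hsub : ∀ n, ∀ u, ‖u - z₁‖ < kap * ρ → ‖(f c)^[n] u - z₁‖ < ρ := by
    intro n u hu
    obtain ⟨g, hg, hgz⟩ := h n
    have hz₁ : z₁ ∈ ball z₁ ρ := mem_ball_self hρ
    have hgd : DifferentiableAt ℂ g z₁ := hg.diff.differentiableAt (isOpen_ball.mem_nhds hz₁)
    have h1 : (2 * z₁) ^ n * deriv g z₁ = 1 := by
      have h2 : HasDerivAt (f c)^[n] ((2 * z₁) ^ n) (g z₁) := by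
        rw [hgz]; exact hasDerivAt_iter_fixed hfix n
      have h3 := h2.comp z₁ hgd.hasDerivAt
      have h4 : ((f c)^[n] ∘ g) =ᶠ[𝓝 z₁] id := by
        filter_upwards [isOpen_ball.mem_nhds hz₁] with z hz using hg.sec z hz
      exact (h3.congr_of_eventuallyEq h4.symm).unique (hasDerivAt_id z₁)
    have h5 : ‖deriv g z₁‖ = 1 := by
      have h6 := congrArg norm h1
      rw [norm_mul, norm_pow, hmul, one_pow, one_mul, norm_one] at h6
      exact h6
    have hmem : u ∈ g '' ball z₁ ρ := by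
      by_contra hcon
      have h7 := koebe hρ hg.diff hg.injOn hcon
      rw [h5, mul_one, hgz, norm_sub_rev] at h7
      linarith
    obtain ⟨z, hz, rfl⟩ := hmem
    rw [hg.sec z hz]
    rwa [mem_ball, Complex.dist_eq] at hz
  obtain ⟨u, hu, huK⟩ := exists_notMem_near_J hJ (mul_pos hkap hρ)
  apply huK
  rw [Complex.dist_eq] at hu
  refine ⟨‖z₁‖ + ρ, fun n => ?_⟩
  have h1 := hsub n u hu
  have h2 : (f c)^[n] u = ((f c)^[n] u - z₁) + z₁ := by ring
  rw [h2]
  linarith [norm_add_le ((f c)^[n] u - z₁) z₁]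

/-- The critical orbit is bounded. -/
theorem zero_mem_K (hfix : f c z₁ = z₁) (hmul : ‖2 * z₁‖ = 1) (hJ : z₁ ∈ J c) : (0:ℂ) ∈ K c := by
  by_contra h0
  have ht := tendsto_of_notMem h0
  obtain ⟨N, hN⟩ := (ht.eventually_gt_atTop (‖z₁‖ + 1)).exists_forall_of_atTop
  have hne : ∀ j, (f c)^[j] 0 ≠ z₁ := by
    intro j he
    apply h0
    rw [← iter_mem_K j, he]
    exact fixed_mem_K hfix
  have hfin : ∀ M : ℕ, ∃ ρ > 0, ∀ j < M, (f c)^[j] 0 ∉ ball z₁ ρ := by
    intro M
    induction M with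
    | zero => exact ⟨1, one_pos, fun j hj => by omega⟩
    | succ M ih =>
      obtain ⟨ρ, hρ, h⟩ := ih
      refine ⟨min ρ (dist ((f c)^[M] 0) z₁), lt_min hρ (dist_pos.mpr (hne M)), fun j hj => ?_⟩
      rcases Nat.lt_succ_iff_lt_or_eq.mp hj with h' | rfl
      · exact fun hm => h j h' (ball_subset_ball (min_le_left _ _) hm)
      · intro hm
        rw [mem_ball] at hm
        exact absurd (hm.trans_le (min_le_right _ _)) (lt_irrefl _)
  obtain ⟨ρ, hρ, h⟩ := hfin N
  have hall : ∀ j, (f c)^[j] 0 ∉ ball z₁ (min ρ 1) := by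
    intro j hm
    rcases lt_or_ge j N with hj | hj
    · exact h j hj (ball_subset_ball (min_le_left _ _) hm)
    · have h1 := hN j hj
      have h2 := (ball_subset_ball (min_le_right ρ 1) hm)
      rw [mem_ball, Complex.dist_eq] at h2
      have h3 : (f c)^[j] 0 = ((f c)^[j] 0 - z₁) + z₁ := by ring
      rw [h3] at h1
      linarith [norm_add_le ((f c)^[j] 0 - z₁) z₁]
  refine notMem_J_of_sections hfix hmul (ρ := min ρ 1) (lt_min hρ one_pos) (fun n => ?_) hJ
  obtain ⟨g, hg, hgz⟩ := exists_sec (c := c) (isOpen_ball (x := z₁) (ε := min ρ 1))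
    (convex_ball z₁ _) n z₁ (by rw [iter_fixed hfix]; exact mem_ball_self (lt_min hρ one_pos))
    (fun j _ _ => hall j)
  rw [iter_fixed hfix] at hgz
  exact ⟨g, hg, hgz⟩

/-- **Recurrence of the critical point.** -/
theorem recurrent (hone : OneCrit c) (hfix : f c z₁ = z₁) (hmul : ‖2 * z₁‖ = 1) (hJ : z₁ ∈ J c) :
    ∀ e > 0, ∃ j : ℕ, 1 ≤ j ∧ ‖(f c)^[j] 0‖ < e := by
  by_contra hcon
  push Not at hcon
  obtain ⟨e, he, hcrit⟩ := hcon
  obtain ⟨ρ, hρ, hsmall⟩ := small_of_nonrecurrent hone (δ := e / 2) (by positivity)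
    (fun j hj => by have := hcrit j hj; linarith) ⟨z₁, hJ⟩ (ε := 1 / 8) (by norm_num)
  refine notMem_J_of_sections hfix hmul hρ (fun n => ?_) hJ
  have hz₁ : ‖z₁‖ = 1 / 2 := by
    rw [norm_mul] at hmul
    simp at hmul
    linarith
  have hcz : ‖c - z₁‖ = 1 / 4 := by
    have : c - z₁ = -(z₁ ^ 2) := by
      have h1 : z₁ ^ 2 + c = z₁ := hfix
      linear_combination h1
    rw [this, norm_neg, norm_pow, hz₁]; norm_num
  have hz₁b : z₁ ∈ ball z₁ ρ := mem_ball_self hρ
  induction n with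
  | zero => exact ⟨id, Sec.zero _, rfl⟩
  | succ n ih =>
    obtain ⟨g, hg, hgz⟩ := ih
    obtain ⟨g', hg', hg'z, -⟩ := hg.step isOpen_ball (convex_ball z₁ ρ) (x := z₁) (p := z₁) hz₁b
      (by rw [hgz, hfix]) (by
        intro z hz he
        have h1 := hsmall n z₁ hJ (g '' ball z₁ ρ)
          ((convex_ball z₁ ρ).isPreconnected.image _ hg.diff.continuousOn) (by
            rintro _ ⟨w, hw, rfl⟩
            rw [mem_preimage, hg.sec w hw]; exact hw) _ ⟨z, hz, rfl⟩ _ ⟨z₁, hz₁b, rfl⟩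
        rw [he, hgz, hcz] at h1
        norm_num at h1)
    exact ⟨g', hg', hg'z⟩

end Pool.Agent.Cremer
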