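import Pool.Agent.Cremer.Basic
import Pool.Agent.Cremer.Koebe

/-!
# Inverse branches of iterates
-/

open Set Filter Topology Complex Metric

namespace Pool.Agent.Cremer

variable {c : ℂ}

/-- `g` is an analytic section of the `n`-th iterate on `B`. -/
structure Sec (c : ℂ) (n : ℕ) (B : Set ℂ) (g : ℂ → ℂ) : Prop where
  diff : DifferentiableOn ℂ g B
  sec : ∀ z ∈ B, (f c)^[n] (g z) = z

theorem Sec.mono {n : ℕ} {B B' : Set ℂ} {g : ℂ → ℂ} (h : Sec c n B g) (hB : B' ⊆ B) :
    Sec c n B' g := ⟨h.diff.mono hB, fun z hz => h.sec z (hB hz)⟩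

theorem Sec.injOn {n : ℕ} {B : Set ℂ} {g : ℂ → ℂ} (h : Sec c n B g) : InjOn g B := by
  intro z hz w hw he
  rw [← h.sec z hz, ← h.sec w hw, he]

theorem Sec.zero (B : Set ℂ) : Sec c 0 B id := ⟨differentiableOn_id, fun z _ => by simp⟩

/-- Extend a section by one step if it omits the critical value. -/
theorem Sec.step {n : ℕ} {B : Set ℂ} {g : ℂ → ℂ} (h : Sec c n B g) (hB : IsOpen B)
    (hc : Convex ℝ B) {x p : ℂ} (hx : x ∈ B) (hp : f c p = g x) (hne : ∀ z ∈ B, g z ≠ c) :
    ∃ g', Sec c (n + 1) B g' ∧ g' x = p ∧ ∀ z ∈ B, f c (g' z) = g z := by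
  obtain ⟨q, hq, hq2, hqx⟩ := exists_analytic_sqrt hB hc (g := fun z => g z - c)
    (h.diff.sub_const c) (fun z hz => sub_ne_zero.mpr (hne z hz)) hx (b := p)
    (by rw [← hp]; simp [f])
  refine ⟨q, ⟨hq, fun z hz => ?_⟩, hqx, fun z hz => ?_⟩
  · rw [Function.iterate_succ_apply]
    have : f c (q z) = g z := by unfold f; rw [hq2 z hz]; ring
    rw [this, h.sec z hz]
  · unfold f; rw [hq2 z hz]; ring

/-- Sections exist on convex open sets avoiding the critical orbit up to time `n`. -/
theorem exists_sec {B : Set ℂ} (hB : IsOpen B) (hc : Convex ℝ B) (n : ℕ) :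
    ∀ p : ℂ, (f c)^[n] p ∈ B → (∀ j, 1 ≤ j → j ≤ n → (f c)^[j] 0 ∉ B) →
      ∃ g, Sec c n B g ∧ g ((f c)^[n] p) = p := by
  induction n with
  | zero => intro p hp _; exact ⟨id, Sec.zero B, by simp⟩
  | succ n ih =>
    intro p hp hj
    have h1 : (f c)^[n] (f c p) ∈ B := by rwa [← Function.iterate_succ_apply]
    obtain ⟨g, hg, hgx⟩ := ih (f c p) h1 (fun j h1 h2 => hj j h1 (by omega))
    obtain ⟨g', hg', hg'x, -⟩ := hg.step hB hc (x := (f c)^[n] (f c p)) (p := p) h1 hgx.symm (by
      intro z hz he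
      apply hj (n + 1) (by omega) le_rfl
      have h2 := hg.sec z hz
      rw [he] at h2
      rw [Function.iterate_succ_apply]
      have : f c 0 = c := by simp [f]
      rw [this, h2]; exact hz)
    refine ⟨g', hg', ?_⟩
    rw [Function.iterate_succ_apply]; exact hg'x

/-- Connected sets in the preimage of a ball stay in the image of a section defined on a larger
set. -/
theorem Sec.subset_of_isPreconnected {n : ℕ} {U : Set ℂ} {g : ℂ → ℂ} (h : Sec c n U g)
    (hU : IsOpen U) (hUc : IsPreconnected U) {y : ℂ} {r : ℝ} (hr : closedBall y r ⊆ U)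
    {C : Set ℂ} (hC : IsPreconnected C) (hCs : C ⊆ (f c)^[n] ⁻¹' ball y r)
    (hne : (C ∩ g '' ball y r).Nonempty) : C ⊆ g '' ball y r := by
  have hsub : ball y r ⊆ U := ball_subset_closedBall.trans hr
  have ho : IsOpen (g '' ball y r) :=
    isOpen_image_of_injOn hU hUc h.diff h.injOn isOpen_ball hsub
  have hcpt : IsCompact (g '' closedBall y r) :=
    (isCompact_closedBall y r).image_of_continuousOn (h.diff.continuousOn.mono hr)
  have ho2 : IsOpen (g '' closedBall y r)ᶜ := hcpt.isClosed.isOpen_compl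
  have hcov : C ⊆ g '' ball y r ∪ (g '' closedBall y r)ᶜ := by
    intro p hp
    by_cases hpc : p ∈ g '' closedBall y r
    · left
      obtain ⟨z, hz, rfl⟩ := hpc
      have h1 : (f c)^[n] (g z) ∈ ball y r := hCs hp
      rw [h.sec z (hr hz)] at h1
      exact ⟨z, h1, rfl⟩
    · right; exact hpc
  have hdisj : C ∩ (g '' ball y r ∩ (g '' closedBall y r)ᶜ) = ∅ := by
    ext p
    simp only [mem_inter_iff, mem_compl_iff, mem_empty_iff_false, iff_false, not_and, not_not]
    intro _ hp
    exact image_mono ball_subset_closedBall hp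
  rcases (isPreconnected_iff_subset_of_disjoint.mp hC) _ _ ho ho2 hcov hdisj with h1 | h1
  · exact h1
  · exfalso
    obtain ⟨p, hp, hpg⟩ := hne
    exact h1 hp (image_mono ball_subset_closedBall hpg)

/-- A connected component of the preimage of a connected open set is mapped onto it. -/
theorem image_component {n : ℕ} {B : Set ℂ} (hB : IsOpen B) (hBc : IsPreconnected B) {p : ℂ}
    (hp : (f c)^[n] p ∈ B) :
    (f c)^[n] '' connectedComponentIn ((f c)^[n] ⁻¹' B) p = B := by
  set W := (f c)^[n] ⁻¹' B with hW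
  set V := connectedComponentIn W p with hV
  have hWo : IsOpen W := hB.preimage (continuous_iter n)
  have hpW : p ∈ W := hp
  have hVo : IsOpen V := hWo.connectedComponentIn
  have hVW : V ⊆ W := connectedComponentIn_subset _ _
  apply subset_antisymm
  · rintro _ ⟨z, hz, rfl⟩; exact hVW hz
  · apply hBc.subset_of_closure_inter_subset (isOpenMap_iter n _ hVo)
    · exact ⟨(f c)^[n] p, hp, p, mem_connectedComponentIn hpW, rfl⟩
    · rintro b ⟨hb, hbB⟩
      have h1 : closure ((f c)^[n] '' V) ⊆ (f c)^[n] '' closure V :=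
        closure_minimal (image_mono subset_closure) (isClosedMap_iter n _ isClosed_closure)
      obtain ⟨v, hv, rfl⟩ := h1 hb
      have hvW : v ∈ W := hbB
      have h2 : IsPreconnected (insert v V) :=
        isPreconnected_connectedComponentIn.subset_closure (subset_insert _ _)
          (insert_subset hv subset_closure)
      have h3 : insert v V ⊆ V :=
        h2.subset_connectedComponentIn (mem_insert_of_mem _ (mem_connectedComponentIn hpW))
          (insert_subset hvW hVW)
      exact ⟨v, h3 (mem_insert _ _), rfl⟩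

/-- Preimages under `f` of small connected sets are small. -/
theorem dist_le_of_image_small {C : Set ℂ} (hC : IsPreconnected C) {e : ℝ} (he : 0 < e)
    (h : ∀ p ∈ C, ∀ q ∈ C, ‖f c p - f c q‖ ≤ e ^ 2) : ∀ p ∈ C, ∀ q ∈ C, ‖p - q‖ ≤ 2 * e := by
  by_cases hbig : ∃ p ∈ C, e < ‖p‖
  · obtain ⟨p, hp, hpe⟩ := hbig
    have hcov : ∀ q ∈ C, ‖q - p‖ ≤ e := by
      have h1 : C ⊆ {q | ‖q - p‖ ≤ e} ∪ {q | ‖q + p‖ ≤ e} := by
        intro q hq
        by_contra hcon
        simp only [mem_union, mem_setOf_eq, not_or, not_le] at hcon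
        have h2 := h q hq p hp
        rw [f_sub, norm_mul] at h2
        nlinarith [hcon.1, hcon.2]
      have hd : C ∩ ({q | ‖q - p‖ ≤ e} ∩ {q | ‖q + p‖ ≤ e}) = ∅ := by
        ext q
        simp only [mem_inter_iff, mem_setOf_eq, mem_empty_iff_false, iff_false, not_and, not_le]
        intro _ h3
        by_contra h4
        push Not at h4
        have h5 : ‖p + p‖ ≤ ‖q + p‖ + ‖q - p‖ := by
          have : p + p = (q + p) - (q - p) := by ring
          rw [this]; exact norm_sub_le _ _
        have h6 : ‖p + p‖ = 2 * ‖p‖ := by rw [← two_mul, norm_mul]; simp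
        linarith
      have hc1 : IsClosed {q : ℂ | ‖q - p‖ ≤ e} := isClosed_le (by fun_prop) continuous_const
      have hc2 : IsClosed {q : ℂ | ‖q + p‖ ≤ e} := isClosed_le (by fun_prop) continuous_const
      rcases (isPreconnected_iff_subset_of_disjoint_closed.mp hC) _ _ hc1 hc2 h1 hd with h7 | h7
      · exact h7
      · exfalso
        have h8 : ‖p + p‖ ≤ e := h7 hp
        have h6 : ‖p + p‖ = 2 * ‖p‖ := by rw [← two_mul, norm_mul]; simp
        linarith [norm_nonneg p]
    intro x hx y hy
    have : x - y = (x - p) - (y - p) := by ring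
    rw [this]
    linarith [norm_sub_le (x - p) (y - p), hcov x hx, hcov y hy]
  · push Not at hbig
    intro x hx y hy
    linarith [norm_sub_le x y, hbig x hx, hbig y hy]

/-- Uniform smallness of components of preimages of small balls for a fixed time. -/
theorem exists_small_preimages (n : ℕ) {e : ℝ} (he : 0 < e) :
    ∃ r > 0, ∀ y : ℂ, ∀ C : Set ℂ, IsPreconnected C → C ⊆ (f c)^[n] ⁻¹' ball y r →
      ∀ p ∈ C, ∀ q ∈ C, ‖p - q‖ ≤ e := by
  induction n generalizing e with
  | zero =>
    refine ⟨e / 2, by positivity, fun y C _ hs p hp q hq => ?_⟩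
    have h1 := hs hp
    have h2 := hs hq
    simp only [Function.iterate_zero, preimage_id, mem_ball, id] at h1 h2
    rw [← Complex.dist_eq]
    have := dist_triangle_right p q y
    linarith
  | succ n ih =>
    obtain ⟨r, hr, h⟩ := ih (e := (e / 2) ^ 2) (by positivity)
    refine ⟨r, hr, fun y C hC hs p hp q hq => ?_⟩
    have h1 := h y (f c '' C) (hC.image _ continuous_f.continuousOn) (by
      rintro _ ⟨z, hz, rfl⟩
      have := hs hz
      rw [mem_preimage, Function.iterate_succ_apply] at this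
      exact this)
    have h2 := dist_le_of_image_small hC (e := e / 2) (by positivity)
      (fun p hp q hq => h1 _ ⟨p, hp, rfl⟩ _ ⟨q, hq, rfl⟩) p hp q hq
    linarith

end Pool.Agent.Cremer
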