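import Pool.Agent.Cremer.Defs

/-!
# Winding numbers along external rays (MP_44ec17_an, module T-WIND)
-/

open Set Filter Topology Complex

namespace Pool.Agent.Cremer.Wind

/-- The unit interval. -/
abbrev UI : Type := unitInterval

/-! ### Lifting through the exponential -/

lemma lift_unique {L1 L2 : UI → ℂ} (h1 : Continuous L1) (h2 : Continuous L2)
    (h : ∀ u, exp (L1 u) = exp (L2 u)) (h0 : L1 0 = L2 0) : L1 = L2 :=
  isCoveringMap_exp.eq_of_comp_eq h1 h2 (funext fun u => Subtype.ext (h u)) 0 h0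

lemma lift_exists {A : Type} [TopologicalSpace A] (H : UI × A → ℂ) (hH : Continuous H)
    (hne : ∀ x, H x ≠ 0) (e : ℂ) (he : ∀ a, H (0, a) = exp e) :
    ∃ L : UI × A → ℂ, Continuous L ∧ (∀ x, exp (L x) = H x) ∧ ∀ a, L (0, a) = e := by
  let H' : C(UI × A, {z : ℂ // z ≠ 0}) := ⟨fun x => ⟨H x, hne x⟩, by fun_prop⟩
  let L := isCoveringMap_exp.liftHomotopy H' (ContinuousMap.const A e)
    (fun a => Subtype.ext (he a))
  refine ⟨L, L.continuous, fun x => ?_, fun a => ?_⟩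
  · have := congrFun (isCoveringMap_exp.liftHomotopy_lifts H' (ContinuousMap.const A e)
      (fun a => Subtype.ext (he a))) x
    exact congrArg Subtype.val this
  · exact isCoveringMap_exp.liftHomotopy_zero H' (ContinuousMap.const A e)
      (fun a => Subtype.ext (he a)) a

/-! ### The rays -/

/-- The compactified ray: `u ↦ u Ψ(-log u + 2 π a i)` on `(0,1)`. -/
noncomputable def g (Ψ : ℂ → ℂ) (z₁ : ℂ) (a : ℝ) (u : ℝ) : ℂ :=
  if u ≤ 0 then exp (2 * Real.pi * a * I)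
  else if 1 ≤ u then z₁ else u * Ψ ((-Real.log u : ℝ) + 2 * Real.pi * a * I)

lemma g_zero (Ψ : ℂ → ℂ) (z₁ : ℂ) (a : ℝ) : g Ψ z₁ a 0 = exp (2 * Real.pi * a * I) := by
  simp [g]

lemma g_one (Ψ : ℂ → ℂ) (z₁ : ℂ) (a : ℝ) : g Ψ z₁ a 1 = z₁ := by
  simp [g]

lemma g_mid (Ψ : ℂ → ℂ) (z₁ : ℂ) (a : ℝ) {u : ℝ} (h0 : 0 < u) (h1 : u < 1) :
    g Ψ z₁ a u = u * Ψ ((-Real.log u : ℝ) + 2 * Real.pi * a * I) := by
  simp [g, not_le.mpr h0, not_le.mpr h1]

lemma neglog_pos {u : ℝ} (h0 : 0 < u) (h1 : u < 1) : 0 < -Real.log u := by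
  have := Real.log_neg h0 h1
  linarith

lemma re_aux (s a : ℝ) : ((s : ℂ) + 2 * Real.pi * a * I).re = s := by simp

lemma im_aux (s a : ℝ) : ((s : ℂ) + 2 * Real.pi * a * I).im = 2 * Real.pi * a := by simp

variable {c z₁ : ℂ} {Ψ : ℂ → ℂ}

/-- Bound for `g`. -/
lemma g_bound_mid {C : ℝ} (hC : ∀ ζ : ℂ, 0 < ζ.re → ‖Ψ ζ - exp ζ‖ ≤ C) (a : ℝ) {u : ℝ}
    (h0 : 0 < u) (h1 : u < 1) : ‖g Ψ z₁ a u - exp (2 * Real.pi * a * I)‖ ≤ C * u := by
  rw [g_mid Ψ z₁ a h0 h1]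
  set ζ : ℂ := (-Real.log u : ℝ) + 2 * Real.pi * a * I with hζ
  have hre : 0 < ζ.re := by rw [hζ, re_aux]; exact neglog_pos h0 h1
  have hexp : (u : ℂ) * exp ζ = exp (2 * Real.pi * a * I) := by
    rw [hζ, exp_add]
    have : exp ((-Real.log u : ℝ) : ℂ) = (u : ℂ)⁻¹ := by
      rw [← ofReal_exp, Real.exp_neg, Real.exp_log h0, ofReal_inv]
    rw [this, ← mul_assoc, mul_inv_cancel₀ (by exact_mod_cast h0.ne'), one_mul]
  rw [← hexp, ← mul_sub, norm_mul, norm_real, Real.norm_of_nonneg h0.le, mul_comm]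
  exact mul_le_mul_of_nonneg_right (hC ζ hre) h0.le

lemma g_continuous (hΨ : IsPsi c Ψ) {a : ℝ} (ha : Lands Ψ a z₁) : Continuous (g Ψ z₁ a) := by
  obtain ⟨C, hC⟩ := hΨ.asymp
  rw [continuous_iff_continuousAt]
  intro u
  rcases lt_trichotomy u 0 with hu | hu | hu
  · -- locally constant
    have : g Ψ z₁ a =ᶠ[𝓝 u] fun _ => exp (2 * Real.pi * a * I) := by
      filter_upwards [Iio_mem_nhds hu] with v hv
      simp [g, le_of_lt (mem_Iio.mp hv)]
    exact (continuousAt_const).congr this.symm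
  · subst hu
    -- squeeze
    rw [ContinuousAt, g_zero]
    have hb : ∀ᶠ v in 𝓝 (0 : ℝ), ‖g Ψ z₁ a v - exp (2 * Real.pi * a * I)‖ ≤ |C| * |v| := by
      filter_upwards [Iio_mem_nhds (zero_lt_one)] with v hv
      rcases le_or_gt v 0 with h | h
      · simp only [g, if_pos h, sub_self, norm_zero]; positivity
      · refine (g_bound_mid (z₁ := z₁) hC a h hv).trans ?_
        rw [abs_of_pos h]
        exact mul_le_mul_of_nonneg_right (le_abs_self C) h.le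
    rw [tendsto_iff_norm_sub_tendsto_zero]
    refine squeeze_zero' (Eventually.of_forall fun _ => norm_nonneg _) hb ?_
    have : Tendsto (fun v : ℝ => |C| * |v|) (𝓝 0) (𝓝 (|C| * |0|)) :=
      (continuous_const.mul continuous_abs).tendsto 0
    simpa using this
  · rcases lt_trichotomy u 1 with hu1 | hu1 | hu1
    · have heq : (fun v : ℝ => (v : ℂ) * Ψ ((-Real.log v : ℝ) + 2 * Real.pi * a * I))
          =ᶠ[𝓝 u] g Ψ z₁ a := by
        filter_upwards [Ioo_mem_nhds hu hu1] with v hv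
        rw [g_mid Ψ z₁ a hv.1 hv.2]
      refine ContinuousAt.congr ?_ heq
      have hd : DifferentiableAt ℂ Ψ ((-Real.log u : ℝ) + 2 * Real.pi * a * I) := by
        refine hΨ.diff.differentiableAt ?_
        refine (isOpen_lt continuous_const continuous_re).mem_nhds ?_
        change (0 : ℝ) < ((-Real.log u : ℝ) + 2 * Real.pi * a * I : ℂ).re
        rw [re_aux]; exact neglog_pos hu hu1
      refine (continuous_ofReal.continuousAt).mul ?_
      refine ContinuousAt.comp (f := fun v : ℝ => ((-Real.log v : ℝ) : ℂ) + 2 * Real.pi * a * I)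
        hd.continuousAt ?_
      refine ContinuousAt.add ?_ continuousAt_const
      exact continuous_ofReal.continuousAt.comp (Real.continuousAt_log hu.ne').neg
    · subst hu1
      rw [continuousAt_iff_continuous_left'_right', ContinuousWithinAt, ContinuousWithinAt, g_one]
      constructor
      · have h1 : Tendsto (fun v : ℝ => -Real.log v) (𝓝[<] 1) (𝓝[>] 0) := by
          rw [tendsto_nhdsWithin_iff]
          constructor
          · have : Tendsto (fun v : ℝ => -Real.log v) (𝓝 1) (𝓝 (-Real.log 1)) :=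
              (Real.continuousAt_log one_ne_zero).neg
            rw [Real.log_one, neg_zero] at this
            exact this.mono_left nhdsWithin_le_nhds
          · filter_upwards [Ioo_mem_nhdsLT (zero_lt_one : (0 : ℝ) < 1)] with v hv
            exact neglog_pos hv.1 hv.2
        have h2 : Tendsto (fun v : ℝ => (v : ℂ) * Ψ ((-Real.log v : ℝ) + 2 * Real.pi * a * I))
            (𝓝[<] 1) (𝓝 ((1 : ℝ) * z₁)) := by
          refine Tendsto.mul ?_ (ha.comp h1)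
          exact (continuous_ofReal.tendsto 1).mono_left nhdsWithin_le_nhds
        rw [ofReal_one, one_mul] at h2
        refine h2.congr' ?_
        filter_upwards [Ioo_mem_nhdsLT (zero_lt_one : (0 : ℝ) < 1)] with v hv
        rw [g_mid Ψ z₁ a hv.1 hv.2]
      · refine tendsto_const_nhds.congr' ?_
        filter_upwards [self_mem_nhdsWithin] with v hv
        have hv' : (1 : ℝ) < v := hv
        simp [g, not_le.mpr (zero_lt_one.trans hv'), hv'.le]
    · have : g Ψ z₁ a =ᶠ[𝓝 u] fun _ => z₁ := by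
        filter_upwards [Ioi_mem_nhds hu1] with v hv
        have hv' : (1 : ℝ) < v := hv
        simp [g, not_le.mpr (zero_lt_one.trans hv'), hv'.le]
      exact (continuousAt_const).congr this.symm

lemma g_bound (hΨ : IsPsi c Ψ) {C : ℝ} (hC : ∀ ζ : ℂ, 0 < ζ.re → ‖Ψ ζ - exp ζ‖ ≤ C) {a : ℝ}
    (ha : Lands Ψ a z₁) {u : ℝ} (hu : u ∈ Icc (0 : ℝ) 1) :
    ‖g Ψ z₁ a u - exp (2 * Real.pi * a * I)‖ ≤ C * u := by
  have hcl : IsClosed {v : ℝ | ‖g Ψ z₁ a v - exp (2 * Real.pi * a * I)‖ ≤ C * v} :=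
    isClosed_le ((g_continuous hΨ ha).sub continuous_const).norm (continuous_const.mul continuous_id)
  have hsub : Ioo (0 : ℝ) 1 ⊆ {v : ℝ | ‖g Ψ z₁ a v - exp (2 * Real.pi * a * I)‖ ≤ C * v} :=
    fun v hv => g_bound_mid hC a hv.1 hv.2
  have := closure_minimal hsub hcl
  rw [closure_Ioo zero_ne_one] at this
  exact this hu

/-- The complement of the compactified ray. -/
def A (Ψ : ℂ → ℂ) (z₁ : ℂ) (a : ℝ) : Set ℂ := {z | ∀ u : UI, g Ψ z₁ a u - u * z ≠ 0}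

lemma mem_A_iff (Ψ : ℂ → ℂ) (z₁ : ℂ) (a : ℝ) (z : ℂ) :
    z ∈ A Ψ z₁ a ↔ z ≠ z₁ ∧ ∀ s : ℝ, 0 < s → z ≠ Ψ (s + 2 * Real.pi * a * I) := by
  constructor
  · intro h
    refine ⟨fun hz => h 1 (by simp [g_one, hz]), fun s hs hz => ?_⟩
    have h0 : 0 < Real.exp (-s) := Real.exp_pos _
    have h1 : Real.exp (-s) < 1 := by rw [Real.exp_lt_one_iff]; linarith
    refine h ⟨Real.exp (-s), h0.le, h1.le⟩ ?_
    simp only
    rw [g_mid Ψ z₁ a h0 h1, Real.log_exp, neg_neg, ← hz, sub_self]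
  · rintro ⟨h1, h2⟩ u
    rcases u.2.1.lt_or_eq with hu | hu
    · rcases u.2.2.lt_or_eq with hu1 | hu1
      · rw [g_mid Ψ z₁ a hu hu1, ← mul_sub]
        refine mul_ne_zero (by exact_mod_cast hu.ne') (sub_ne_zero.mpr ?_)
        exact (h2 _ (neglog_pos hu hu1)).symm
      · rw [hu1, g_one, ofReal_one, one_mul]
        exact sub_ne_zero.mpr (Ne.symm h1)
    · rw [← hu, g_zero, ofReal_zero, zero_mul, sub_zero]
      exact exp_ne_zero _

lemma mem_A_of_mem_K (hΨ : IsPsi c Ψ) (a : ℝ) {z : ℂ} (hz : z ∈ K c) (hz1 : z ≠ z₁) :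
    z ∈ A Ψ z₁ a := by
  rw [mem_A_iff]
  refine ⟨hz1, fun s hs h => ?_⟩
  refine hΨ.notMem (s + 2 * Real.pi * a * I) (by rw [re_aux]; exact hs) ?_
  rw [← h]; exact hz

lemma isOpen_A (hΨ : IsPsi c Ψ) {a : ℝ} (ha : Lands Ψ a z₁) : IsOpen (A Ψ z₁ a) := by
  rw [← isClosed_compl_iff]
  have hc : Continuous (fun p : UI × ℂ => g Ψ z₁ a p.1 - (p.1 : ℝ) * p.2) := by
    have := g_continuous hΨ ha
    fun_prop
  have hcl : IsClosed {p : UI × ℂ | g Ψ z₁ a p.1 - (p.1 : ℝ) * p.2 = 0} :=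
    isClosed_eq hc continuous_const
  have := isClosedMap_snd_of_compactSpace _ hcl
  convert this using 1
  ext z
  simp only [A, mem_compl_iff, mem_ofPred_eq, not_forall, not_not, mem_image, Prod.exists,
    exists_eq_right]

/-- `v` is the winding value of the ray of angle `a` at `z`. -/
def IsNu (Ψ : ℂ → ℂ) (z₁ : ℂ) (a : ℝ) (z : ℂ) (v : ℝ) : Prop :=
  ∃ L : UI → ℂ, Continuous L ∧ (∀ u : UI, exp (L u) = g Ψ z₁ a u - u * z) ∧
    L 0 = 2 * Real.pi * a * I ∧ v = (L 1).im / (2 * Real.pi)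

lemma IsNu.unique {a : ℝ} {z : ℂ} {v w : ℝ} (hv : IsNu Ψ z₁ a z v) (hw : IsNu Ψ z₁ a z w) :
    v = w := by
  obtain ⟨L, h1, h2, h3, rfl⟩ := hv
  obtain ⟨M, k1, k2, k3, rfl⟩ := hw
  rw [lift_unique h1 k1 (fun u => by rw [h2, k2]) (by rw [h3, k3])]

open Classical in
/-- The winding value. -/
noncomputable def nu (Ψ : ℂ → ℂ) (z₁ : ℂ) (a : ℝ) (z : ℂ) : ℝ :=
  if h : ∃ v, IsNu Ψ z₁ a z v then h.choose else 0

lemma IsNu.nu_eq {a : ℝ} {z : ℂ} {v : ℝ} (hv : IsNu Ψ z₁ a z v) : nu Ψ z₁ a z = v := by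
  have h : ∃ v, IsNu Ψ z₁ a z v := ⟨v, hv⟩
  rw [nu, dif_pos h]
  exact h.choose_spec.unique hv

lemma exists_lift (hΨ : IsPsi c Ψ) {a : ℝ} (ha : Lands Ψ a z₁) :
    ∃ L : UI × A Ψ z₁ a → ℂ, Continuous L ∧
      (∀ x, exp (L x) = g Ψ z₁ a x.1 - (x.1 : ℝ) * (x.2 : ℂ)) ∧
      ∀ z, L (0, z) = 2 * Real.pi * a * I := by
  have hg := g_continuous hΨ ha
  refine lift_exists (fun x : UI × A Ψ z₁ a => g Ψ z₁ a x.1 - (x.1 : ℝ) * (x.2 : ℂ))
    (by fun_prop) (fun x => x.2.2 x.1) _ (fun z => ?_)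
  simp [g_zero]

lemma isNu_nu (hΨ : IsPsi c Ψ) {a : ℝ} (ha : Lands Ψ a z₁) {z : ℂ} (hz : z ∈ A Ψ z₁ a) :
    IsNu Ψ z₁ a z (nu Ψ z₁ a z) := by
  obtain ⟨L, h1, h2, h3⟩ := exists_lift hΨ ha
  have : IsNu Ψ z₁ a z ((L (1, ⟨z, hz⟩)).im / (2 * Real.pi)) :=
    ⟨fun u => L (u, ⟨z, hz⟩), by fun_prop, fun u => h2 _, h3 _, rfl⟩
  rw [this.nu_eq]; exact this

lemma continuousOn_nu (hΨ : IsPsi c Ψ) {a : ℝ} (ha : Lands Ψ a z₁) :
    ContinuousOn (nu Ψ z₁ a) (A Ψ z₁ a) := by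
  obtain ⟨L, h1, h2, h3⟩ := exists_lift hΨ ha
  rw [continuousOn_iff_continuous_domRestrict]
  have : (A Ψ z₁ a).domRestrict (nu Ψ z₁ a) = fun z => (L (1, z)).im / (2 * Real.pi) := by
    funext z
    have : IsNu Ψ z₁ a z ((L (1, z)).im / (2 * Real.pi)) :=
      ⟨fun u => L (u, z), by fun_prop, fun u => h2 _, h3 _, rfl⟩
    exact this.nu_eq
  rw [this]
  exact (continuous_im.comp (h1.comp (by fun_prop))).div_const _

lemma IsNu.sub_int {a b : ℝ} {z : ℂ} {v w : ℝ} (hv : IsNu Ψ z₁ a z v) (hw : IsNu Ψ z₁ b z w) :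
    ∃ k : ℤ, w - v = k := by
  obtain ⟨L, h1, h2, h3, rfl⟩ := hv
  obtain ⟨M, k1, k2, k3, rfl⟩ := hw
  have h : exp (M 1) = exp (L 1) := by
    rw [h2, k2]; simp [g_one]
  rw [exp_eq_exp_iff_exists_int] at h
  obtain ⟨k, hk⟩ := h
  refine ⟨k, ?_⟩
  have : (M 1).im = (L 1).im + k * (2 * Real.pi) := by
    rw [hk]; simp
  rw [this]
  field_simp
  ring

lemma exp_two_pi_add_one (a : ℝ) :
    exp (2 * Real.pi * ((a + 1 : ℝ) : ℂ) * I) = exp (2 * Real.pi * a * I) := by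
  rw [← exp_periodic (2 * Real.pi * a * I)]
  congr 1
  push_cast
  ring

lemma g_add_one (hΨ : IsPsi c Ψ) (a : ℝ) (u : ℝ) : g Ψ z₁ (a + 1) u = g Ψ z₁ a u := by
  rcases le_or_gt u 0 with h | h
  · simp only [g, if_pos h]; exact exp_two_pi_add_one a
  · rcases lt_or_ge u 1 with h1 | h1
    · rw [g_mid _ _ _ h h1, g_mid _ _ _ h h1]
      rw [← hΨ.per (((-Real.log u : ℝ) : ℂ) + 2 * Real.pi * a * I)
        (by rw [re_aux]; exact neglog_pos h h1)]
      congr 2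
      push_cast
      ring
    · simp [g, not_le.mpr h, h1]

lemma IsNu.add_one (hΨ : IsPsi c Ψ) {a : ℝ} {z : ℂ} {v : ℝ} (hv : IsNu Ψ z₁ a z v) :
    IsNu Ψ z₁ (a + 1) z (v + 1) := by
  obtain ⟨L, h1, h2, h3, rfl⟩ := hv
  refine ⟨fun u => L u + 2 * Real.pi * I, by fun_prop, fun u => ?_, ?_, ?_⟩
  · rw [g_add_one hΨ, ← h2]; exact exp_periodic _
  · simp only [h3]; push_cast; ring
  · have : (2 * Real.pi * I : ℂ).im = 2 * Real.pi := by simp
    simp only [add_im, this]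
    field_simp

lemma g_two_mul (hΨ : IsPsi c Ψ) (hfix : f c z₁ = z₁) (a : ℝ) {u : ℝ} (hu : u ∈ Icc (0 : ℝ) 1) :
    g Ψ z₁ (2 * a) u = g Ψ z₁ a (√u) ^ 2 + u * c := by
  rcases hu.1.lt_or_eq with h | h
  · have hs : 0 < √u := Real.sqrt_pos.mpr h
    rcases hu.2.lt_or_eq with h1 | h1
    · have hs1 : √u < 1 := by rw [Real.sqrt_lt' one_pos]; simpa using h1
      rw [g_mid _ _ _ h h1, g_mid _ _ _ hs hs1, mul_pow]
      have e1 : ((√u : ℝ) : ℂ) ^ 2 = u := by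
        rw [← ofReal_pow, Real.sq_sqrt hu.1]
      have e2 : (((-Real.log u : ℝ) : ℂ) + 2 * Real.pi * ((2 * a : ℝ) : ℂ) * I)
          = 2 * (((-Real.log √u : ℝ) : ℂ) + 2 * Real.pi * a * I) := by
        rw [Real.log_sqrt hu.1]; push_cast; ring
      rw [e1, e2, hΨ.dbl _ (by rw [re_aux]; exact neglog_pos hs hs1)]
      ring
    · rw [h1, Real.sqrt_one, g_one, g_one]
      simp only [f] at hfix
      rw [ofReal_one, one_mul, hfix]
  · rw [← h, Real.sqrt_zero, g_zero, g_zero, ← exp_nat_mul]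
    simp only [ofReal_zero, zero_mul, add_zero]
    congr 1
    push_cast
    ring

lemma sqrt_mem (u : UI) : √(u : ℝ) ∈ unitInterval :=
  ⟨Real.sqrt_nonneg _, Real.sqrt_le_one.mpr u.2.2⟩

lemma IsNu.two_mul (hΨ : IsPsi c Ψ) (hfix : f c z₁ = z₁) {a : ℝ} {z : ℂ} {v w : ℝ}
    (hv : IsNu Ψ z₁ a z v) (hw : IsNu Ψ z₁ a (-z) w) :
    IsNu Ψ z₁ (2 * a) (f c z) (v + w) := by
  obtain ⟨L, h1, h2, h3, rfl⟩ := hv
  obtain ⟨M, k1, k2, k3, rfl⟩ := hw
  refine ⟨fun u => L ⟨√(u : ℝ), sqrt_mem u⟩ + M ⟨√(u : ℝ), sqrt_mem u⟩, ?_, fun u => ?_, ?_, ?_⟩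
  · have : Continuous fun u : UI => (⟨√(u : ℝ), sqrt_mem u⟩ : UI) := by
      refine Continuous.subtype_mk ?_ _
      exact Real.continuous_sqrt.comp continuous_subtype_val
    exact (h1.comp this).add (k1.comp this)
  · rw [exp_add, h2, k2, g_two_mul hΨ hfix a u.2]
    have e1 : ((√(u : ℝ) : ℝ) : ℂ) ^ 2 = (u : ℝ) := by
      rw [← ofReal_pow, Real.sq_sqrt u.2.1]
    simp only [f]
    have : ((u : ℝ) : ℂ) * (z ^ 2 + c) = ((√(u : ℝ) : ℝ) : ℂ) ^ 2 * z ^ 2 + (u : ℝ) * c := by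
      rw [e1]; ring
    rw [this]
    ring
  · have : (⟨√((0 : UI) : ℝ), sqrt_mem 0⟩ : UI) = 0 := by
      apply Subtype.ext; simp
    simp only [this, h3, k3]
    push_cast
    ring
  · have : (⟨√((1 : UI) : ℝ), sqrt_mem 1⟩ : UI) = 1 := by
      apply Subtype.ext; simp
    simp only [this, add_im]
    ring

/-! ### The filled Julia set is closed -/

lemma escape_step {w : ℂ} (h : 2 + ‖c‖ < ‖w‖) : 2 * ‖w‖ ≤ ‖f c w‖ := by
  have h1 : ‖w‖ ^ 2 - ‖c‖ ≤ ‖f c w‖ := by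
    have := norm_sub_le (w ^ 2 + c) c
    rw [add_sub_cancel_right, norm_pow] at this
    simp only [f]; linarith
  have hc := norm_nonneg c
  nlinarith

lemma escape {z : ℂ} {n : ℕ} (h : 2 + ‖c‖ < ‖(f c)^[n] z‖) : z ∉ K c := by
  rintro ⟨R, hR⟩
  have key : ∀ k : ℕ, 2 + ‖c‖ < ‖(f c)^[n + k] z‖ ∧ (2 : ℝ) ^ k ≤ ‖(f c)^[n + k] z‖ := by
    intro k
    induction k with
    | zero =>
      refine ⟨h, ?_⟩
      have hc := norm_nonneg c
      simp only [add_zero, pow_zero]; linarith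
    | succ k ih =>
      have hs := escape_step ih.1
      rw [← add_assoc, Function.iterate_succ_apply']
      constructor
      · have := norm_nonneg ((f c)^[n + k] z)
        linarith [ih.1]
      · rw [pow_succ]; linarith [ih.2]
  obtain ⟨k, hk⟩ := pow_unbounded_of_one_lt R (one_lt_two)
  have := (key k).2
  have := hR (n + k)
  linarith

lemma continuous_f : Continuous (f c) := by
  unfold f; fun_prop

lemma isClosed_K : IsClosed (K c) := by
  have : K c = ⋂ n : ℕ, {z | ‖(f c)^[n] z‖ ≤ 2 + ‖c‖} := by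
    ext z
    simp only [mem_iInter, mem_ofPred_eq]
    constructor
    · intro hz n
      by_contra h
      exact escape (not_le.mp h) hz
    · intro h; exact ⟨_, h⟩
  rw [this]
  exact isClosed_iInter fun n => isClosed_le ((continuous_f.iterate n).norm) continuous_const

/-! ### Values far out -/

lemma per_int (hΨ : IsPsi c Ψ) {ζ : ℂ} (hζ : 0 < ζ.re) (k : ℤ) :
    Ψ (ζ + k * (2 * Real.pi * I)) = Ψ ζ := by
  have key : ∀ n : ℕ, ∀ ξ : ℂ, 0 < ξ.re → Ψ (ξ + n * (2 * Real.pi * I)) = Ψ ξ := by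
    intro n
    induction n with
    | zero => intro ξ _; simp
    | succ n ih =>
      intro ξ hξ
      have : ξ + ((n + 1 : ℕ) : ℂ) * (2 * Real.pi * I)
          = (ξ + n * (2 * Real.pi * I)) + 2 * Real.pi * I := by push_cast; ring
      rw [this, hΨ.per _ (by simpa using hξ), ih ξ hξ]
  rcases Int.eq_nat_or_neg k with ⟨n, rfl | rfl⟩
  · exact_mod_cast key n ζ hζ
  · have := key n (ζ + ((-(n : ℤ) : ℤ) : ℂ) * (2 * Real.pi * I)) (by simpa using hζ)
    rw [← this]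
    congr 1
    push_cast
    ring

/-- Being off the ray of angle `a` only depends on the imaginary part. -/
lemma mem_A_right (hΨ : IsPsi c Ψ) {a : ℝ} (hz1 : z₁ ∈ K c) {ζ : ℂ} (hζ : 0 < ζ.re)
    (h : Ψ ζ ∈ A Ψ z₁ a) {t : ℝ} (ht : 0 ≤ t) : Ψ (ζ + t) ∈ A Ψ z₁ a := by
  have hre : 0 < (ζ + t).re := by simp; linarith
  rw [mem_A_iff] at h ⊢
  refine ⟨fun h1 => hΨ.notMem _ hre (h1 ▸ hz1), fun s hs h1 => ?_⟩
  obtain ⟨k, hk⟩ := hΨ.inj _ _ hre (by rw [re_aux]; exact hs) h1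
  have him := congrArg Complex.im hk
  have hre' := congrArg Complex.re hk
  rw [im_aux] at him
  rw [re_aux] at hre'
  simp at him hre'
  refine h.2 ζ.re hζ ?_
  have e : ((ζ.re : ℝ) : ℂ) + 2 * Real.pi * a * I = ζ + k * (2 * Real.pi * I) := by
    apply Complex.ext
    · simp
    · simp; linarith
  rw [e, per_int hΨ hζ]

lemma slit_aux {w e : ℂ} {E D r : ℝ} (hw : ‖w‖ = 1) (hw1 : w ≠ -1) (he : ‖e‖ ≤ D)
    (hr0 : 0 ≤ r) (hE : D ≤ E) (hE' : w.im ≠ 0 → D < E * |w.im|) :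
    1 + r * (E * w + e) ∈ slitPlane := by
  rw [mem_slitPlane_iff]
  by_cases hi : w.im = 0
  · left
    have hw' : w = 1 := by
      have h1 : w.re ^ 2 = 1 := by
        have := Complex.sq_norm w
        rw [hw, Complex.normSq_apply, hi] at this
        nlinarith
      have h2 : w.re = 1 ∨ w.re = -1 := by
        have : (w.re - 1) * (w.re + 1) = 0 := by linarith [h1, sq w.re, (by ring : (w.re - 1) * (w.re + 1) = w.re ^ 2 - 1)]
        rcases mul_eq_zero.mp this with h | h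
        · left; linarith
        · right; linarith
      rcases h2 with h2 | h2
      · exact Complex.ext (by simp [h2]) (by simp [hi])
      · exact absurd (Complex.ext (by simp [h2]) (by simp [hi])) hw1
    subst hw'
    have h3 : -D ≤ e.re := by
      have := Complex.abs_re_le_norm e
      have := neg_abs_le e.re
      linarith
    have : (1 + (r : ℂ) * (E * 1 + e)).re = 1 + r * (E + e.re) := by simp
    rw [this]
    have : 0 ≤ r * (E + e.re) := mul_nonneg hr0 (by linarith)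
    linarith
  · rcases hr0.lt_or_eq with hr | hr
    · right
      have : (1 + (r : ℂ) * (E * w + e)).im = r * (E * w.im + e.im) := by simp
      rw [this]
      refine mul_ne_zero hr.ne' ?_
      have h3 : |e.im| ≤ D := (Complex.abs_im_le_norm e).trans he
      have h4 := hE' hi
      intro h0
      have h5 : |E * w.im| = |e.im| := by
        rw [eq_neg_of_add_eq_zero_left h0, abs_neg]
      rw [abs_mul] at h5
      have h6 : E ≤ |E| := le_abs_self E
      have h7 : 0 ≤ |w.im| := abs_nonneg _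
      nlinarith
    · left
      rw [← hr]; simp

lemma far (hΨ : IsPsi c Ψ) {a : ℝ} (ha : Lands Ψ a z₁) {ζ : ℂ} (hζ : 0 < ζ.re)
    (h : Ψ ζ ∈ A Ψ z₁ a) :
    ∀ᶠ t : ℝ in atTop, |nu Ψ z₁ a (Ψ (ζ + t)) - a| < 1 / 2 := by
  obtain ⟨C, hC⟩ := hΨ.asymp
  set w : ℂ := -exp (((ζ.im - 2 * Real.pi * a : ℝ) : ℂ) * I) with hw
  have hwn : ‖w‖ = 1 := by rw [hw, norm_neg, norm_exp_ofReal_mul_I]
  have hw1 : w ≠ -1 := by
    intro h1
    rw [hw, neg_inj, exp_eq_one_iff] at h1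
    obtain ⟨k, hk⟩ := h1
    have him := congrArg Complex.im hk
    simp at him
    rw [mem_A_iff] at h
    refine h.2 ζ.re hζ ?_
    have e : ζ = ((ζ.re : ℝ) : ℂ) + 2 * Real.pi * a * I + k * (2 * Real.pi * I) := by
      apply Complex.ext
      · simp
      · simp; linarith
    have e2 := per_int hΨ (ζ := ((ζ.re : ℝ) : ℂ) + 2 * Real.pi * a * I)
      (by rw [re_aux]; exact hζ) k
    rw [← e] at e2
    exact e2
  have hlim : Tendsto (fun t : ℝ => Real.exp (ζ.re + t)) atTop atTop :=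
    Real.tendsto_exp_atTop.comp (tendsto_atTop_add_const_left _ _ tendsto_id)
  have ev1 : ∀ᶠ t : ℝ in atTop, 2 * C ≤ Real.exp (ζ.re + t) := hlim.eventually_ge_atTop _
  have ev2 : ∀ᶠ t : ℝ in atTop, w.im ≠ 0 → 2 * C < Real.exp (ζ.re + t) * |w.im| := by
    by_cases hi : w.im = 0
    · exact Eventually.of_forall fun t h => absurd hi h
    · have : Tendsto (fun t : ℝ => Real.exp (ζ.re + t) * |w.im|) atTop atTop :=
        hlim.atTop_mul_const (abs_pos.mpr hi)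
      filter_upwards [this.eventually_gt_atTop (2 * C)] with t ht _ using ht
  filter_upwards [ev1, ev2, eventually_ge_atTop (0 : ℝ)] with t h1 h2 ht
  set u : ℂ := Ψ (ζ + t) with hu
  have hre : 0 < (ζ + t).re := by simp; linarith
  have huC : ‖u - exp (ζ + t)‖ ≤ C := hC _ hre
  -- the function in the slit plane
  have hslit : ∀ r : UI, (g Ψ z₁ a r - r * u) * exp (-(2 * Real.pi * a * I)) ∈ slitPlane := by
    intro r
    set e1 : ℂ := (g Ψ z₁ a r - exp (2 * Real.pi * a * I)) with he1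
    have hb1 : ‖e1‖ ≤ C * r := g_bound hΨ hC ha r.2
    rcases r.2.1.lt_or_eq with hr | hr
    · have hrc : ((r : ℝ) : ℂ) ≠ 0 := by exact_mod_cast hr.ne'
      set e : ℂ := (e1 / (r : ℝ) - (u - exp (ζ + t))) * exp (-(2 * Real.pi * a * I)) with he
      have hne : ‖exp (-(2 * Real.pi * a * I))‖ = 1 := by
        have : (-(2 * Real.pi * a * I) : ℂ) = ((-(2 * Real.pi * a) : ℝ) : ℂ) * I := by
          push_cast; ring
        rw [this, norm_exp_ofReal_mul_I]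
      have hbe : ‖e‖ ≤ 2 * C := by
        rw [he, norm_mul, hne, mul_one]
        refine (norm_sub_le _ _).trans ?_
        have : ‖e1 / ((r : ℝ) : ℂ)‖ ≤ C := by
          rw [norm_div, norm_real, Real.norm_of_nonneg r.2.1, div_le_iff₀ hr]; exact hb1
        linarith
      have hkey := slit_aux hwn hw1 hbe r.2.1 h1 h2
      have hexp : exp (ζ + t) * exp (-(2 * Real.pi * a * I))
          = -(((Real.exp (ζ.re + t) : ℝ) : ℂ) * w) := by
        rw [hw, mul_neg, neg_neg, ofReal_exp, ← exp_add, ← exp_add]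
        congr 1
        apply Complex.ext <;> simp
        ring
      have hx : exp (2 * Real.pi * a * I) * exp (-(2 * Real.pi * a * I)) = 1 := by
        rw [← exp_add, add_neg_cancel, exp_zero]
      have : (g Ψ z₁ a r - (r : ℝ) * u) * exp (-(2 * Real.pi * a * I))
          = 1 + (r : ℝ) * (((Real.exp (ζ.re + t) : ℝ) : ℂ) * w + e) := by
        have hg : g Ψ z₁ a r = e1 + exp (2 * Real.pi * a * I) := by rw [he1]; ring
        have hd : (r : ℝ) * (e1 / ((r : ℝ) : ℂ)) = e1 := mul_div_cancel₀ _ hrc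
        calc (g Ψ z₁ a r - (r : ℝ) * u) * exp (-(2 * Real.pi * a * I))
            = exp (2 * Real.pi * a * I) * exp (-(2 * Real.pi * a * I))
              + ((r : ℝ) * (-(exp (ζ + t) * exp (-(2 * Real.pi * a * I))))
                + (((r : ℝ) : ℂ) * (e1 / ((r : ℝ) : ℂ)) - (r : ℝ) * (u - exp (ζ + t)))
                  * exp (-(2 * Real.pi * a * I))) := by
              rw [hg, hd]; ring
          _ = _ := by rw [hx, hexp, he]; ring
      rw [this]; exact hkey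
    · rw [← hr, g_zero, ofReal_zero, zero_mul, sub_zero, ← exp_add, add_neg_cancel, exp_zero]
      exact one_mem_slitPlane
  have hg := g_continuous hΨ ha
  have hnu : IsNu Ψ z₁ a u ((2 * Real.pi * a * I +
      log ((g Ψ z₁ a 1 - ((1 : ℝ) : ℂ) * u) * exp (-(2 * Real.pi * a * I)))).im / (2 * Real.pi)) := by
    refine ⟨fun r => 2 * Real.pi * a * I +
      log ((g Ψ z₁ a r - r * u) * exp (-(2 * Real.pi * a * I))), ?_, fun r => ?_, ?_, ?_⟩
    · refine continuous_const.add (Continuous.clog (by fun_prop) hslit)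
    · rw [exp_add, exp_log (slitPlane_ne_zero (hslit r)), mul_comm, mul_assoc, ← exp_add,
        neg_add_cancel, exp_zero, mul_one]
    · have : ((0 : UI) : ℝ) = 0 := rfl
      simp only [this]
      rw [g_zero, ofReal_zero, zero_mul, sub_zero, ← exp_add, add_neg_cancel, exp_zero,
        log_one, add_zero]
    · simp
  rw [hnu.nu_eq]
  have harg := hslit 1
  rw [mem_slitPlane_iff_arg] at harg
  have h1' : ((1 : UI) : ℝ) = 1 := rfl
  rw [h1'] at harg
  set q := (g Ψ z₁ a 1 - ((1 : ℝ) : ℂ) * u) * exp (-(2 * Real.pi * a * I)) with hq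
  have him : (2 * Real.pi * a * I + log q).im = 2 * Real.pi * a + arg q := by
    simp [log_im]
  rw [him]
  have hpi := Real.pi_pos
  have e : (2 * Real.pi * a + arg q) / (2 * Real.pi) - a = arg q / (2 * Real.pi) := by
    field_simp
    ring
  rw [e, abs_div, abs_of_pos (by positivity : (0 : ℝ) < 2 * Real.pi), div_lt_iff₀ (by positivity)]
  have h3 := neg_pi_lt_arg q
  have h4 : arg q < Real.pi := lt_of_le_of_ne (arg_le_pi q) harg.1
  rw [abs_lt]
  constructor <;> linarith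

/-- Monotonicity in the angle. -/
lemma nu_mono (hΨ : IsPsi c Ψ) (hz1 : z₁ ∈ K c) {a b : ℝ} (ha : Lands Ψ a z₁)
    (hb : Lands Ψ b z₁) (hab : a < b) {z : ℂ} (hz : z ∈ K c) (hzz : z ≠ z₁) :
    nu Ψ z₁ a z ≤ nu Ψ z₁ b z := by
  classical
  set W : Set ℂ := A Ψ z₁ a ∩ A Ψ z₁ b with hW
  have hWo : IsOpen W := (isOpen_A hΨ ha).inter (isOpen_A hΨ hb)
  set n : ℂ → ℝ := fun z => nu Ψ z₁ b z - nu Ψ z₁ a z with hn
  have hnc : ContinuousOn n W :=
    ((continuousOn_nu hΨ hb).mono inter_subset_right).sub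
      ((continuousOn_nu hΨ ha).mono inter_subset_left)
  have hint : ∀ x ∈ W, ∃ k : ℤ, n x = k := fun x hx =>
    (isNu_nu hΨ ha hx.1).sub_int (isNu_nu hΨ hb hx.2)
  -- values off the filled Julia set
  have hU : ∀ x ∈ W, x ∉ K c → 0 ≤ n x := by
    intro x hx hxK
    obtain ⟨ζ, hζ, rfl⟩ := hΨ.surj x hxK
    have hmaps : ∀ t : ℝ, 0 ≤ t → Ψ (ζ + t) ∈ W := fun t ht =>
      ⟨mem_A_right hΨ hz1 hζ hx.1 ht, mem_A_right hΨ hz1 hζ hx.2 ht⟩
    have hcont : ContinuousOn (fun t : ℝ => n (Ψ (ζ + t))) (Ici 0) := by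
      refine hnc.comp ?_ (fun t ht => hmaps t ht)
      refine hΨ.diff.continuousOn.comp (by fun_prop) (fun t ht => ?_)
      have : (0 : ℝ) ≤ t := ht
      change 0 < (ζ + t).re
      simp; linarith
    have hev : ∀ᶠ t : ℝ in atTop, 0 ≤ n (Ψ (ζ + t)) := by
      filter_upwards [far hΨ ha hζ hx.1, far hΨ hb hζ hx.2, eventually_ge_atTop (0 : ℝ)] with
        t h1 h2 ht
      obtain ⟨k, hk⟩ := hint _ (hmaps t ht)
      rw [abs_lt] at h1 h2
      have h3 : (-1 : ℝ) < k := by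
        rw [← hk, hn]; simp only; linarith
      have h4 : (-1 : ℤ) < k := by exact_mod_cast h3
      have h5 : (0 : ℤ) ≤ k := by omega
      rw [hk]; exact_mod_cast h5
    obtain ⟨t, ht1, ht0⟩ := (hev.and (eventually_ge_atTop (0 : ℝ))).exists
    by_contra hneg
    rw [not_le] at hneg
    -- intermediate value: n takes an integer value in each, use -1/2
    have h0 : n (Ψ (ζ + (0 : ℝ))) = n (Ψ ζ) := by simp
    obtain ⟨k, hk⟩ := hint _ hx
    have hk1 : n (Ψ ζ) ≤ -1 := by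
      rw [hk] at hneg ⊢
      have : k < 0 := by exact_mod_cast hneg
      have : k ≤ -1 := by omega
      exact_mod_cast this
    have hivt := intermediate_value_Icc ht0 (hcont.mono Icc_subset_Ici_self)
    have hmem : (-1 / 2 : ℝ) ∈ Icc (n (Ψ (ζ + (0 : ℝ)))) (n (Ψ (ζ + t))) := by
      rw [h0]; constructor <;> linarith
    obtain ⟨s, hs, hsn⟩ := hivt hmem
    obtain ⟨m, hm⟩ := hint _ (hmaps s hs.1)
    simp only at hsn
    rw [hm] at hsn
    have h6 : (2 * m : ℝ) = -1 := by linarith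
    have h7 : (2 * m : ℤ) = -1 := by exact_mod_cast h6
    omega
  by_contra hlt
  rw [not_le] at hlt
  have hPo : IsOpen (W ∩ n ⁻¹' (Iio 0)) := hnc.isOpen_inter_preimage hWo isOpen_Iio
  have hQo : IsOpen ((W ∩ n ⁻¹' (Ioi (-1))) ∪ (K c)ᶜ) :=
    (hnc.isOpen_inter_preimage hWo isOpen_Ioi).union isClosed_K.isOpen_compl
  have hconn : IsPreconnected ({z₁}ᶜ : Set ℂ) :=
    (isConnected_compl_singleton_of_one_lt_rank (by simp) z₁).isPreconnected
  have hcover : ({z₁}ᶜ : Set ℂ) ⊆ (W ∩ n ⁻¹' (Iio 0)) ∪ ((W ∩ n ⁻¹' (Ioi (-1))) ∪ (K c)ᶜ) := by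
    intro x hx
    by_cases hxK : x ∈ K c
    · have hxW : x ∈ W := ⟨mem_A_of_mem_K hΨ a hxK hx, mem_A_of_mem_K hΨ b hxK hx⟩
      rcases lt_or_ge (n x) 0 with h | h
      · exact Or.inl ⟨hxW, h⟩
      · refine Or.inr (Or.inl ⟨hxW, ?_⟩)
        change -1 < n x
        linarith
    · exact Or.inr (Or.inr hxK)
  have hzW : z ∈ W := ⟨mem_A_of_mem_K hΨ a hz hzz, mem_A_of_mem_K hΨ b hz hzz⟩
  have hne1 : (({z₁}ᶜ : Set ℂ) ∩ (W ∩ n ⁻¹' (Iio 0))).Nonempty := by
    refine ⟨z, hzz, hzW, ?_⟩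
    change n z < 0
    rw [hn]; simp only; linarith
  have hne2 : (({z₁}ᶜ : Set ℂ) ∩ ((W ∩ n ⁻¹' (Ioi (-1))) ∪ (K c)ᶜ)).Nonempty := by
    have h1 : Ψ 1 ∉ K c := hΨ.notMem 1 (by simp)
    exact ⟨Ψ 1, fun h => h1 (by rw [mem_singleton_iff.mp h]; exact hz1), Or.inr h1⟩
  obtain ⟨x, hx1, ⟨hxW, hxn⟩, hx2⟩ := hconn _ _ hPo hQo hcover hne1 hne2
  rcases hx2 with hx2 | hx2
  · obtain ⟨k, hk⟩ := hint x hxW
    have h1 : n x < 0 := hxn
    have h2 : -1 < n x := hx2.2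
    rw [hk] at h1 h2
    have h3 : k < 0 := by exact_mod_cast h1
    have h4 : -1 < k := by exact_mod_cast h2
    omega
  · have h1 : n x < 0 := hxn
    have := hU x hxW hx2
    linarith

end Pool.Agent.Cremer.Wind

namespace Pool.Agent.Cremer

open Wind

lemma Wind.mem_K_of_fix {c z₁ : ℂ} (hfix : f c z₁ = z₁) : z₁ ∈ K c :=
  ⟨‖z₁‖, fun n => by rw [Function.iterate_fixed hfix]⟩

lemma Wind.f_mem_K {c z : ℂ} (h : z ∈ K c) : f c z ∈ K c := by
  obtain ⟨R, hR⟩ := h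
  exact ⟨R, fun n => by rw [← Function.iterate_succ_apply]; exact hR _⟩

lemma Wind.neg_mem_K {c z : ℂ} (h : z ∈ K c) : -z ∈ K c := by
  obtain ⟨R, hR⟩ := h
  refine ⟨max R ‖z‖, fun n => ?_⟩
  cases n with
  | zero => simp
  | succ n =>
    rw [Function.iterate_succ_apply]
    have : f c (-z) = f c z := by simp [f]
    rw [this, ← Function.iterate_succ_apply]
    exact (hR _).trans (le_max_left _ _)

theorem exists_nu {c z₁ : ℂ} (h0 : (0 : ℂ) ∈ K c) {Ψ : ℂ → ℂ} (hΨ : IsPsi c Ψ)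
    (hfix : f c z₁ = z₁) (hz : z₁ ≠ 0) :
    ∃ ν : ℝ → ℂ → ℝ,
      (∀ a b, Lands Ψ a z₁ → Lands Ψ b z₁ →
        ContinuousOn (fun z => ν b z - ν a z) (K c \ {z₁})) ∧
      (∀ a b, Lands Ψ a z₁ → Lands Ψ b z₁ → ∀ z ∈ K c \ {z₁}, ∃ k : ℤ, ν b z - ν a z = k) ∧
      (∀ a b, Lands Ψ a z₁ → Lands Ψ b z₁ → a ≤ b → ∀ z ∈ K c \ {z₁}, ν a z ≤ ν b z) ∧
      (∀ a, Lands Ψ a z₁ → ∀ z ∈ K c \ {z₁}, ν (a + 1) z = ν a z + 1) ∧
      (∀ a, Lands Ψ a z₁ → ∀ z ∈ K c \ {z₁, -z₁}, ν (2 * a) (f c z) = ν a z + ν a (-z)) := by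
  have hz1 : z₁ ∈ K c := mem_K_of_fix hfix
  have hsub : ∀ a, K c \ {z₁} ⊆ A Ψ z₁ a := fun a z hz => mem_A_of_mem_K hΨ a hz.1 hz.2
  refine ⟨nu Ψ z₁, ?_, ?_, ?_, ?_, ?_⟩
  · intro a b ha hb
    exact ((continuousOn_nu hΨ hb).mono (hsub b)).sub ((continuousOn_nu hΨ ha).mono (hsub a))
  · intro a b ha hb z hz
    exact (isNu_nu hΨ ha (hsub a hz)).sub_int (isNu_nu hΨ hb (hsub b hz))
  · intro a b ha hb hab z hz
    rcases hab.lt_or_eq with h | h
    · exact nu_mono hΨ hz1 ha hb h hz.1 hz.2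
    · rw [h]
  · intro a ha z hz
    exact ((isNu_nu hΨ ha (hsub a hz)).add_one hΨ).nu_eq
  · intro a ha z hz
    have h1 : z ≠ z₁ := fun h => hz.2 (by simp [h])
    have h2 : -z ≠ z₁ := fun h => hz.2 (by rw [← h]; simp)
    exact ((isNu_nu hΨ ha (hsub a ⟨hz.1, h1⟩)).two_mul hΨ hfix
      (isNu_nu hΨ ha (hsub a ⟨neg_mem_K hz.1, h2⟩))).nu_eq

end Pool.Agent.Cremer
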