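import Pool.Agent.Cremer.Recur
import Pool.Agent.Cremer.Comb
import Pool.Agent.Cremer.NoPeriodic
import Pool.Agent.Cremer.Psi
import Pool.Agent.Cremer.Wind

/-!
# Critical orbit points lie in different components
-/

open Set Filter Topology Complex Metric

namespace Pool.Agent.Cremer

variable {c z₁ : ℂ}

/-! ### Invariance properties of the set of landing angles -/

theorem IsPsi.per_int {Ψ : ℂ → ℂ} (h : IsPsi c Ψ) {ζ : ℂ} (hζ : 0 < ζ.re) (m : ℤ) :
    Ψ (ζ + m * (2 * Real.pi * I)) = Ψ ζ := by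
  have hnat : ∀ n : ℕ, ∀ ζ : ℂ, 0 < ζ.re → Ψ (ζ + n * (2 * Real.pi * I)) = Ψ ζ := by
    intro n
    induction n with
    | zero => intro ζ _; simp
    | succ n ih =>
      intro ζ hζ
      have h1 : ζ + ((n + 1 : ℕ) : ℂ) * (2 * Real.pi * I) =
          (ζ + n * (2 * Real.pi * I)) + 2 * Real.pi * I := by push_cast; ring
      rw [h1, h.per _ (by simpa using hζ), ih ζ hζ]
  rcases Int.eq_nat_or_neg m with ⟨n, rfl | rfl⟩
  · simpa using hnat n ζ hζ
  · have h1 := hnat n (ζ + ((-(n:ℤ) : ℤ) : ℂ) * (2 * Real.pi * I)) (by simpa using hζ)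
    have h2 : ζ + ((-(n:ℤ) : ℤ) : ℂ) * (2 * Real.pi * I) + n * (2 * Real.pi * I) = ζ := by
      push_cast; ring
    rw [h2] at h1
    exact h1.symm

theorem lands_add_int {Ψ : ℂ → ℂ} (h : IsPsi c Ψ) {a : ℝ} (ha : Lands Ψ a z₁) (m : ℤ) :
    Lands Ψ (a + m) z₁ := by
  unfold Lands at *
  refine ha.congr' ?_
  filter_upwards [self_mem_nhdsWithin] with s hs
  have hs' : 0 < (((s : ℝ) : ℂ) + 2 * Real.pi * a * I).re := by simpa using hs
  rw [← h.per_int hs' m]
  congr 1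
  push_cast; ring

theorem lands_double {Ψ : ℂ → ℂ} (h : IsPsi c Ψ) (hfix : f c z₁ = z₁) {a : ℝ}
    (ha : Lands Ψ a z₁) : Lands Ψ (2 * a) z₁ := by
  unfold Lands at *
  have h1 : Tendsto (fun s : ℝ => s / 2) (𝓝[>] 0) (𝓝[>] 0) := by
    apply tendsto_nhdsWithin_iff.mpr
    refine ⟨?_, ?_⟩
    · have : Tendsto (fun s : ℝ => s / 2) (𝓝 0) (𝓝 (0 / 2)) := (continuous_id.div_const 2).tendsto 0
      simpa using this.mono_left nhdsWithin_le_nhds
    · filter_upwards [self_mem_nhdsWithin] with s hs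
      simp only [mem_Ioi] at *
      linarith
  have h2 := ha.comp h1
  have h3 : Tendsto (fun s : ℝ => f c (Ψ (((s / 2 : ℝ) : ℂ) + 2 * Real.pi * a * I))) (𝓝[>] 0)
      (𝓝 (f c z₁)) := (continuous_f.tendsto z₁).comp h2
  rw [hfix] at h3
  refine h3.congr' ?_
  filter_upwards [self_mem_nhdsWithin] with s hs
  have hs0 : (0:ℝ) < s := hs
  have hs' : 0 < (((s / 2 : ℝ) : ℂ) + 2 * Real.pi * a * I).re := by simpa using hs0
  have := h.dbl _ hs'
  unfold f
  rw [← this]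
  congr 1
  push_cast; ring

theorem psi_half {Ψ : ℂ → ℂ} (h : IsPsi c Ψ) {ζ : ℂ} (hζ : 0 < ζ.re) :
    Ψ (ζ + Real.pi * I) = - Ψ ζ := by
  have hζ' : 0 < (ζ + Real.pi * I).re := by simpa using hζ
  have h1 := h.dbl _ hζ'
  have h2 : 2 * (ζ + Real.pi * I) = 2 * ζ + 2 * Real.pi * I := by ring
  have h3 : 0 < (2 * ζ).re := by simpa using hζ
  rw [h2, h.per _ h3, h.dbl _ hζ] at h1
  have h4 : Ψ ζ ^ 2 = Ψ (ζ + Real.pi * I) ^ 2 := by linear_combination h1
  rcases sq_eq_sq_iff_eq_or_eq_neg.mp h4 with h5 | h5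
  · exfalso
    obtain ⟨k, hk⟩ := h.inj _ _ hζ hζ' h5
    have h6 : (Real.pi : ℂ) * I = (k : ℂ) * (2 * Real.pi * I) := by linear_combination hk
    have h7 : (1 : ℂ) = 2 * k := by
      have hpi : (Real.pi : ℂ) * I ≠ 0 := mul_ne_zero (by exact_mod_cast Real.pi_ne_zero) I_ne_zero
      apply mul_left_cancel₀ hpi
      linear_combination h6
    have h8 : (1 : ℤ) = 2 * k := by exact_mod_cast h7
    omega
  · rw [h5]; ring

theorem not_lands_half {Ψ : ℂ → ℂ} (h : IsPsi c Ψ) (hz : z₁ ≠ 0) {a : ℝ} (ha : Lands Ψ a z₁) :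
    ¬ Lands Ψ (a + 1 / 2) z₁ := by
  intro hb
  unfold Lands at *
  have h1 : Tendsto (fun s : ℝ => Ψ (s + 2 * Real.pi * (a + 1 / 2 : ℝ) * I)) (𝓝[>] 0) (𝓝 (-z₁)) := by
    refine ha.neg.congr' ?_
    filter_upwards [self_mem_nhdsWithin] with s hs
    have hs' : 0 < (((s : ℝ) : ℂ) + 2 * Real.pi * a * I).re := by simpa using hs
    rw [← psi_half h hs']
    congr 1
    push_cast; ring
  have h2 := tendsto_nhds_unique hb h1
  apply hz
  have h3 : (2 : ℂ) * z₁ = 0 := by linear_combination h2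
  simpa using h3

/-! ### Critical orbit avoids the fixed point and its preimage -/

theorem z₁_ne_zero {α : ℝ} (hmul : 2 * z₁ = exp (2 * Real.pi * α * I)) : z₁ ≠ 0 := by
  rintro rfl
  rw [mul_zero] at hmul
  exact exp_ne_zero _ hmul.symm

theorem norm_mul_eq {α : ℝ} (hmul : 2 * z₁ = exp (2 * Real.pi * α * I)) : ‖2 * z₁‖ = 1 := by
  rw [hmul]
  have : (2 * Real.pi * α * I : ℂ) = ((2 * Real.pi * α : ℝ) : ℂ) * I := by push_cast; ring
  rw [this, Complex.norm_exp_ofReal_mul_I]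

theorem crit_ne_fixed (hfix : f c z₁ = z₁) (hmul : ‖2 * z₁‖ = 1) (hJ : z₁ ∈ J c) (j : ℕ) :
    (f c)^[j] 0 ≠ z₁ := by
  intro hj
  have hz₁0 : z₁ ≠ 0 := by rintro rfl; simp at hmul
  have h0J : (0:ℂ) ∈ J c := by rw [← iter_mem_J j, hj]; exact hJ
  have hone : OneCrit c := by
    intro v r hdisj i k _ _ hi _
    exact absurd ((iter_mem_J i).mpr h0J) (Set.disjoint_left.mp hdisj hi)
  have hrec := recurrent hone hfix hmul hJ
  have hlate : ∀ i, j ≤ i → (f c)^[i] 0 = z₁ := by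
    intro i hi
    obtain ⟨k, rfl⟩ := Nat.exists_eq_add_of_le hi
    rw [add_comm, Function.iterate_add_apply, hj, iter_fixed hfix]
  have hnonzero : ∀ i, 1 ≤ i → (f c)^[i] 0 ≠ 0 := by
    intro i hi h0
    have h1 : ∀ k, (f c)^[i * k] 0 = 0 := by
      intro k
      induction k with
      | zero => simp
      | succ k ih => rw [Nat.mul_succ, Function.iterate_add_apply, h0, ih]
    have h2 := hlate (i * (j + 1)) (by nlinarith)
    rw [h1] at h2
    exact hz₁0 h2.symm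
  have hmin : ∀ M : ℕ, ∃ e > 0, ∀ i, 1 ≤ i → i < M → e ≤ ‖(f c)^[i] 0‖ := by
    intro M
    induction M with
    | zero => exact ⟨1, one_pos, fun i _ hi => by omega⟩
    | succ M ih =>
      obtain ⟨e, he, h⟩ := ih
      rcases Nat.eq_zero_or_pos M with rfl | hM
      · exact ⟨1, one_pos, fun i hi hi2 => by omega⟩
      · refine ⟨min e ‖(f c)^[M] 0‖, lt_min he (norm_pos_iff.mpr (hnonzero M hM)), ?_⟩
        intro i hi hi2
        rcases Nat.lt_succ_iff_lt_or_eq.mp hi2 with h' | rfl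
        · exact (min_le_left _ _).trans (h i hi h')
        · exact min_le_right _ _
  obtain ⟨e, he, h⟩ := hmin j
  obtain ⟨i, hi, hie⟩ := hrec (min e ‖z₁‖) (lt_min he (norm_pos_iff.mpr hz₁0))
  rcases lt_or_ge i j with hij | hij
  · exact absurd (hie.trans_le (min_le_left _ _)) (not_lt.mpr (h i hi hij))
  · rw [hlate i hij] at hie
    exact absurd (hie.trans_le (min_le_right _ _)) (lt_irrefl _)

theorem crit_ne_neg_fixed (hfix : f c z₁ = z₁) (hmul : ‖2 * z₁‖ = 1) (hJ : z₁ ∈ J c) (j : ℕ) :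
    (f c)^[j] 0 ≠ -z₁ := by
  intro hj
  apply crit_ne_fixed hfix hmul hJ (j + 1)
  rw [Function.iterate_succ_apply', hj, f_neg, hfix]

/-- **Separation of the critical orbit.** -/
theorem separate {α : ℝ} (hα : Irrational α) (hfix : f c z₁ = z₁)
    (hmul : 2 * z₁ = exp (2 * Real.pi * α * I)) (hJ : z₁ ∈ J c)
    (hland : ∀ Ψ, IsPsi c Ψ → ∃ θ, Lands Ψ θ z₁) {S : Set ℂ} (hS : IsPreconnected S)
    (hSK : S ⊆ K c \ {z₁}) {i j : ℕ} (hi : (f c)^[i] 0 ∈ S) (hj : (f c)^[j] 0 ∈ S) : i = j := by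
  have hn := norm_mul_eq hmul
  have hz0 := z₁_ne_zero hmul
  have h0 : (0:ℂ) ∈ K c := zero_mem_K hfix hn hJ
  obtain ⟨Ψ, hΨ⟩ := exists_Psi c h0
  obtain ⟨θ, hθ⟩ := hland Ψ hΨ
  obtain ⟨ν, hν1, hν2, hν3, hν4, hν5⟩ := exists_nu h0 hΨ hfix hz0
  have hK : ∀ j, (f c)^[j] 0 ∈ K c := fun j => (iter_mem_K j).mpr h0
  have hz : ∀ j, (f c)^[j] 0 ∈ K c \ {z₁} := fun j => ⟨hK j, crit_ne_fixed hfix hn hJ j⟩
  have hz' : ∀ j, -(f c)^[j] 0 ∈ K c \ {z₁} := fun j =>
    ⟨neg_mem_K.mpr (hK j), fun h => crit_ne_neg_fixed hfix hn hJ j (by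
      have : -(f c)^[j] 0 = z₁ := h
      rw [← this, neg_neg])⟩
  have hz'' : ∀ j, (f c)^[j] 0 ∈ K c \ {z₁, -z₁} := fun j =>
    ⟨hK j, by
      rintro (h | h)
      · exact crit_ne_fixed hfix hn hJ j h
      · exact crit_ne_neg_fixed hfix hn hJ j h⟩
  have hsep := separation {a | Lands Ψ a z₁} ⟨θ, hθ⟩ (fun a ha m => lands_add_int hΨ ha m)
    (fun a ha => lands_double hΨ hfix ha) (fun a ha => not_lands_half hΨ hz0 ha)
    (fun a ha p hp m => no_periodic h0 hΨ hα hfix hmul ha hp m)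
    (fun j a => ν a ((f c)^[j] 0)) (fun j a => ν a (-(f c)^[j] 0))
    (fun j a ha b hb => hν2 a b ha hb _ (hz j)) (fun j a ha b hb => hν2 a b ha hb _ (hz' j))
    (fun j a ha b hb hab => hν3 a b ha hb hab _ (hz j))
    (fun j a ha b hb hab => hν3 a b ha hb hab _ (hz' j))
    (fun j a ha => hν4 a ha _ (hz j)) (fun j a ha => hν4 a ha _ (hz' j))
    (fun j a ha => by
      simp only [Function.iterate_succ_apply']
      exact hν5 a ha _ (hz'' j))
    (fun a _ => by simp)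
  -- the integer valued continuous functions are constant on `S`
  have hconst : ∀ a b, Lands Ψ a z₁ → Lands Ψ b z₁ →
      ν b ((f c)^[i] 0) - ν a ((f c)^[i] 0) = ν b ((f c)^[j] 0) - ν a ((f c)^[j] 0) := by
    intro a b ha hb
    have hc : ContinuousOn (fun z => ν b z - ν a z) S := (hν1 a b ha hb).mono hSK
    by_contra hne
    -- image is a preconnected set of reals made of integers
    have himg : IsPreconnected ((fun z => ν b z - ν a z) '' S) := hS.image _ hc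
    obtain ⟨k, hk⟩ := hν2 a b ha hb _ (hz i)
    obtain ⟨l, hl⟩ := hν2 a b ha hb _ (hz j)
    have hkl : (k : ℝ) ≠ l := by rw [← hk, ← hl]; exact hne
    have hmem : ∀ x ∈ uIcc (k : ℝ) l, ∃ m : ℤ, x = m := by
      intro x hx
      have hord := himg.ordConnected.uIcc_subset (x := (k : ℝ)) (y := (l : ℝ))
        ⟨_, hi, hk⟩ ⟨_, hj, hl⟩
      obtain ⟨z, hzS, hze⟩ := hord hx
      obtain ⟨m, hm⟩ := hν2 a b ha hb z (hSK hzS)
      exact ⟨m, by rw [← hze]; exact hm⟩
    rcases lt_or_gt_of_ne hkl with h | h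
    · have h' : k < l := by exact_mod_cast h
      obtain ⟨m, hm⟩ := hmem (k + 1 / 2) (by
        rw [uIcc_of_le h.le]
        have : (k : ℝ) + 1 ≤ l := by exact_mod_cast h'
        constructor <;> linarith)
      have h2 : (2 * k + 1 : ℤ) = 2 * m := by
        have : (2 * k + 1 : ℝ) = 2 * m := by rw [← hm]; ring
        exact_mod_cast this
      omega
    · have h' : l < k := by exact_mod_cast h
      obtain ⟨m, hm⟩ := hmem (l + 1 / 2) (by
        rw [uIcc_of_ge h.le]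
        have : (l : ℝ) + 1 ≤ k := by exact_mod_cast h'
        constructor <;> linarith)
      have h2 : (2 * l + 1 : ℤ) = 2 * m := by
        have : (2 * l + 1 : ℝ) = 2 * m := by rw [← hm]; ring
        exact_mod_cast this
      omega
  by_contra hij
  rcases lt_or_gt_of_ne hij with h | h
  · obtain ⟨a, ha, b, hb, hne⟩ := hsep i j h
    exact hne (hconst a b ha hb)
  · obtain ⟨a, ha, b, hb, hne⟩ := hsep j i h
    exact hne (hconst a b ha hb).symm

end Pool.Agent.Cremer
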